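import Mathlib

/-!
# Clubs of countable pieces `(A, θ)` of `K ⊔ Ω`

`Ω` is a linear order of type `ω₁`, `K` is any type. A piece is a countable set `A ⊆ K` together with
a proper initial segment `{x | x < θ}` of `Ω`. A set of pieces is a club if it contains all pieces
closed under some operation with countably many inputs over every piece.
-/

namespace Pool.Agent.Lib_helper27.H

/-- A type of finite objects built from elements of `K` and `Ω`. -/
class Small (K Ω : Type) [LinearOrder Ω] (D : Type) where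
  /-- the elements of `K` used -/
  s₁ : D → Finset K
  /-- the elements of `Ω` used -/
  s₂ : D → Finset Ω
  cnt : ∀ A : Set K, A.Countable → ∀ θ : Ω, (Set.Iio θ).Countable →
    {d | ↑(s₁ d) ⊆ A ∧ ∀ x ∈ s₂ d, x < θ}.Countable

/-- the object `d` is built from elements of the piece `(A, θ)` -/
def In {K Ω : Type} [LinearOrder Ω] {D : Type} [Small K Ω D] (A : Set K) (θ : Ω) (d : D) : Prop :=
  ↑(Small.s₁ Ω d : Finset K) ⊆ A ∧ ∀ x ∈ (Small.s₂ K d : Finset Ω), x < θ

section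

variable {K Ω : Type} [LinearOrder Ω]

theorem In.mono {D : Type} [Small K Ω D] {A A' : Set K} {θ θ' : Ω} {d : D} (h : In A θ d)
    (hA : A ⊆ A') (hθ : θ ≤ θ') : In A' θ' d :=
  ⟨h.1.trans hA, fun x hx => (h.2 x hx).trans_le hθ⟩

open Classical in
noncomputable instance : Small K Ω K where
  s₁ k := {k}
  s₂ _ := ∅
  cnt A hA θ _ := by
    refine hA.mono ?_
    rintro k ⟨h, _⟩
    simpa using h

open Classical in
noncomputable instance : Small K Ω Ω where
  s₁ _ := ∅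
  s₂ x := {x}
  cnt A hA θ hθ := by
    refine hθ.mono ?_
    rintro k ⟨_, h⟩
    simpa using h

noncomputable instance : Small K Ω ℕ where
  s₁ _ := ∅
  s₂ _ := ∅
  cnt _ _ _ _ := Set.to_countable _

open Classical in
noncomputable instance {D D' : Type} [Small K Ω D] [Small K Ω D'] : Small K Ω (D × D') where
  s₁ d := Small.s₁ Ω d.1 ∪ Small.s₁ Ω d.2
  s₂ d := Small.s₂ K d.1 ∪ Small.s₂ K d.2
  cnt A hA θ hθ := by
    refine ((Small.cnt (D := D) A hA θ hθ).prod (Small.cnt (D := D') A hA θ hθ)).mono ?_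
    rintro ⟨d, d'⟩ ⟨h1, h2⟩
    simp only [Finset.coe_union, Set.union_subset_iff, Finset.mem_union] at h1 h2
    exact ⟨⟨h1.1, fun x hx => h2 x (Or.inl hx)⟩, h1.2, fun x hx => h2 x (Or.inr hx)⟩

open Classical in
noncomputable instance {I : Type} [Small K Ω I] {D : I → Type} [∀ i, Small K Ω (D i)] :
    Small K Ω (Σ i, D i) where
  s₁ d := Small.s₁ Ω d.1 ∪ Small.s₁ Ω d.2
  s₂ d := Small.s₂ K d.1 ∪ Small.s₂ K d.2
  cnt A hA θ hθ := by
    have h1 : (⋃ i ∈ {i : I | ↑(Small.s₁ Ω i : Finset K) ⊆ A ∧ ∀ x ∈ (Small.s₂ K i : Finset Ω), x < θ},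
        Sigma.mk i '' {d : D i | ↑(Small.s₁ Ω d : Finset K) ⊆ A ∧
          ∀ x ∈ (Small.s₂ K d : Finset Ω), x < θ}).Countable := by
      refine (Small.cnt (D := I) A hA θ hθ).biUnion fun i _ => ?_
      exact (Small.cnt (D := D i) A hA θ hθ).image _
    refine h1.mono ?_
    rintro ⟨i, d⟩ ⟨h1, h2⟩
    simp only [Finset.coe_union, Set.union_subset_iff, Finset.mem_union] at h1 h2
    simp only [Set.mem_iUnion]
    exact ⟨i, ⟨h1.1, fun x hx => h2 x (Or.inl hx)⟩, d, ⟨h1.2, fun x hx => h2 x (Or.inr hx)⟩, rfl⟩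

open Classical in
noncomputable instance {D : Type} [Small K Ω D] : Small K Ω (Finset D) where
  s₁ d := d.biUnion (Small.s₁ Ω)
  s₂ d := d.biUnion (Small.s₂ K)
  cnt A hA θ hθ := by
    have h1 := Set.countable_ofPred_finite_subset (Small.cnt (D := D) A hA θ hθ)
    have h2 := h1.preimage (f := fun s : Finset D => (s : Set D)) Finset.coe_injective
    refine h2.mono ?_
    rintro s ⟨h1, h2⟩
    refine ⟨s.finite_toSet, ?_⟩
    intro d hd
    refine ⟨fun k hk => h1 ?_, fun x hx => h2 x ?_⟩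
    · simp only [Finset.coe_biUnion, Set.mem_iUnion]
      exact ⟨d, hd, hk⟩
    · simp only [Finset.mem_biUnion]
      exact ⟨d, hd, hx⟩

/-- transport of `Small` along an injection -/
@[reducible]
def Small.ofInj {D D' : Type} [Small K Ω D'] (f : D → D') (hf : Function.Injective f) :
    Small K Ω D where
  s₁ d := Small.s₁ Ω (f d)
  s₂ d := Small.s₂ K (f d)
  cnt A hA θ hθ := (Small.cnt (D := D') A hA θ hθ).preimage hf

@[simp] theorem in_K {A : Set K} {θ : Ω} {k : K} : In A θ k ↔ k ∈ A := by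
  simp [In, Small.s₁, Small.s₂]

@[simp] theorem in_Ω {A : Set K} {θ : Ω} {x : Ω} : In A θ x ↔ x < θ := by
  simp [In, Small.s₁, Small.s₂]

@[simp] theorem in_ℕ {A : Set K} {θ : Ω} {x : ℕ} : In A θ x := by
  simp [In, Small.s₁, Small.s₂]

@[simp] theorem in_prod {D D' : Type} [Small K Ω D] [Small K Ω D'] {A : Set K} {θ : Ω}
    {d : D × D'} : In A θ d ↔ In A θ d.1 ∧ In A θ d.2 := by
  simp only [In, Small.s₁, Small.s₂, Finset.coe_union, Set.union_subset_iff, Finset.mem_union]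
  constructor
  · rintro ⟨h1, h2⟩
    exact ⟨⟨h1.1, fun x hx => h2 x (Or.inl hx)⟩, h1.2, fun x hx => h2 x (Or.inr hx)⟩
  · rintro ⟨⟨h1, h2⟩, h3, h4⟩
    exact ⟨⟨h1, h3⟩, fun x hx => hx.elim (h2 x) (h4 x)⟩

@[simp] theorem in_sigma {I : Type} [Small K Ω I] {D : I → Type} [∀ i, Small K Ω (D i)] {A : Set K}
    {θ : Ω} {d : Σ i, D i} : In A θ d ↔ In A θ d.1 ∧ In A θ d.2 := by
  simp only [In, Small.s₁, Small.s₂, Finset.coe_union, Set.union_subset_iff, Finset.mem_union]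
  constructor
  · rintro ⟨h1, h2⟩
    exact ⟨⟨h1.1, fun x hx => h2 x (Or.inl hx)⟩, h1.2, fun x hx => h2 x (Or.inr hx)⟩
  · rintro ⟨⟨h1, h2⟩, h3, h4⟩
    exact ⟨⟨h1, h3⟩, fun x hx => hx.elim (h2 x) (h4 x)⟩

@[simp] theorem in_finset {D : Type} [Small K Ω D] {A : Set K} {θ : Ω}
    {s : Finset D} : In A θ s ↔ ∀ d ∈ s, In A θ d := by
  simp only [In, Small.s₁, Small.s₂, Finset.coe_biUnion, Set.iUnion_subset_iff, Finset.mem_coe,
    Finset.mem_biUnion]
  constructor
  · rintro ⟨h1, h2⟩ d hd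
    exact ⟨h1 d hd, fun x hx => h2 x ⟨d, hd, hx⟩⟩
  · intro h
    refine ⟨fun d hd => (h d hd).1, ?_⟩
    rintro x ⟨d, hd, hx⟩
    exact (h d hd).2 x hx

/-- An operation assigning countable pieces to objects. -/
structure Op (K Ω : Type) [LinearOrder Ω] where
  /-- inputs -/
  D : Type
  [small : Small K Ω D]
  /-- output in `K` -/
  f₁ : D → Set K
  /-- output in `Ω` -/
  f₂ : D → Ω
  hf₁ : ∀ d, (f₁ d).Countable

attribute [instance] Op.small

/-- the piece `(A, θ)` is closed under `F` -/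
def Op.Closed (F : Op K Ω) (A : Set K) (θ : Ω) : Prop := ∀ d : F.D, In A θ d → F.f₁ d ⊆ A ∧ F.f₂ d < θ

/-- A set of pieces is a club. -/
def Club (C : Set K → Ω → Prop) : Prop :=
  ∃ F : Op K Ω, ∀ A θ, A.Countable → F.Closed A θ → C A θ

/-- A set of pieces is stationary. -/
def Stat (S : Set K → Ω → Prop) : Prop :=
  ∀ C : Set K → Ω → Prop, Club C → ∃ A θ, A.Countable ∧ C A θ ∧ S A θ

theorem Club.mono {C C' : Set K → Ω → Prop} (h : Club C)
    (h' : ∀ A θ, A.Countable → C A θ → C' A θ) : Club C' := by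
  obtain ⟨F, hF⟩ := h
  exact ⟨F, fun A θ hA hc => h' A θ hA (hF A θ hA hc)⟩

/-- The diagonal intersection of clubs is a club. -/
theorem Club.diag {I : Type} [Small K Ω I] {C : I → Set K → Ω → Prop} (h : ∀ i, Club (C i)) :
    Club fun A θ => ∀ i, In A θ i → C i A θ := by
  choose F hF using h
  refine ⟨⟨Σ i, (F i).D, fun d => (F d.1).f₁ d.2, fun d => (F d.1).f₂ d.2,
    fun d => (F d.1).hf₁ d.2⟩, ?_⟩
  intro A θ hA hc i hi
  refine hF i A θ hA ?_
  intro d hd
  exact hc ⟨i, d⟩ (in_sigma.2 ⟨hi, hd⟩)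

theorem Club.forall_nat {C : ℕ → Set K → Ω → Prop} (h : ∀ i, Club (C i)) :
    Club fun A θ => ∀ i, C i A θ :=
  (Club.diag h).mono fun _ _ _ h i => h i in_ℕ

theorem Club.and {C C' : Set K → Ω → Prop} (h : Club C) (h' : Club C') :
    Club fun A θ => C A θ ∧ C' A θ := by
  have := Club.forall_nat (C := fun n => if n = 0 then C else C') (fun n => by
    by_cases hn : n = 0
    · simpa [hn] using h
    · simpa [hn] using h')
  exact this.mono fun A θ _ h => ⟨by simpa using h 0, by simpa using h 1⟩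

theorem Club.const {A₀ : Set K} (hA₀ : A₀.Countable) (θ₀ : Ω) :
    Club fun A θ => A₀ ⊆ A ∧ θ₀ < θ :=
  ⟨⟨ℕ, fun _ => A₀, fun _ => θ₀, fun _ => hA₀⟩, fun _ _ _ h => h 0 in_ℕ⟩

variable [WellFoundedLT Ω] (hc : ∀ θ : Ω, (Set.Iio θ).Countable) (hu : ¬ (Set.univ : Set Ω).Countable)

include hc hu

omit [WellFoundedLT Ω] in
theorem exists_bound {S : Set Ω} (hS : S.Countable) : ∃ θ, ∀ x ∈ S, x < θ := by
  by_contra hcon
  push Not at hcon
  apply hu
  have : (Set.univ : Set Ω) ⊆ ⋃ x ∈ S, insert x (Set.Iio x) := by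
    intro θ _
    obtain ⟨x, hx, h⟩ := hcon θ
    simp only [Set.mem_iUnion]
    refine ⟨x, hx, ?_⟩
    rcases h.lt_or_eq with h | h
    · exact Or.inr h
    · exact Or.inl h
  exact (hS.biUnion fun x _ => (hc x).insert x).mono this

theorem exists_sup (t : ℕ → Ω) (ht : StrictMono t) : ∃ θ, ∀ x, x < θ ↔ ∃ n, x < t n := by
  obtain ⟨θ, hθ⟩ := exists_bound hc hu (Set.countable_range t)
  let S : Set Ω := {θ | ∀ n, t n < θ}
  have hS : S.Nonempty := ⟨θ, fun n => hθ _ ⟨n, rfl⟩⟩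
  have hwf : WellFounded (· < · : Ω → Ω → Prop) := wellFounded_lt
  refine ⟨hwf.min S hS, fun x => ⟨fun h => ?_, ?_⟩⟩
  · by_contra hcon
    push Not at hcon
    refine hwf.not_lt_min S (x := x) ?_ h
    intro n
    exact (ht (Nat.lt_succ_self n)).trans_le (hcon (n + 1))
  · rintro ⟨n, hn⟩
    exact hn.trans (hwf.min_mem S hS n)

omit hc hu [LinearOrder Ω] [WellFoundedLT Ω] in
theorem fin_sup {α : Type} {P : ℕ → α → Prop} (hP : ∀ m n, m ≤ n → ∀ x, P m x → P n x)
    (s : Finset α) (h : ∀ x ∈ s, ∃ n, P n x) : ∃ n, ∀ x ∈ s, P n x := by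
  classical
  induction s using Finset.induction_on with
  | empty => exact ⟨0, by simp⟩
  | insert a s _ ih =>
    obtain ⟨n, hn⟩ := ih fun x hx => h x (Finset.mem_insert_of_mem hx)
    obtain ⟨m, hm⟩ := h a (Finset.mem_insert_self a s)
    refine ⟨max n m, fun x hx => ?_⟩
    rcases Finset.mem_insert.1 hx with rfl | hx
    · exact hP _ _ (le_max_right n m) _ hm
    · exact hP _ _ (le_max_left n m) _ (hn x hx)

/-- Every club is nonempty. -/
theorem Club.nonempty {C : Set K → Ω → Prop} (h : Club C) : ∃ A θ, A.Countable ∧ C A θ := by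
  classical
  obtain ⟨F, hF⟩ := h
  have hne : Nonempty Ω := by
    by_contra hcon
    rw [not_nonempty_iff] at hcon
    exact hu (Set.to_countable _)
  obtain ⟨θ₀⟩ := hne
  -- one step
  have step : ∀ z : {z : Set K × Ω // z.1.Countable}, ∃ z' : {z : Set K × Ω // z.1.Countable},
      z.1.1 ⊆ z'.1.1 ∧ z.1.2 < z'.1.2 ∧ ∀ d : F.D, In z.1.1 z.1.2 d →
        F.f₁ d ⊆ z'.1.1 ∧ F.f₂ d < z'.1.2 := by
    rintro ⟨⟨A, θ⟩, hA⟩
    have hcnt : {d : F.D | In A θ d}.Countable := Small.cnt A hA θ (hc θ)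
    obtain ⟨θ', hθ'⟩ := exists_bound hc hu ((hcnt.image F.f₂).insert θ)
    refine ⟨⟨⟨A ∪ ⋃ d ∈ {d : F.D | In A θ d}, F.f₁ d, θ'⟩,
      hA.union (hcnt.biUnion fun d _ => F.hf₁ d)⟩, Set.subset_union_left, hθ' _ (Or.inl rfl), ?_⟩
    intro d hd
    refine ⟨?_, hθ' _ (Or.inr ⟨d, hd, rfl⟩)⟩
    intro k hk
    right
    simp only [Set.mem_iUnion]
    exact ⟨d, hd, hk⟩
  choose g hg1 hg2 hg3 using step
  let z : ℕ → {z : Set K × Ω // z.1.Countable} := fun n => g^[n] ⟨⟨∅, θ₀⟩, Set.countable_empty⟩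
  have hz : ∀ n, z (n + 1) = g (z n) := fun n => Function.iterate_succ_apply' _ _ _
  have hmA : Monotone fun n => (z n).1.1 := monotone_nat_of_le_succ fun n => by
    rw [hz]; exact hg1 _
  have hmt : StrictMono fun n => (z n).1.2 := strictMono_nat_of_lt_succ fun n => by
    rw [hz]; exact hg2 _
  obtain ⟨θ, hθ⟩ := exists_sup hc hu _ hmt
  refine ⟨⋃ n, (z n).1.1, θ, Set.countable_iUnion fun n => (z n).2, hF _ _
    (Set.countable_iUnion fun n => (z n).2) ?_⟩
  rintro d ⟨h1, h2⟩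
  have key1 : ∃ n, ↑(Small.s₁ Ω d : Finset K) ⊆ (z n).1.1 := by
    refine fin_sup (P := fun n x => x ∈ (z n).1.1) (fun m n h x hx => hmA h hx) _ ?_
    intro x hx
    simpa using h1 hx
  have key2 : ∃ n, ∀ x ∈ (Small.s₂ K d : Finset Ω), x < (z n).1.2 := by
    refine fin_sup (P := fun n x => x < (z n).1.2)
      (fun m n h x hx => lt_of_lt_of_le hx (hmt.monotone h)) _ ?_
    intro x hx
    exact (hθ x).1 (h2 x hx)
  obtain ⟨n, hn⟩ := key1
  obtain ⟨m, hm⟩ := key2
  have hin : In (z (max n m)).1.1 (z (max n m)).1.2 d :=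
    ⟨hn.trans (hmA (le_max_left n m)), fun x hx =>
      (hm x hx).trans_le (hmt.monotone (le_max_right n m))⟩
  have h3 := hg3 _ d hin
  rw [← hz] at h3
  exact ⟨h3.1.trans (Set.subset_iUnion (fun n => (z n).1.1) _), (hθ _).2 ⟨_, h3.2⟩⟩

end

end Pool.Agent.Lib_helper27.H
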