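import Pool.Agent.Lib_helper27.H.Reg
import Pool.Agent.Lib_helper27.V.Link

/-!
# The model
-/

set_option linter.unusedSectionVars false
set_option linter.unusedTactic false
set_option linter.unreachableTactic false

namespace Pool.Agent.Lib_helper27.H

open Fml V

section rel

variable {P : Type} [Preorder P] {p : P} {w w' W W' E E' N N' a a' b b' c c' : Name P}

theorem rl_adj (h1 : feq E E' p) (h2 : feq a a' p) (h3 : feq b b' p) :
    Fml.Rel (fun a b => feq a b p) (adj E a b) (adj E' a' b') := by
  unfold adj
  repeat' first
    | assumption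
    | exact feq_refl _ _
    | with_reducible refine Fml.Rel.isUPair (fun x => feq_refl x _) ?_ ?_ ?_
    | with_reducible refine Fml.Rel.isOPair (fun x => feq_refl x _) ?_ ?_ ?_
    | with_reducible refine Fml.Rel.app (fun x => feq_refl x _) ?_ ?_ ?_
    | with_reducible refine Fml.Rel.isFunc (fun x => feq_refl x _) ?_ ?_ ?_
    | with_reducible refine Fml.Rel.isInj (fun x => feq_refl x _) ?_ ?_ ?_
    | with_reducible refine Fml.Rel.isBij (fun x => feq_refl x _) ?_ ?_ ?_
    | with_reducible refine Fml.Rel.isHartogs (fun x => feq_refl x _) ?_ ?_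
    | with_reducible refine Fml.Rel.isSubset (fun x => feq_refl x _) ?_ ?_
    | with_reducible refine Fml.Rel.isOrd (fun x => feq_refl x _) ?_
    | with_reducible refine Fml.Rel.isOmega (fun x => feq_refl x _) ?_
    | with_reducible refine Fml.Rel.ball (fun x => feq_refl x _) ?_ (fun _ => ?_)
    | with_reducible refine Fml.Rel.bex (fun x => feq_refl x _) ?_ (fun _ => ?_)
    | with_reducible refine Fml.Rel.iff ?_ ?_
    | with_reducible refine Fml.Rel.imp ?_ ?_
    | with_reducible refine Fml.Rel.or ?_ ?_
    | with_reducible refine Fml.Rel.ex (fun _ => ?_)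
    | with_reducible refine Fml.Rel.and ?_ ?_
    | with_reducible refine Fml.Rel.neg ?_
    | with_reducible refine Fml.Rel.all (fun _ => ?_)
    | with_reducible refine Fml.Rel.mem ?_ ?_
    | with_reducible refine Fml.Rel.eq ?_ ?_

theorem rl_graph (h1 : feq W W' p) (h2 : feq E E' p) :
    Fml.Rel (fun a b => feq a b p) (isGraph W E) (isGraph W' E') := by
  unfold isGraph
  repeat' first
    | assumption
    | exact feq_refl _ _
    | with_reducible refine Fml.Rel.isUPair (fun x => feq_refl x _) ?_ ?_ ?_
    | with_reducible refine Fml.Rel.isOPair (fun x => feq_refl x _) ?_ ?_ ?_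
    | with_reducible refine Fml.Rel.app (fun x => feq_refl x _) ?_ ?_ ?_
    | with_reducible refine Fml.Rel.isFunc (fun x => feq_refl x _) ?_ ?_ ?_
    | with_reducible refine Fml.Rel.isInj (fun x => feq_refl x _) ?_ ?_ ?_
    | with_reducible refine Fml.Rel.isBij (fun x => feq_refl x _) ?_ ?_ ?_
    | with_reducible refine Fml.Rel.isHartogs (fun x => feq_refl x _) ?_ ?_
    | with_reducible refine Fml.Rel.isSubset (fun x => feq_refl x _) ?_ ?_
    | with_reducible refine Fml.Rel.isOrd (fun x => feq_refl x _) ?_
    | with_reducible refine Fml.Rel.isOmega (fun x => feq_refl x _) ?_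
    | with_reducible refine Fml.Rel.ball (fun x => feq_refl x _) ?_ (fun _ => ?_)
    | with_reducible refine Fml.Rel.bex (fun x => feq_refl x _) ?_ (fun _ => ?_)
    | with_reducible refine Fml.Rel.iff ?_ ?_
    | with_reducible refine Fml.Rel.imp ?_ ?_
    | with_reducible refine Fml.Rel.or ?_ ?_
    | with_reducible refine Fml.Rel.ex (fun _ => ?_)
    | with_reducible refine Fml.Rel.and ?_ ?_
    | with_reducible refine Fml.Rel.neg ?_
    | with_reducible refine Fml.Rel.all (fun _ => ?_)
    | with_reducible refine Fml.Rel.mem ?_ ?_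
    | with_reducible refine Fml.Rel.eq ?_ ?_

theorem rl_low (h1 : feq E E' p) (h2 : feq a a' p) (h3 : feq N N' p) :
    Fml.Rel (fun a b => feq a b p) (isLowNbr E a N) (isLowNbr E' a' N') := by
  unfold isLowNbr adj
  repeat' first
    | assumption
    | exact feq_refl _ _
    | with_reducible refine Fml.Rel.isUPair (fun x => feq_refl x _) ?_ ?_ ?_
    | with_reducible refine Fml.Rel.isOPair (fun x => feq_refl x _) ?_ ?_ ?_
    | with_reducible refine Fml.Rel.app (fun x => feq_refl x _) ?_ ?_ ?_
    | with_reducible refine Fml.Rel.isFunc (fun x => feq_refl x _) ?_ ?_ ?_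
    | with_reducible refine Fml.Rel.isInj (fun x => feq_refl x _) ?_ ?_ ?_
    | with_reducible refine Fml.Rel.isBij (fun x => feq_refl x _) ?_ ?_ ?_
    | with_reducible refine Fml.Rel.isHartogs (fun x => feq_refl x _) ?_ ?_
    | with_reducible refine Fml.Rel.isSubset (fun x => feq_refl x _) ?_ ?_
    | with_reducible refine Fml.Rel.isOrd (fun x => feq_refl x _) ?_
    | with_reducible refine Fml.Rel.isOmega (fun x => feq_refl x _) ?_
    | with_reducible refine Fml.Rel.ball (fun x => feq_refl x _) ?_ (fun _ => ?_)
    | with_reducible refine Fml.Rel.bex (fun x => feq_refl x _) ?_ (fun _ => ?_)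
    | with_reducible refine Fml.Rel.iff ?_ ?_
    | with_reducible refine Fml.Rel.imp ?_ ?_
    | with_reducible refine Fml.Rel.or ?_ ?_
    | with_reducible refine Fml.Rel.ex (fun _ => ?_)
    | with_reducible refine Fml.Rel.and ?_ ?_
    | with_reducible refine Fml.Rel.neg ?_
    | with_reducible refine Fml.Rel.all (fun _ => ?_)
    | with_reducible refine Fml.Rel.mem ?_ ?_
    | with_reducible refine Fml.Rel.eq ?_ ?_

theorem rl_fin (h1 : feq w w' p) (h2 : feq N N' p) :
    Fml.Rel (fun a b => feq a b p) (isFin w N) (isFin w' N') := by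
  unfold isFin
  repeat' first
    | assumption
    | exact feq_refl _ _
    | with_reducible refine Fml.Rel.isUPair (fun x => feq_refl x _) ?_ ?_ ?_
    | with_reducible refine Fml.Rel.isOPair (fun x => feq_refl x _) ?_ ?_ ?_
    | with_reducible refine Fml.Rel.app (fun x => feq_refl x _) ?_ ?_ ?_
    | with_reducible refine Fml.Rel.isFunc (fun x => feq_refl x _) ?_ ?_ ?_
    | with_reducible refine Fml.Rel.isInj (fun x => feq_refl x _) ?_ ?_ ?_
    | with_reducible refine Fml.Rel.isBij (fun x => feq_refl x _) ?_ ?_ ?_
    | with_reducible refine Fml.Rel.isHartogs (fun x => feq_refl x _) ?_ ?_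
    | with_reducible refine Fml.Rel.isSubset (fun x => feq_refl x _) ?_ ?_
    | with_reducible refine Fml.Rel.isOrd (fun x => feq_refl x _) ?_
    | with_reducible refine Fml.Rel.isOmega (fun x => feq_refl x _) ?_
    | with_reducible refine Fml.Rel.ball (fun x => feq_refl x _) ?_ (fun _ => ?_)
    | with_reducible refine Fml.Rel.bex (fun x => feq_refl x _) ?_ (fun _ => ?_)
    | with_reducible refine Fml.Rel.iff ?_ ?_
    | with_reducible refine Fml.Rel.imp ?_ ?_
    | with_reducible refine Fml.Rel.or ?_ ?_
    | with_reducible refine Fml.Rel.ex (fun _ => ?_)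
    | with_reducible refine Fml.Rel.and ?_ ?_
    | with_reducible refine Fml.Rel.neg ?_
    | with_reducible refine Fml.Rel.all (fun _ => ?_)
    | with_reducible refine Fml.Rel.mem ?_ ?_
    | with_reducible refine Fml.Rel.eq ?_ ?_

theorem rl_type (h1 : feq w w' p) (h2 : feq N N' p) :
    Fml.Rel (fun a b => feq a b p) (isTypeOmega w N) (isTypeOmega w' N') := by
  unfold isTypeOmega
  repeat' first
    | assumption
    | exact feq_refl _ _
    | with_reducible refine Fml.Rel.isUPair (fun x => feq_refl x _) ?_ ?_ ?_
    | with_reducible refine Fml.Rel.isOPair (fun x => feq_refl x _) ?_ ?_ ?_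
    | with_reducible refine Fml.Rel.app (fun x => feq_refl x _) ?_ ?_ ?_
    | with_reducible refine Fml.Rel.isFunc (fun x => feq_refl x _) ?_ ?_ ?_
    | with_reducible refine Fml.Rel.isInj (fun x => feq_refl x _) ?_ ?_ ?_
    | with_reducible refine Fml.Rel.isBij (fun x => feq_refl x _) ?_ ?_ ?_
    | with_reducible refine Fml.Rel.isHartogs (fun x => feq_refl x _) ?_ ?_
    | with_reducible refine Fml.Rel.isSubset (fun x => feq_refl x _) ?_ ?_
    | with_reducible refine Fml.Rel.isOrd (fun x => feq_refl x _) ?_
    | with_reducible refine Fml.Rel.isOmega (fun x => feq_refl x _) ?_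
    | with_reducible refine Fml.Rel.ball (fun x => feq_refl x _) ?_ (fun _ => ?_)
    | with_reducible refine Fml.Rel.bex (fun x => feq_refl x _) ?_ (fun _ => ?_)
    | with_reducible refine Fml.Rel.iff ?_ ?_
    | with_reducible refine Fml.Rel.imp ?_ ?_
    | with_reducible refine Fml.Rel.or ?_ ?_
    | with_reducible refine Fml.Rel.ex (fun _ => ?_)
    | with_reducible refine Fml.Rel.and ?_ ?_
    | with_reducible refine Fml.Rel.neg ?_
    | with_reducible refine Fml.Rel.all (fun _ => ?_)
    | with_reducible refine Fml.Rel.mem ?_ ?_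
    | with_reducible refine Fml.Rel.eq ?_ ?_

theorem rl_cof (h1 : feq a a' p) (h2 : feq N N' p) :
    Fml.Rel (fun a b => feq a b p) (isCofinal a N) (isCofinal a' N') := by
  unfold isCofinal
  repeat' first
    | assumption
    | exact feq_refl _ _
    | with_reducible refine Fml.Rel.isUPair (fun x => feq_refl x _) ?_ ?_ ?_
    | with_reducible refine Fml.Rel.isOPair (fun x => feq_refl x _) ?_ ?_ ?_
    | with_reducible refine Fml.Rel.app (fun x => feq_refl x _) ?_ ?_ ?_
    | with_reducible refine Fml.Rel.isFunc (fun x => feq_refl x _) ?_ ?_ ?_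
    | with_reducible refine Fml.Rel.isInj (fun x => feq_refl x _) ?_ ?_ ?_
    | with_reducible refine Fml.Rel.isBij (fun x => feq_refl x _) ?_ ?_ ?_
    | with_reducible refine Fml.Rel.isHartogs (fun x => feq_refl x _) ?_ ?_
    | with_reducible refine Fml.Rel.isSubset (fun x => feq_refl x _) ?_ ?_
    | with_reducible refine Fml.Rel.isOrd (fun x => feq_refl x _) ?_
    | with_reducible refine Fml.Rel.isOmega (fun x => feq_refl x _) ?_
    | with_reducible refine Fml.Rel.ball (fun x => feq_refl x _) ?_ (fun _ => ?_)
    | with_reducible refine Fml.Rel.bex (fun x => feq_refl x _) ?_ (fun _ => ?_)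
    | with_reducible refine Fml.Rel.iff ?_ ?_
    | with_reducible refine Fml.Rel.imp ?_ ?_
    | with_reducible refine Fml.Rel.or ?_ ?_
    | with_reducible refine Fml.Rel.ex (fun _ => ?_)
    | with_reducible refine Fml.Rel.and ?_ ?_
    | with_reducible refine Fml.Rel.neg ?_
    | with_reducible refine Fml.Rel.all (fun _ => ?_)
    | with_reducible refine Fml.Rel.mem ?_ ?_
    | with_reducible refine Fml.Rel.eq ?_ ?_

theorem rl_proper (h1 : feq E E' p) (h2 : feq c c' p) :
    Fml.Rel (fun a b => feq a b p) (isProper E c) (isProper E' c') := by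
  unfold isProper adj
  repeat' first
    | assumption
    | exact feq_refl _ _
    | with_reducible refine Fml.Rel.isUPair (fun x => feq_refl x _) ?_ ?_ ?_
    | with_reducible refine Fml.Rel.isOPair (fun x => feq_refl x _) ?_ ?_ ?_
    | with_reducible refine Fml.Rel.app (fun x => feq_refl x _) ?_ ?_ ?_
    | with_reducible refine Fml.Rel.isFunc (fun x => feq_refl x _) ?_ ?_ ?_
    | with_reducible refine Fml.Rel.isInj (fun x => feq_refl x _) ?_ ?_ ?_
    | with_reducible refine Fml.Rel.isBij (fun x => feq_refl x _) ?_ ?_ ?_
    | with_reducible refine Fml.Rel.isHartogs (fun x => feq_refl x _) ?_ ?_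
    | with_reducible refine Fml.Rel.isSubset (fun x => feq_refl x _) ?_ ?_
    | with_reducible refine Fml.Rel.isOrd (fun x => feq_refl x _) ?_
    | with_reducible refine Fml.Rel.isOmega (fun x => feq_refl x _) ?_
    | with_reducible refine Fml.Rel.ball (fun x => feq_refl x _) ?_ (fun _ => ?_)
    | with_reducible refine Fml.Rel.bex (fun x => feq_refl x _) ?_ (fun _ => ?_)
    | with_reducible refine Fml.Rel.iff ?_ ?_
    | with_reducible refine Fml.Rel.imp ?_ ?_
    | with_reducible refine Fml.Rel.or ?_ ?_
    | with_reducible refine Fml.Rel.ex (fun _ => ?_)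
    | with_reducible refine Fml.Rel.and ?_ ?_
    | with_reducible refine Fml.Rel.neg ?_
    | with_reducible refine Fml.Rel.all (fun _ => ?_)
    | with_reducible refine Fml.Rel.mem ?_ ?_
    | with_reducible refine Fml.Rel.eq ?_ ?_

theorem rl_hm (h1 : feq w w' p) (h2 : feq W W' p) (h3 : feq E E' p) :
    Fml.Rel (fun a b => feq a b p) (isHM w W E) (isHM w' W' E') := by
  unfold isHM
  refine .and (rl_graph h2 h3) (.and ?_ (.neg (.ex fun c => .and ?_ (rl_proper h3 (feq_refl _ _)))))
  · refine .ball (fun x => feq_refl x _) h2 fun a => .all fun N => .imp (rl_low h3 (feq_refl _ _)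
      (feq_refl _ _)) (.or (rl_fin h1 (feq_refl _ _)) (.and (rl_type h1 (feq_refl _ _))
      (rl_cof (feq_refl _ _) (feq_refl _ _))))
  · repeat' first
      | assumption
      | exact feq_refl _ _
      | with_reducible refine Fml.Rel.isUPair (fun x => feq_refl x _) ?_ ?_ ?_
      | with_reducible refine Fml.Rel.isOPair (fun x => feq_refl x _) ?_ ?_ ?_
      | with_reducible refine Fml.Rel.app (fun x => feq_refl x _) ?_ ?_ ?_
      | with_reducible refine Fml.Rel.isFunc (fun x => feq_refl x _) ?_ ?_ ?_
      | with_reducible refine Fml.Rel.isInj (fun x => feq_refl x _) ?_ ?_ ?_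
      | with_reducible refine Fml.Rel.isBij (fun x => feq_refl x _) ?_ ?_ ?_
      | with_reducible refine Fml.Rel.isHartogs (fun x => feq_refl x _) ?_ ?_
      | with_reducible refine Fml.Rel.isSubset (fun x => feq_refl x _) ?_ ?_
      | with_reducible refine Fml.Rel.isOrd (fun x => feq_refl x _) ?_
      | with_reducible refine Fml.Rel.isOmega (fun x => feq_refl x _) ?_
      | with_reducible refine Fml.Rel.ball (fun x => feq_refl x _) ?_ (fun _ => ?_)
      | with_reducible refine Fml.Rel.bex (fun x => feq_refl x _) ?_ (fun _ => ?_)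
      | with_reducible refine Fml.Rel.iff ?_ ?_
      | with_reducible refine Fml.Rel.imp ?_ ?_
      | with_reducible refine Fml.Rel.or ?_ ?_
      | with_reducible refine Fml.Rel.ex (fun _ => ?_)
      | with_reducible refine Fml.Rel.and ?_ ?_
      | with_reducible refine Fml.Rel.neg ?_
      | with_reducible refine Fml.Rel.all (fun _ => ?_)
      | with_reducible refine Fml.Rel.mem ?_ ?_
      | with_reducible refine Fml.Rel.eq ?_ ?_

theorem rl_limit (h1 : feq a a' p) : Fml.Rel (fun a b => feq a b p) (isLimit a) (isLimit a') := by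
  unfold isLimit
  repeat' first
    | assumption
    | exact feq_refl _ _
    | with_reducible refine Fml.Rel.isUPair (fun x => feq_refl x _) ?_ ?_ ?_
    | with_reducible refine Fml.Rel.isOPair (fun x => feq_refl x _) ?_ ?_ ?_
    | with_reducible refine Fml.Rel.app (fun x => feq_refl x _) ?_ ?_ ?_
    | with_reducible refine Fml.Rel.isFunc (fun x => feq_refl x _) ?_ ?_ ?_
    | with_reducible refine Fml.Rel.isInj (fun x => feq_refl x _) ?_ ?_ ?_
    | with_reducible refine Fml.Rel.isBij (fun x => feq_refl x _) ?_ ?_ ?_
    | with_reducible refine Fml.Rel.isHartogs (fun x => feq_refl x _) ?_ ?_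
    | with_reducible refine Fml.Rel.isSubset (fun x => feq_refl x _) ?_ ?_
    | with_reducible refine Fml.Rel.isOrd (fun x => feq_refl x _) ?_
    | with_reducible refine Fml.Rel.isOmega (fun x => feq_refl x _) ?_
    | with_reducible refine Fml.Rel.ball (fun x => feq_refl x _) ?_ (fun _ => ?_)
    | with_reducible refine Fml.Rel.bex (fun x => feq_refl x _) ?_ (fun _ => ?_)
    | with_reducible refine Fml.Rel.iff ?_ ?_
    | with_reducible refine Fml.Rel.imp ?_ ?_
    | with_reducible refine Fml.Rel.or ?_ ?_
    | with_reducible refine Fml.Rel.ex (fun _ => ?_)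
    | with_reducible refine Fml.Rel.and ?_ ?_
    | with_reducible refine Fml.Rel.neg ?_
    | with_reducible refine Fml.Rel.all (fun _ => ?_)
    | with_reducible refine Fml.Rel.mem ?_ ?_
    | with_reducible refine Fml.Rel.eq ?_ ?_

theorem rl_regressive (h1 : feq W W' p) (h2 : feq c c' p) :
    Fml.Rel (fun a b => feq a b p) (isRegressive W c) (isRegressive W' c') := by
  unfold isRegressive isLimit
  repeat' first
    | assumption
    | exact feq_refl _ _
    | with_reducible refine Fml.Rel.isUPair (fun x => feq_refl x _) ?_ ?_ ?_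
    | with_reducible refine Fml.Rel.isOPair (fun x => feq_refl x _) ?_ ?_ ?_
    | with_reducible refine Fml.Rel.app (fun x => feq_refl x _) ?_ ?_ ?_
    | with_reducible refine Fml.Rel.isFunc (fun x => feq_refl x _) ?_ ?_ ?_
    | with_reducible refine Fml.Rel.isInj (fun x => feq_refl x _) ?_ ?_ ?_
    | with_reducible refine Fml.Rel.isBij (fun x => feq_refl x _) ?_ ?_ ?_
    | with_reducible refine Fml.Rel.isHartogs (fun x => feq_refl x _) ?_ ?_
    | with_reducible refine Fml.Rel.isSubset (fun x => feq_refl x _) ?_ ?_
    | with_reducible refine Fml.Rel.isOrd (fun x => feq_refl x _) ?_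
    | with_reducible refine Fml.Rel.isOmega (fun x => feq_refl x _) ?_
    | with_reducible refine Fml.Rel.ball (fun x => feq_refl x _) ?_ (fun _ => ?_)
    | with_reducible refine Fml.Rel.bex (fun x => feq_refl x _) ?_ (fun _ => ?_)
    | with_reducible refine Fml.Rel.iff ?_ ?_
    | with_reducible refine Fml.Rel.imp ?_ ?_
    | with_reducible refine Fml.Rel.or ?_ ?_
    | with_reducible refine Fml.Rel.ex (fun _ => ?_)
    | with_reducible refine Fml.Rel.and ?_ ?_
    | with_reducible refine Fml.Rel.neg ?_
    | with_reducible refine Fml.Rel.all (fun _ => ?_)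
    | with_reducible refine Fml.Rel.mem ?_ ?_
    | with_reducible refine Fml.Rel.eq ?_ ?_

theorem rl_regHM (h1 : feq w w' p) (h2 : feq W W' p) (h3 : feq E E' p) :
    Fml.Rel (fun a b => feq a b p) (isRegHM w W E) (isRegHM w' W' E') := by
  unfold isRegHM
  refine .and (rl_hm h1 h2 h3) (.neg (.ex fun c => .and ?_ (.and (rl_proper h3 (feq_refl _ _))
    (rl_regressive h2 (feq_refl _ _)))))
  repeat' first
    | assumption
    | exact feq_refl _ _
    | with_reducible refine Fml.Rel.isUPair (fun x => feq_refl x _) ?_ ?_ ?_
    | with_reducible refine Fml.Rel.isOPair (fun x => feq_refl x _) ?_ ?_ ?_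
    | with_reducible refine Fml.Rel.app (fun x => feq_refl x _) ?_ ?_ ?_
    | with_reducible refine Fml.Rel.isFunc (fun x => feq_refl x _) ?_ ?_ ?_
    | with_reducible refine Fml.Rel.isInj (fun x => feq_refl x _) ?_ ?_ ?_
    | with_reducible refine Fml.Rel.isBij (fun x => feq_refl x _) ?_ ?_ ?_
    | with_reducible refine Fml.Rel.isHartogs (fun x => feq_refl x _) ?_ ?_
    | with_reducible refine Fml.Rel.isSubset (fun x => feq_refl x _) ?_ ?_
    | with_reducible refine Fml.Rel.isOrd (fun x => feq_refl x _) ?_
    | with_reducible refine Fml.Rel.isOmega (fun x => feq_refl x _) ?_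
    | with_reducible refine Fml.Rel.ball (fun x => feq_refl x _) ?_ (fun _ => ?_)
    | with_reducible refine Fml.Rel.bex (fun x => feq_refl x _) ?_ (fun _ => ?_)
    | with_reducible refine Fml.Rel.iff ?_ ?_
    | with_reducible refine Fml.Rel.imp ?_ ?_
    | with_reducible refine Fml.Rel.or ?_ ?_
    | with_reducible refine Fml.Rel.ex (fun _ => ?_)
    | with_reducible refine Fml.Rel.and ?_ ?_
    | with_reducible refine Fml.Rel.neg ?_
    | with_reducible refine Fml.Rel.all (fun _ => ?_)
    | with_reducible refine Fml.Rel.mem ?_ ?_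
    | with_reducible refine Fml.Rel.eq ?_ ?_

end rel

section

variable {P : Type} [Preorder P] [Nonempty P]

theorem lk_adj (E a b : Name P) : Lk (adj (π E) (π a) (π b)) (adj E a b) := by
  unfold adj
  repeat' first
    | with_reducible exact Lk.app _ _ _
    | with_reducible exact Lk.isFunc _ _ _
    | with_reducible exact Lk.isInj _ _ _
    | with_reducible exact Lk.isBij _ _ _
    | with_reducible exact Lk.isOPair _ _ _
    | with_reducible exact Lk.isUPair _ _ _
    | with_reducible exact Lk.isSubset _ _
    | with_reducible exact Lk.isOrd _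
    | with_reducible exact Lk.isOmega _
    | with_reducible exact Lk.mem _ _
    | with_reducible exact Lk.eq _ _
    | with_reducible refine Lk.ball (fun _ => ?_) ?_
    | with_reducible refine Lk.bex (fun _ => ?_) ?_
    | with_reducible refine Lk.iff ?_ ?_
    | with_reducible refine Lk.imp ?_ ?_
    | with_reducible refine Lk.or ?_ ?_
    | with_reducible refine Lk.ex (fun _ => ?_) ?_
    | with_reducible refine Lk.and ?_ ?_
    | with_reducible refine Lk.neg ?_
    | with_reducible refine Lk.all (fun _ => ?_) ?_
  all_goals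
    intro _ _ _ _
    repeat' first
      | assumption
      | exact feq_refl _ _
      | with_reducible refine Fml.Rel.isUPair (fun x => feq_refl x _) ?_ ?_ ?_
      | with_reducible refine Fml.Rel.isOPair (fun x => feq_refl x _) ?_ ?_ ?_
      | with_reducible refine Fml.Rel.app (fun x => feq_refl x _) ?_ ?_ ?_
      | with_reducible refine Fml.Rel.isFunc (fun x => feq_refl x _) ?_ ?_ ?_
      | with_reducible refine Fml.Rel.isInj (fun x => feq_refl x _) ?_ ?_ ?_
      | with_reducible refine Fml.Rel.isBij (fun x => feq_refl x _) ?_ ?_ ?_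
      | with_reducible refine Fml.Rel.isHartogs (fun x => feq_refl x _) ?_ ?_
      | with_reducible refine Fml.Rel.isSubset (fun x => feq_refl x _) ?_ ?_
      | with_reducible refine Fml.Rel.isOrd (fun x => feq_refl x _) ?_
      | with_reducible refine Fml.Rel.isOmega (fun x => feq_refl x _) ?_
      | with_reducible refine Fml.Rel.ball (fun x => feq_refl x _) ?_ (fun _ => ?_)
      | with_reducible refine Fml.Rel.bex (fun x => feq_refl x _) ?_ (fun _ => ?_)
      | with_reducible refine Fml.Rel.iff ?_ ?_
      | with_reducible refine Fml.Rel.imp ?_ ?_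
      | with_reducible refine Fml.Rel.or ?_ ?_
      | with_reducible refine Fml.Rel.ex (fun _ => ?_)
      | with_reducible refine Fml.Rel.and ?_ ?_
      | with_reducible refine Fml.Rel.neg ?_
      | with_reducible refine Fml.Rel.all (fun _ => ?_)
      | with_reducible refine Fml.Rel.mem ?_ ?_
      | with_reducible refine Fml.Rel.eq ?_ ?_

theorem lk_graph (W E : Name P) : Lk (isGraph (π W) (π E)) (isGraph W E) := by
  unfold isGraph
  repeat' first
    | with_reducible exact Lk.app _ _ _
    | with_reducible exact Lk.isFunc _ _ _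
    | with_reducible exact Lk.isInj _ _ _
    | with_reducible exact Lk.isBij _ _ _
    | with_reducible exact Lk.isOPair _ _ _
    | with_reducible exact Lk.isUPair _ _ _
    | with_reducible exact Lk.isSubset _ _
    | with_reducible exact Lk.isOrd _
    | with_reducible exact Lk.isOmega _
    | with_reducible exact Lk.mem _ _
    | with_reducible exact Lk.eq _ _
    | with_reducible refine Lk.ball (fun _ => ?_) ?_
    | with_reducible refine Lk.bex (fun _ => ?_) ?_
    | with_reducible refine Lk.iff ?_ ?_
    | with_reducible refine Lk.imp ?_ ?_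
    | with_reducible refine Lk.or ?_ ?_
    | with_reducible refine Lk.ex (fun _ => ?_) ?_
    | with_reducible refine Lk.and ?_ ?_
    | with_reducible refine Lk.neg ?_
    | with_reducible refine Lk.all (fun _ => ?_) ?_
  all_goals
    intro _ _ _ _
    repeat' first
      | assumption
      | exact feq_refl _ _
      | with_reducible refine Fml.Rel.isUPair (fun x => feq_refl x _) ?_ ?_ ?_
      | with_reducible refine Fml.Rel.isOPair (fun x => feq_refl x _) ?_ ?_ ?_
      | with_reducible refine Fml.Rel.app (fun x => feq_refl x _) ?_ ?_ ?_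
      | with_reducible refine Fml.Rel.isFunc (fun x => feq_refl x _) ?_ ?_ ?_
      | with_reducible refine Fml.Rel.isInj (fun x => feq_refl x _) ?_ ?_ ?_
      | with_reducible refine Fml.Rel.isBij (fun x => feq_refl x _) ?_ ?_ ?_
      | with_reducible refine Fml.Rel.isHartogs (fun x => feq_refl x _) ?_ ?_
      | with_reducible refine Fml.Rel.isSubset (fun x => feq_refl x _) ?_ ?_
      | with_reducible refine Fml.Rel.isOrd (fun x => feq_refl x _) ?_
      | with_reducible refine Fml.Rel.isOmega (fun x => feq_refl x _) ?_
      | with_reducible refine Fml.Rel.ball (fun x => feq_refl x _) ?_ (fun _ => ?_)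
      | with_reducible refine Fml.Rel.bex (fun x => feq_refl x _) ?_ (fun _ => ?_)
      | with_reducible refine Fml.Rel.iff ?_ ?_
      | with_reducible refine Fml.Rel.imp ?_ ?_
      | with_reducible refine Fml.Rel.or ?_ ?_
      | with_reducible refine Fml.Rel.ex (fun _ => ?_)
      | with_reducible refine Fml.Rel.and ?_ ?_
      | with_reducible refine Fml.Rel.neg ?_
      | with_reducible refine Fml.Rel.all (fun _ => ?_)
      | with_reducible refine Fml.Rel.mem ?_ ?_
      | with_reducible refine Fml.Rel.eq ?_ ?_

theorem lk_low (E a N : Name P) : Lk (isLowNbr (π E) (π a) (π N)) (isLowNbr E a N) := by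
  unfold isLowNbr
  exact Lk.all (fun b => (Lk.mem _ _).iff ((Lk.mem _ _).and (lk_adj _ _ _))) fun p x y h =>
    .iff (.mem h (feq_refl _ _)) (.and (.mem h (feq_refl _ _)) (rl_adj (feq_refl _ _) h (feq_refl _ _)))

theorem lk_fin (w N : Name P) : Lk (isFin (π w) (π N)) (isFin w N) := by
  unfold isFin
  repeat' first
    | with_reducible exact Lk.app _ _ _
    | with_reducible exact Lk.isFunc _ _ _
    | with_reducible exact Lk.isInj _ _ _
    | with_reducible exact Lk.isBij _ _ _
    | with_reducible exact Lk.isOPair _ _ _
    | with_reducible exact Lk.isUPair _ _ _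
    | with_reducible exact Lk.isSubset _ _
    | with_reducible exact Lk.isOrd _
    | with_reducible exact Lk.isOmega _
    | with_reducible exact Lk.mem _ _
    | with_reducible exact Lk.eq _ _
    | with_reducible refine Lk.ball (fun _ => ?_) ?_
    | with_reducible refine Lk.bex (fun _ => ?_) ?_
    | with_reducible refine Lk.iff ?_ ?_
    | with_reducible refine Lk.imp ?_ ?_
    | with_reducible refine Lk.or ?_ ?_
    | with_reducible refine Lk.ex (fun _ => ?_) ?_
    | with_reducible refine Lk.and ?_ ?_
    | with_reducible refine Lk.neg ?_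
    | with_reducible refine Lk.all (fun _ => ?_) ?_
  all_goals
    intro _ _ _ _
    repeat' first
      | assumption
      | exact feq_refl _ _
      | with_reducible refine Fml.Rel.isUPair (fun x => feq_refl x _) ?_ ?_ ?_
      | with_reducible refine Fml.Rel.isOPair (fun x => feq_refl x _) ?_ ?_ ?_
      | with_reducible refine Fml.Rel.app (fun x => feq_refl x _) ?_ ?_ ?_
      | with_reducible refine Fml.Rel.isFunc (fun x => feq_refl x _) ?_ ?_ ?_
      | with_reducible refine Fml.Rel.isInj (fun x => feq_refl x _) ?_ ?_ ?_
      | with_reducible refine Fml.Rel.isBij (fun x => feq_refl x _) ?_ ?_ ?_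
      | with_reducible refine Fml.Rel.isHartogs (fun x => feq_refl x _) ?_ ?_
      | with_reducible refine Fml.Rel.isSubset (fun x => feq_refl x _) ?_ ?_
      | with_reducible refine Fml.Rel.isOrd (fun x => feq_refl x _) ?_
      | with_reducible refine Fml.Rel.isOmega (fun x => feq_refl x _) ?_
      | with_reducible refine Fml.Rel.ball (fun x => feq_refl x _) ?_ (fun _ => ?_)
      | with_reducible refine Fml.Rel.bex (fun x => feq_refl x _) ?_ (fun _ => ?_)
      | with_reducible refine Fml.Rel.iff ?_ ?_
      | with_reducible refine Fml.Rel.imp ?_ ?_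
      | with_reducible refine Fml.Rel.or ?_ ?_
      | with_reducible refine Fml.Rel.ex (fun _ => ?_)
      | with_reducible refine Fml.Rel.and ?_ ?_
      | with_reducible refine Fml.Rel.neg ?_
      | with_reducible refine Fml.Rel.all (fun _ => ?_)
      | with_reducible refine Fml.Rel.mem ?_ ?_
      | with_reducible refine Fml.Rel.eq ?_ ?_

theorem lk_type (w N : Name P) : Lk (isTypeOmega (π w) (π N)) (isTypeOmega w N) := by
  unfold isTypeOmega
  repeat' first
    | with_reducible exact Lk.app _ _ _
    | with_reducible exact Lk.isFunc _ _ _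
    | with_reducible exact Lk.isInj _ _ _
    | with_reducible exact Lk.isBij _ _ _
    | with_reducible exact Lk.isOPair _ _ _
    | with_reducible exact Lk.isUPair _ _ _
    | with_reducible exact Lk.isSubset _ _
    | with_reducible exact Lk.isOrd _
    | with_reducible exact Lk.isOmega _
    | with_reducible exact Lk.mem _ _
    | with_reducible exact Lk.eq _ _
    | with_reducible refine Lk.ball (fun _ => ?_) ?_
    | with_reducible refine Lk.bex (fun _ => ?_) ?_
    | with_reducible refine Lk.iff ?_ ?_
    | with_reducible refine Lk.imp ?_ ?_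
    | with_reducible refine Lk.or ?_ ?_
    | with_reducible refine Lk.ex (fun _ => ?_) ?_
    | with_reducible refine Lk.and ?_ ?_
    | with_reducible refine Lk.neg ?_
    | with_reducible refine Lk.all (fun _ => ?_) ?_
  all_goals
    intro _ _ _ _
    repeat' first
      | assumption
      | exact feq_refl _ _
      | with_reducible refine Fml.Rel.isUPair (fun x => feq_refl x _) ?_ ?_ ?_
      | with_reducible refine Fml.Rel.isOPair (fun x => feq_refl x _) ?_ ?_ ?_
      | with_reducible refine Fml.Rel.app (fun x => feq_refl x _) ?_ ?_ ?_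
      | with_reducible refine Fml.Rel.isFunc (fun x => feq_refl x _) ?_ ?_ ?_
      | with_reducible refine Fml.Rel.isInj (fun x => feq_refl x _) ?_ ?_ ?_
      | with_reducible refine Fml.Rel.isBij (fun x => feq_refl x _) ?_ ?_ ?_
      | with_reducible refine Fml.Rel.isHartogs (fun x => feq_refl x _) ?_ ?_
      | with_reducible refine Fml.Rel.isSubset (fun x => feq_refl x _) ?_ ?_
      | with_reducible refine Fml.Rel.isOrd (fun x => feq_refl x _) ?_
      | with_reducible refine Fml.Rel.isOmega (fun x => feq_refl x _) ?_
      | with_reducible refine Fml.Rel.ball (fun x => feq_refl x _) ?_ (fun _ => ?_)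
      | with_reducible refine Fml.Rel.bex (fun x => feq_refl x _) ?_ (fun _ => ?_)
      | with_reducible refine Fml.Rel.iff ?_ ?_
      | with_reducible refine Fml.Rel.imp ?_ ?_
      | with_reducible refine Fml.Rel.or ?_ ?_
      | with_reducible refine Fml.Rel.ex (fun _ => ?_)
      | with_reducible refine Fml.Rel.and ?_ ?_
      | with_reducible refine Fml.Rel.neg ?_
      | with_reducible refine Fml.Rel.all (fun _ => ?_)
      | with_reducible refine Fml.Rel.mem ?_ ?_
      | with_reducible refine Fml.Rel.eq ?_ ?_

theorem lk_cof (a N : Name P) : Lk (isCofinal (π a) (π N)) (isCofinal a N) := by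
  unfold isCofinal
  repeat' first
    | with_reducible exact Lk.app _ _ _
    | with_reducible exact Lk.isFunc _ _ _
    | with_reducible exact Lk.isInj _ _ _
    | with_reducible exact Lk.isBij _ _ _
    | with_reducible exact Lk.isOPair _ _ _
    | with_reducible exact Lk.isUPair _ _ _
    | with_reducible exact Lk.isSubset _ _
    | with_reducible exact Lk.isOrd _
    | with_reducible exact Lk.isOmega _
    | with_reducible exact Lk.mem _ _
    | with_reducible exact Lk.eq _ _
    | with_reducible refine Lk.ball (fun _ => ?_) ?_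
    | with_reducible refine Lk.bex (fun _ => ?_) ?_
    | with_reducible refine Lk.iff ?_ ?_
    | with_reducible refine Lk.imp ?_ ?_
    | with_reducible refine Lk.or ?_ ?_
    | with_reducible refine Lk.ex (fun _ => ?_) ?_
    | with_reducible refine Lk.and ?_ ?_
    | with_reducible refine Lk.neg ?_
    | with_reducible refine Lk.all (fun _ => ?_) ?_
  all_goals
    intro _ _ _ _
    repeat' first
      | assumption
      | exact feq_refl _ _
      | with_reducible refine Fml.Rel.isUPair (fun x => feq_refl x _) ?_ ?_ ?_
      | with_reducible refine Fml.Rel.isOPair (fun x => feq_refl x _) ?_ ?_ ?_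
      | with_reducible refine Fml.Rel.app (fun x => feq_refl x _) ?_ ?_ ?_
      | with_reducible refine Fml.Rel.isFunc (fun x => feq_refl x _) ?_ ?_ ?_
      | with_reducible refine Fml.Rel.isInj (fun x => feq_refl x _) ?_ ?_ ?_
      | with_reducible refine Fml.Rel.isBij (fun x => feq_refl x _) ?_ ?_ ?_
      | with_reducible refine Fml.Rel.isHartogs (fun x => feq_refl x _) ?_ ?_
      | with_reducible refine Fml.Rel.isSubset (fun x => feq_refl x _) ?_ ?_
      | with_reducible refine Fml.Rel.isOrd (fun x => feq_refl x _) ?_
      | with_reducible refine Fml.Rel.isOmega (fun x => feq_refl x _) ?_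
      | with_reducible refine Fml.Rel.ball (fun x => feq_refl x _) ?_ (fun _ => ?_)
      | with_reducible refine Fml.Rel.bex (fun x => feq_refl x _) ?_ (fun _ => ?_)
      | with_reducible refine Fml.Rel.iff ?_ ?_
      | with_reducible refine Fml.Rel.imp ?_ ?_
      | with_reducible refine Fml.Rel.or ?_ ?_
      | with_reducible refine Fml.Rel.ex (fun _ => ?_)
      | with_reducible refine Fml.Rel.and ?_ ?_
      | with_reducible refine Fml.Rel.neg ?_
      | with_reducible refine Fml.Rel.all (fun _ => ?_)
      | with_reducible refine Fml.Rel.mem ?_ ?_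
      | with_reducible refine Fml.Rel.eq ?_ ?_

theorem lk_proper (E c : Name P) : Lk (isProper (π E) (π c)) (isProper E c) := by
  unfold isProper adj
  repeat' first
    | with_reducible exact Lk.app _ _ _
    | with_reducible exact Lk.isFunc _ _ _
    | with_reducible exact Lk.isInj _ _ _
    | with_reducible exact Lk.isBij _ _ _
    | with_reducible exact Lk.isOPair _ _ _
    | with_reducible exact Lk.isUPair _ _ _
    | with_reducible exact Lk.isSubset _ _
    | with_reducible exact Lk.isOrd _
    | with_reducible exact Lk.isOmega _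
    | with_reducible exact Lk.mem _ _
    | with_reducible exact Lk.eq _ _
    | with_reducible refine Lk.ball (fun _ => ?_) ?_
    | with_reducible refine Lk.bex (fun _ => ?_) ?_
    | with_reducible refine Lk.iff ?_ ?_
    | with_reducible refine Lk.imp ?_ ?_
    | with_reducible refine Lk.or ?_ ?_
    | with_reducible refine Lk.ex (fun _ => ?_) ?_
    | with_reducible refine Lk.and ?_ ?_
    | with_reducible refine Lk.neg ?_
    | with_reducible refine Lk.all (fun _ => ?_) ?_
  all_goals
    intro _ _ _ _
    repeat' first
      | assumption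
      | exact feq_refl _ _
      | with_reducible refine Fml.Rel.isUPair (fun x => feq_refl x _) ?_ ?_ ?_
      | with_reducible refine Fml.Rel.isOPair (fun x => feq_refl x _) ?_ ?_ ?_
      | with_reducible refine Fml.Rel.app (fun x => feq_refl x _) ?_ ?_ ?_
      | with_reducible refine Fml.Rel.isFunc (fun x => feq_refl x _) ?_ ?_ ?_
      | with_reducible refine Fml.Rel.isInj (fun x => feq_refl x _) ?_ ?_ ?_
      | with_reducible refine Fml.Rel.isBij (fun x => feq_refl x _) ?_ ?_ ?_
      | with_reducible refine Fml.Rel.isHartogs (fun x => feq_refl x _) ?_ ?_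
      | with_reducible refine Fml.Rel.isSubset (fun x => feq_refl x _) ?_ ?_
      | with_reducible refine Fml.Rel.isOrd (fun x => feq_refl x _) ?_
      | with_reducible refine Fml.Rel.isOmega (fun x => feq_refl x _) ?_
      | with_reducible refine Fml.Rel.ball (fun x => feq_refl x _) ?_ (fun _ => ?_)
      | with_reducible refine Fml.Rel.bex (fun x => feq_refl x _) ?_ (fun _ => ?_)
      | with_reducible refine Fml.Rel.iff ?_ ?_
      | with_reducible refine Fml.Rel.imp ?_ ?_
      | with_reducible refine Fml.Rel.or ?_ ?_
      | with_reducible refine Fml.Rel.ex (fun _ => ?_)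
      | with_reducible refine Fml.Rel.and ?_ ?_
      | with_reducible refine Fml.Rel.neg ?_
      | with_reducible refine Fml.Rel.all (fun _ => ?_)
      | with_reducible refine Fml.Rel.mem ?_ ?_
      | with_reducible refine Fml.Rel.eq ?_ ?_

theorem lk_hmg (w W E : Name P) : Lk (isHM (π w) (π W) (π E)) (isHM w W E) := by
  unfold isHM
  refine (lk_graph W E).and (Lk.and ?_ (Lk.neg ?_))
  · refine Lk.ball (fun a => Lk.all (fun N => (lk_low E a N).imp ((lk_fin w N).or
      ((lk_type w N).and (lk_cof a N)))) ?_) ?_
    · intro p x y h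
      exact .imp (rl_low (feq_refl _ _) (feq_refl _ _) h) (.or (rl_fin (feq_refl _ _) h)
        (.and (rl_type (feq_refl _ _) h) (rl_cof (feq_refl _ _) h)))
    · intro p x y h
      exact .all fun N => .imp (rl_low (feq_refl _ _) h (feq_refl _ _))
        (.or (rl_fin (feq_refl _ _) (feq_refl _ _))
        (.and (rl_type (feq_refl _ _) (feq_refl _ _)) (rl_cof h (feq_refl _ _))))
  · refine Lk.ex (fun c => (Lk.isFunc _ _ _).and (lk_proper E c)) ?_
    intro p x y h
    refine .and ?_ (rl_proper (feq_refl _ _) h)
    repeat' first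
      | assumption
      | exact feq_refl _ _
      | with_reducible refine Fml.Rel.isUPair (fun x => feq_refl x _) ?_ ?_ ?_
      | with_reducible refine Fml.Rel.isOPair (fun x => feq_refl x _) ?_ ?_ ?_
      | with_reducible refine Fml.Rel.app (fun x => feq_refl x _) ?_ ?_ ?_
      | with_reducible refine Fml.Rel.isFunc (fun x => feq_refl x _) ?_ ?_ ?_
      | with_reducible refine Fml.Rel.isInj (fun x => feq_refl x _) ?_ ?_ ?_
      | with_reducible refine Fml.Rel.isBij (fun x => feq_refl x _) ?_ ?_ ?_
      | with_reducible refine Fml.Rel.isHartogs (fun x => feq_refl x _) ?_ ?_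
      | with_reducible refine Fml.Rel.isSubset (fun x => feq_refl x _) ?_ ?_
      | with_reducible refine Fml.Rel.isOrd (fun x => feq_refl x _) ?_
      | with_reducible refine Fml.Rel.isOmega (fun x => feq_refl x _) ?_
      | with_reducible refine Fml.Rel.ball (fun x => feq_refl x _) ?_ (fun _ => ?_)
      | with_reducible refine Fml.Rel.bex (fun x => feq_refl x _) ?_ (fun _ => ?_)
      | with_reducible refine Fml.Rel.iff ?_ ?_
      | with_reducible refine Fml.Rel.imp ?_ ?_
      | with_reducible refine Fml.Rel.or ?_ ?_
      | with_reducible refine Fml.Rel.ex (fun _ => ?_)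
      | with_reducible refine Fml.Rel.and ?_ ?_
      | with_reducible refine Fml.Rel.neg ?_
      | with_reducible refine Fml.Rel.all (fun _ => ?_)
      | with_reducible refine Fml.Rel.mem ?_ ?_
      | with_reducible refine Fml.Rel.eq ?_ ?_

theorem lk_limit (a : Name P) : Lk (isLimit (π a)) (isLimit a) := by
  unfold isLimit
  repeat' first
    | with_reducible exact Lk.app _ _ _
    | with_reducible exact Lk.isFunc _ _ _
    | with_reducible exact Lk.isInj _ _ _
    | with_reducible exact Lk.isBij _ _ _
    | with_reducible exact Lk.isOPair _ _ _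
    | with_reducible exact Lk.isUPair _ _ _
    | with_reducible exact Lk.isSubset _ _
    | with_reducible exact Lk.isOrd _
    | with_reducible exact Lk.isOmega _
    | with_reducible exact Lk.mem _ _
    | with_reducible exact Lk.eq _ _
    | with_reducible refine Lk.ball (fun _ => ?_) ?_
    | with_reducible refine Lk.bex (fun _ => ?_) ?_
    | with_reducible refine Lk.iff ?_ ?_
    | with_reducible refine Lk.imp ?_ ?_
    | with_reducible refine Lk.or ?_ ?_
    | with_reducible refine Lk.ex (fun _ => ?_) ?_
    | with_reducible refine Lk.and ?_ ?_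
    | with_reducible refine Lk.neg ?_
    | with_reducible refine Lk.all (fun _ => ?_) ?_
  all_goals
    intro _ _ _ _
    repeat' first
      | assumption
      | exact feq_refl _ _
      | with_reducible refine Fml.Rel.isUPair (fun x => feq_refl x _) ?_ ?_ ?_
      | with_reducible refine Fml.Rel.isOPair (fun x => feq_refl x _) ?_ ?_ ?_
      | with_reducible refine Fml.Rel.app (fun x => feq_refl x _) ?_ ?_ ?_
      | with_reducible refine Fml.Rel.isFunc (fun x => feq_refl x _) ?_ ?_ ?_
      | with_reducible refine Fml.Rel.isInj (fun x => feq_refl x _) ?_ ?_ ?_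
      | with_reducible refine Fml.Rel.isBij (fun x => feq_refl x _) ?_ ?_ ?_
      | with_reducible refine Fml.Rel.isHartogs (fun x => feq_refl x _) ?_ ?_
      | with_reducible refine Fml.Rel.isSubset (fun x => feq_refl x _) ?_ ?_
      | with_reducible refine Fml.Rel.isOrd (fun x => feq_refl x _) ?_
      | with_reducible refine Fml.Rel.isOmega (fun x => feq_refl x _) ?_
      | with_reducible refine Fml.Rel.ball (fun x => feq_refl x _) ?_ (fun _ => ?_)
      | with_reducible refine Fml.Rel.bex (fun x => feq_refl x _) ?_ (fun _ => ?_)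
      | with_reducible refine Fml.Rel.iff ?_ ?_
      | with_reducible refine Fml.Rel.imp ?_ ?_
      | with_reducible refine Fml.Rel.or ?_ ?_
      | with_reducible refine Fml.Rel.ex (fun _ => ?_)
      | with_reducible refine Fml.Rel.and ?_ ?_
      | with_reducible refine Fml.Rel.neg ?_
      | with_reducible refine Fml.Rel.all (fun _ => ?_)
      | with_reducible refine Fml.Rel.mem ?_ ?_
      | with_reducible refine Fml.Rel.eq ?_ ?_

theorem lk_regressive (W c : Name P) : Lk (isRegressive (π W) (π c)) (isRegressive W c) := by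
  unfold isRegressive isLimit
  repeat' first
    | with_reducible exact Lk.app _ _ _
    | with_reducible exact Lk.isFunc _ _ _
    | with_reducible exact Lk.isInj _ _ _
    | with_reducible exact Lk.isBij _ _ _
    | with_reducible exact Lk.isOPair _ _ _
    | with_reducible exact Lk.isUPair _ _ _
    | with_reducible exact Lk.isSubset _ _
    | with_reducible exact Lk.isOrd _
    | with_reducible exact Lk.isOmega _
    | with_reducible exact Lk.mem _ _
    | with_reducible exact Lk.eq _ _
    | with_reducible refine Lk.ball (fun _ => ?_) ?_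
    | with_reducible refine Lk.bex (fun _ => ?_) ?_
    | with_reducible refine Lk.iff ?_ ?_
    | with_reducible refine Lk.imp ?_ ?_
    | with_reducible refine Lk.or ?_ ?_
    | with_reducible refine Lk.ex (fun _ => ?_) ?_
    | with_reducible refine Lk.and ?_ ?_
    | with_reducible refine Lk.neg ?_
    | with_reducible refine Lk.all (fun _ => ?_) ?_
  all_goals
    intro _ _ _ _
    repeat' first
      | assumption
      | exact feq_refl _ _
      | with_reducible refine Fml.Rel.isUPair (fun x => feq_refl x _) ?_ ?_ ?_
      | with_reducible refine Fml.Rel.isOPair (fun x => feq_refl x _) ?_ ?_ ?_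
      | with_reducible refine Fml.Rel.app (fun x => feq_refl x _) ?_ ?_ ?_
      | with_reducible refine Fml.Rel.isFunc (fun x => feq_refl x _) ?_ ?_ ?_
      | with_reducible refine Fml.Rel.isInj (fun x => feq_refl x _) ?_ ?_ ?_
      | with_reducible refine Fml.Rel.isBij (fun x => feq_refl x _) ?_ ?_ ?_
      | with_reducible refine Fml.Rel.isHartogs (fun x => feq_refl x _) ?_ ?_
      | with_reducible refine Fml.Rel.isSubset (fun x => feq_refl x _) ?_ ?_
      | with_reducible refine Fml.Rel.isOrd (fun x => feq_refl x _) ?_
      | with_reducible refine Fml.Rel.isOmega (fun x => feq_refl x _) ?_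
      | with_reducible refine Fml.Rel.ball (fun x => feq_refl x _) ?_ (fun _ => ?_)
      | with_reducible refine Fml.Rel.bex (fun x => feq_refl x _) ?_ (fun _ => ?_)
      | with_reducible refine Fml.Rel.iff ?_ ?_
      | with_reducible refine Fml.Rel.imp ?_ ?_
      | with_reducible refine Fml.Rel.or ?_ ?_
      | with_reducible refine Fml.Rel.ex (fun _ => ?_)
      | with_reducible refine Fml.Rel.and ?_ ?_
      | with_reducible refine Fml.Rel.neg ?_
      | with_reducible refine Fml.Rel.all (fun _ => ?_)
      | with_reducible refine Fml.Rel.mem ?_ ?_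
      | with_reducible refine Fml.Rel.eq ?_ ?_

theorem lk_regHM (w W E : Name P) : Lk (isRegHM (π w) (π W) (π E)) (isRegHM w W E) := by
  unfold isRegHM
  refine (lk_hmg w W E).and (Lk.neg ?_)
  refine Lk.ex (fun c => (Lk.isFunc _ _ _).and ((lk_proper E c).and (lk_regressive W c))) ?_
  intro p x y h
  refine .and ?_ (.and (rl_proper (feq_refl _ _) h) (rl_regressive (feq_refl _ _) h))
  repeat' first
    | assumption
    | exact feq_refl _ _
    | with_reducible refine Fml.Rel.isUPair (fun x => feq_refl x _) ?_ ?_ ?_
    | with_reducible refine Fml.Rel.isOPair (fun x => feq_refl x _) ?_ ?_ ?_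
    | with_reducible refine Fml.Rel.app (fun x => feq_refl x _) ?_ ?_ ?_
    | with_reducible refine Fml.Rel.isFunc (fun x => feq_refl x _) ?_ ?_ ?_
    | with_reducible refine Fml.Rel.isInj (fun x => feq_refl x _) ?_ ?_ ?_
    | with_reducible refine Fml.Rel.isBij (fun x => feq_refl x _) ?_ ?_ ?_
    | with_reducible refine Fml.Rel.isHartogs (fun x => feq_refl x _) ?_ ?_
    | with_reducible refine Fml.Rel.isSubset (fun x => feq_refl x _) ?_ ?_
    | with_reducible refine Fml.Rel.isOrd (fun x => feq_refl x _) ?_
    | with_reducible refine Fml.Rel.isOmega (fun x => feq_refl x _) ?_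
    | with_reducible refine Fml.Rel.ball (fun x => feq_refl x _) ?_ (fun _ => ?_)
    | with_reducible refine Fml.Rel.bex (fun x => feq_refl x _) ?_ (fun _ => ?_)
    | with_reducible refine Fml.Rel.iff ?_ ?_
    | with_reducible refine Fml.Rel.imp ?_ ?_
    | with_reducible refine Fml.Rel.or ?_ ?_
    | with_reducible refine Fml.Rel.ex (fun _ => ?_)
    | with_reducible refine Fml.Rel.and ?_ ?_
    | with_reducible refine Fml.Rel.neg ?_
    | with_reducible refine Fml.Rel.all (fun _ => ?_)
    | with_reducible refine Fml.Rel.mem ?_ ?_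
    | with_reducible refine Fml.Rel.eq ?_ ?_

theorem lk_main : Lk (hmNoReg : Fml (Ext P)) (hmNoReg : Fml (Name P)) := by
  unfold hmNoReg
  refine Lk.ex (fun w => Lk.ex (fun W => (Lk.isOmega w).and ((Lk.isHartogs w W).and
    ((Lk.ex (fun E => lk_hmg w W E) fun p x y h => rl_hm (feq_refl _ _) (feq_refl _ _) h).and
    (Lk.ex (fun E => lk_regHM w W E) fun p x y h => rl_regHM (feq_refl _ _) (feq_refl _ _) h).neg)))
    ?_) ?_
  · intro p x y h
    refine .and (Fml.Rel.isOmega (fun x => feq_refl x _) (feq_refl _ _))
      (.and (Fml.Rel.isHartogs (fun x => feq_refl x _) (feq_refl _ _) h)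
      (.and (.ex fun E => rl_hm (feq_refl _ _) h (feq_refl _ _))
      (.neg (.ex fun E => rl_regHM (feq_refl _ _) h (feq_refl _ _)))))
  · intro p x y h
    refine .ex fun W => .and (Fml.Rel.isOmega (fun x => feq_refl x _) h)
      (.and (Fml.Rel.isHartogs (fun x => feq_refl x _) h (feq_refl _ _))
      (.and (.ex fun E => rl_hm h (feq_refl _ _) (feq_refl _ _))
      (.neg (.ex fun E => rl_regHM h (feq_refl _ _) (feq_refl _ _)))))

end

/-- There is a model of ZFC with a Hajnal–Máté graph but no regressive Hajnal–Máté graph. -/
theorem main : ∃ (M : Type 1) (E : M → M → Prop), IsModelOfZFC E ∧ Holds E hmNoReg := by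
  obtain ⟨B, hB⟩ := exists_setup
  have hne : Nonempty (Cnd B) := by
    refine ⟨⟨⟨∅, ∅⟩, valid_iff.2 ⟨⟨?_, ?_, ?_⟩, ?_⟩⟩⟩
    · intro x z h
      exact absurd h (Finset.notMem_empty _)
    · intro ζ x γ h
      exact absurd h (Finset.notMem_empty _)
    · intro ζ x γ γ' h
      exact absurd h (Finset.notMem_empty _)
    · intro ζ x y γ _ h
      exact absurd h (Finset.notMem_empty _)
  refine ⟨Ext (Cnd B), extE (Cnd B), ext_zfc, (los lk_main).2 (T_of_forces fun p => ?_)⟩
  exact forces_main hB p

end Pool.Agent.Lib_helper27.H
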