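import Pool.Agent.Lib_helper27.Fml

/-!
# Hajnal–Máté graphs: the first-order statements

`w` is `ω`, `W` is `ω₁`, `E` is a set of two-element subsets of `W`.
-/

namespace Pool.Agent.Lib_helper27.Fml

universe v

variable {U : Type v}

/-- `E` is a set of two-element subsets of `W`. -/
def isGraph (W E : U) : Fml U :=
  ball E fun e => bex W fun x => bex W fun y => and (neg (eq x y)) (isUPair e x y)

/-- `{x, y} ∈ E` -/
def adj (E x y : U) : Fml U := bex E fun e => isUPair e x y

/-- `N = {b ∈ a : {b, a} ∈ E}` -/
def isLowNbr (E a N : U) : Fml U := all fun b => iff (mem b N) (and (mem b a) (adj E b a))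

/-- `N` is finite: there is a bijection from some `n ∈ ω` onto `N`. -/
def isFin (w N : U) : Fml U := bex w fun n => ex fun f => isBij f n N

/-- `N` has order type `ω`: there is an order-preserving bijection from `ω` onto `N`. -/
def isTypeOmega (w N : U) : Fml U :=
  ex fun f => and (isBij f w N)
    (all fun m => all fun n => all fun x => all fun y =>
      imp (and (mem m n) (and (app f m x) (app f n y))) (mem x y))

/-- `N` is cofinal in `a`: for every `c < a` there is `b ∈ N` with `c ≤ b`. -/
def isCofinal (a N : U) : Fml U := ball a fun c => bex N fun b => or (mem c b) (eq c b)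

/-- `c(x) ≠ c(y)` whenever `{x, y} ∈ E`. -/
def isProper (E c : U) : Fml U :=
  all fun x => all fun y => all fun v => imp (and (app c x v) (app c y v)) (neg (adj E x y))

/-- `(W, E)` is a Hajnal–Máté graph: for every `a ∈ W` the set of neighbours of `a` below `a` is
finite or has order type `ω` and is cofinal in `a`, and there is no proper colouring `c : W → ω`. -/
def isHM (w W E : U) : Fml U :=
  and (isGraph W E)
    (and (ball W fun a => all fun N => imp (isLowNbr E a N)
        (or (isFin w N) (and (isTypeOmega w N) (isCofinal a N))))
      (neg (ex fun c => and (isFunc c W w) (isProper E c))))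

/-- the ordinal `a` is a nonzero limit ordinal -/
def isLimit (a : U) : Fml U := and (ex fun x => mem x a) (ball a fun x => bex a fun y => mem x y)

/-- `c(a) < a` for every limit ordinal `a ∈ W` -/
def isRegressive (W c : U) : Fml U :=
  ball W fun a => imp (isLimit a) (all fun v => imp (app c a v) (mem v a))

/-- `(W, E)` is a regressive Hajnal–Máté graph: a Hajnal–Máté graph such that there is no proper
colouring `c : W → W` with `c(a) < a` for every limit ordinal `a ∈ W`. -/
def isRegHM (w W E : U) : Fml U :=
  and (isHM w W E)
    (neg (ex fun c => and (isFunc c W W) (and (isProper E c) (isRegressive W c))))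

/-- There is a Hajnal–Máté graph, but there is no regressive Hajnal–Máté graph (`w = ω` and
`W = ω₁`). -/
def hmNoReg : Fml U :=
  ex fun w => ex fun W => and (isOmega w) (and (isHartogs w W)
    (and (ex fun E => isHM w W E) (neg (ex fun E => isRegHM w W E))))

end Pool.Agent.Lib_helper27.Fml
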