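import Pool.Agent.Lib_helper27.H.Inst
import Pool.Agent.Lib_helper27.H.Stmt
import Pool.Agent.Lib_helper27.V.Chk

/-!
# What is forced
-/

set_option linter.unusedSectionVars false

namespace Pool.Agent.Lib_helper27.H

open Fml V

section

variable {P : Type} [Preorder P] {Ω : Type} [LinearOrder Ω] [WellFoundedLT Ω]

theorem upair_inj {x y a b : Name P} {p : P} (h : feq (mkPair x y) (mkPair a b) p) :
    Loc p fun r => (feq x a r ∧ feq y b r) ∨ (feq x b r ∧ feq y a r) := by
  refine (upair_cases (fmem_congr_right h (fmem_pair_left x y p))).bind ?_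
  rintro q hq (h1 | h1)
  · refine (upair_cases (fmem_congr_right (feq_symm (feq_mono hq h)) (fmem_pair_right a b q))).bind ?_
    rintro r hr (h2 | h2)
    · refine (upair_cases (fmem_congr_right (feq_mono (hr.trans hq) h) (fmem_pair_right x y r))).imp ?_
      rintro s hs (h3 | h3)
      · left
        refine ⟨feq_mono (hs.trans hr) h1, ?_⟩
        exact feq_trans h3 (feq_trans (feq_symm (feq_mono (hs.trans hr) h1)) (feq_symm (feq_mono hs h2)))
      · exact Or.inl ⟨feq_mono (hs.trans hr) h1, h3⟩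
    · exact Loc.pure fun s hs => Or.inl ⟨feq_mono (hs.trans hr) h1, feq_mono hs (feq_symm h2)⟩
  · refine (upair_cases (fmem_congr_right (feq_symm (feq_mono hq h)) (fmem_pair_left a b q))).bind ?_
    rintro r hr (h2 | h2)
    · refine (upair_cases (fmem_congr_right (feq_mono (hr.trans hq) h) (fmem_pair_right x y r))).imp ?_
      rintro s hs (h3 | h3)
      · exact Or.inr ⟨feq_mono (hs.trans hr) h1, h3⟩
      · right
        refine ⟨feq_mono (hs.trans hr) h1, ?_⟩
        exact feq_trans h3 (feq_trans (feq_symm (feq_mono (hs.trans hr) h1)) (feq_symm (feq_mono hs h2)))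
    · exact Loc.pure fun s hs => Or.inr ⟨feq_mono (hs.trans hr) h1, feq_mono hs (feq_symm h2)⟩

/-- values of functions from `ω` can be decided -/
theorem fin_decide {p : P} {f : Name P} (h : ∀ x y y', ∀ q, q ≤ p → Fc q (app f x y) →
    Fc q (app f x y') → feq y y' q) (k : ℕ) :
    ∃ q, q ≤ p ∧ ∃ S : Finset Ω, ∀ m < k, ∀ x, x ∉ S → ∀ r, r ≤ q →
      ¬ Fc r (app f (onm P m) (onm P x)) := by
  classical
  induction k with
  | zero => exact ⟨p, le_rfl, ∅, fun m hm => absurd hm (Nat.not_lt_zero m)⟩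
  | succ k ih =>
    obtain ⟨q, hq, S, hS⟩ := ih
    by_cases hex : ∃ r, r ≤ q ∧ ∃ x : Ω, Fc r (app f (onm P k) (onm P x))
    · obtain ⟨r, hr, x, hx⟩ := hex
      refine ⟨r, hr.trans hq, insert x S, ?_⟩
      intro m hm x' hx' s hs hcon
      rw [Finset.mem_insert, not_or] at hx'
      rcases Nat.lt_succ_iff_lt_or_eq.1 hm with hm | rfl
      · exact hS m hm x' hx'.2 s (hs.trans hr) hcon
      · exact hx'.1 (onm_inj (h _ _ _ s (hs.trans (hr.trans hq)) hcon (Forces.mono nf_basic hs hx)))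
    · push Not at hex
      refine ⟨q, hq, S, ?_⟩
      intro m hm x' hx' s hs hcon
      rcases Nat.lt_succ_iff_lt_or_eq.1 hm with hm | rfl
      · exact hS m hm x' hx' s hs hcon
      · exact hex s hs x' hcon

theorem rel_adj {r : Name P → Name P → Prop} (hr : ∀ x, r x x) {a a' b b' c c' : Name P}
    (ha : r a a') (hb : r b b') (hc : r c c') : Fml.Rel r (adj a b c) (adj a' b' c') :=
  Fml.Rel.bex hr ha fun x => Fml.Rel.isUPair hr (hr x) hb hc

theorem adj_congr {p : P} {E x y x' y' : Name P} (hx : feq x x' p) (hy : feq y y' p)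
    (h : Fc p (adj E x y)) : Fc p (adj E x' y') :=
  (fc_congr (rel_adj (fun x => feq_refl x p) (feq_refl E p) hx hy) le_rfl).1 h

theorem adj_symm {p : P} {E x y : Name P} (h : Fc p (adj E x y)) : Fc p (adj E y x) := by
  refine forces_bex.2 ((forces_bex.1 h).imp ?_)
  rintro r hr ⟨e, he, h1⟩
  refine ⟨e, he, fc_upair_iff.2 ?_⟩
  refine feq_trans (fc_upair_iff.1 h1) (feq_ext fun z q hq => ?_)
  rw [fmem_mkPair, fmem_mkPair, Fc, Fc, forces_or, forces_or]
  constructor <;> exact fun h => h.imp fun _ _ h => h.symm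

theorem graph_ne {p : P} {W E x : Name P} (hE : Fc p (isGraph W E)) : ¬ Fc p (adj E x x) := by
  intro h
  obtain ⟨q, hq, e, he, h1⟩ := (forces_bex.1 h).exists
  obtain ⟨r, hr, x', _, h2⟩ := (forces_bex.1 ((forces_ball nf_basic).1 hE e q hq he)).exists
  obtain ⟨s, hs, y', _, h3, h4⟩ := (forces_bex.1 h2).exists
  have h5 := feq_trans (feq_symm (fc_upair_iff.1 h4)) (feq_mono (hs.trans hr) (fc_upair_iff.1 h1))
  obtain ⟨t, ht, h6⟩ := (upair_inj h5).exists
  refine h3 t ht ?_
  rcases h6 with ⟨a, b⟩ | ⟨a, b⟩ <;> exact feq_trans a (feq_symm b)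

/-- From being Hajnal–Máté to local finiteness. -/
theorem hm_decide {p : P} {E : Name P} (h : Fc p (isHM (oall P ℕ) (oall P Ω) E)) {y θ : Ω}
    (hθ : θ < y) : ∃ q, q ≤ p ∧ ∃ W : Finset Ω, ∀ x < θ, x ∉ W → ∀ r, r ≤ q →
      ¬ Fc r (adj E (onm P x) (onm P y)) := by
  classical
  have hcong : Congr1 fun b => adj E b (onm P y) := fun p a b hab =>
    rel_adj (fun x => feq_refl x p) (feq_refl E p) hab (feq_refl _ p)
  let N : Name P := mkSep (onm P y) fun b => adj E b (onm P y)
  have hN : ∀ (z : Name P) (q : P), fmem z N q ↔ fmem z (onm P y) q ∧ Fc q (adj E z (onm P y)) :=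
    fun z q => fmem_mkSep hcong
  have hlow : Fc p (isLowNbr E (onm P y) N) := by
    intro b
    exact (forces_iff nf_basic).2 fun q hq => hN b q
  have h1 := (forces_ball nf_basic).1 h.2.1 (onm P y) p le_rfl (onm_mem_oall y p)
  have h2 := (forces_imp nf_basic).1 (h1 N) p le_rfl hlow
  obtain ⟨q, hq, h3⟩ := (forces_or.1 h2).exists
  rcases h3 with h3 | ⟨h3, h4⟩
  · -- finite
    obtain ⟨r, hr, n, hn, h4⟩ := (forces_bex.1 h3).exists
    obtain ⟨s, hs, f, hf⟩ := (forces_ex.1 h4).exists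
    obtain ⟨t, ht, k, hk⟩ := (fmem_oall.1 (fmem_mono hs hn)).exists
    have hf' : Fc t (isBij f (onm P k) N) :=
      (fc_congr (Fml.Rel.isBij (fun x => feq_refl x t) (feq_refl _ t) hk (feq_refl _ t)) le_rfl).1
        (Forces.mono nf_basic ht hf)
    obtain ⟨u, hu, S, hS⟩ := fin_decide (Ω := Ω) (p := t) (f := f) (fun x y y' q hq h1 h2 =>
      func_single (Forces.mono nf_basic hq hf'.1.1) h1 h2) k
    refine ⟨u, hu.trans (ht.trans (hs.trans (hr.trans hq))), S, ?_⟩
    intro x hx hxS v hv hadj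
    have hxN : fmem (onm P x) N v := (hN _ _).2 ⟨onm_mem (hx.trans hθ) v, hadj⟩
    obtain ⟨v', hv', z, hz, hz'⟩ := (bij_onto (Forces.mono nf_basic (hv.trans hu) hf') hxN).exists
    obtain ⟨v'', hv'', m, hm, he⟩ := (fmem_onm.1 hz).exists
    exact hS m hm x hxS v'' (hv''.trans (hv'.trans hv))
      (app_congr' he (feq_refl _ _) (Forces.mono nf_basic hv'' hz'))
  · -- order type ω
    obtain ⟨r, hr, f, hf, hord⟩ := (forces_ex.1 h3).exists
    have h5 := (forces_ball nf_basic).1 (Forces.mono nf_basic hr h4) (onm P θ) r le_rfl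
      (onm_mem hθ r)
    obtain ⟨s, hs, b, hb, hb'⟩ := (forces_bex.1 h5).exists
    obtain ⟨s1, hs1, z, hz, hz'⟩ := (bij_onto (Forces.mono nf_basic hs hf) hb).exists
    obtain ⟨s2, hs2, m, he⟩ := (fmem_oall.1 hz).exists
    have hfb : Fc s2 (app f (onm P m) b) :=
      app_congr' he (feq_refl _ _) (Forces.mono nf_basic hs2 hz')
    have hs2r : s2 ≤ r := hs2.trans (hs1.trans hs)
    obtain ⟨u, hu, S, hS⟩ := fin_decide (Ω := Ω) (p := s2) (f := f) (fun x y y' q hq h1 h2 =>
      func_single (Forces.mono nf_basic (hq.trans hs2r) hf.1.1) h1 h2) m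
    refine ⟨u, hu.trans (hs2r.trans (hr.trans hq)), S, ?_⟩
    intro x hx hxS v hv hadj
    have hvr : v ≤ r := hv.trans (hu.trans hs2r)
    have hxN : fmem (onm P x) N v := (hN _ _).2 ⟨onm_mem (hx.trans hθ) v, hadj⟩
    obtain ⟨v1, hv1, z', hz1, hz2⟩ := (bij_onto (Forces.mono nf_basic hvr hf) hxN).exists
    obtain ⟨v2, hv2, k, hk⟩ := (fmem_oall.1 hz1).exists
    have hfx : Fc v2 (app f (onm P k) (onm P x)) :=
      app_congr' hk (feq_refl _ _) (Forces.mono nf_basic hv2 hz2)
    have hv2v : v2 ≤ v := hv2.trans hv1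
    have hv2r : v2 ≤ r := hv2v.trans hvr
    have hfb' : Fc v2 (app f (onm P m) b) := Forces.mono nf_basic (hv2v.trans (hv.trans hu)) hfb
    have hb2 := Forces.mono nf_basic (hv2v.trans (hv.trans (hu.trans (hs2.trans hs1)))) hb'
    rcases lt_trichotomy k m with hlt | heq | hgt
    · exact hS k hlt x hxS v2 (hv2v.trans hv) hfx
    · subst heq
      have hbx : feq b (onm P x) v2 := func_single (Forces.mono nf_basic hv2r hf.1.1) hfb' hfx
      obtain ⟨v3, hv3, h6⟩ := (forces_or.1 hb2).exists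
      rcases h6 with h6 | h6
      · have := fmem_congr_right (feq_mono hv3 hbx) h6
        rw [onm_mem_iff] at this
        exact lt_asymm this hx
      · have := onm_inj (feq_trans h6 (feq_mono hv3 hbx))
        exact hx.ne' this
    · have hbx : fmem b (onm P x) v2 := by
        have := (forces_imp nf_basic).1 (hord (onm P m) (onm P k) b (onm P x)) v2 hv2r
          ⟨onm_mem hgt v2, hfb', hfx⟩
        exact this
      obtain ⟨v3, hv3, z3, hz3, he3⟩ := (fmem_onm.1 hbx).exists
      obtain ⟨v4, hv4, h6⟩ := ((forces_or.1 hb2).mono hv3).exists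
      rcases h6 with h6 | h6
      · have := fmem_congr_right (feq_mono hv4 he3) h6
        rw [onm_mem_iff] at this
        exact lt_asymm (this.trans hz3) hx
      · have := onm_inj (feq_trans h6 (feq_mono hv4 he3))
        rw [this] at hx
        exact lt_asymm hz3 hx

theorem lim_of_forces {p : P} {x : Ω} (h : Fc p (isLimit (onm P x))) : IsLim x := by
  obtain ⟨h1, h2⟩ := h
  constructor
  · obtain ⟨q, hq, y, hy⟩ := (forces_ex.1 h1).exists
    obtain ⟨r, hr, y', hy', _⟩ := (fmem_onm.1 hy).exists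
    exact ⟨y', hy'⟩
  · intro y hy
    obtain ⟨q, hq, z, hz, hyz⟩ :=
      (forces_bex.1 ((forces_ball nf_basic).1 h2 (onm P y) p le_rfl (onm_mem hy p))).exists
    obtain ⟨r, hr, z', hz', he⟩ := (fmem_onm.1 hz).exists
    have := fmem_congr_right he (fmem_mono hr hyz)
    rw [onm_mem_iff] at this
    exact ⟨z', this, hz'⟩

end

end Pool.Agent.Lib_helper27.H
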