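import Pool.Agent.Lib_helper27.H.Forced

/-!
# The generic graph and the generic colourings
-/

set_option linter.unusedSectionVars false

namespace Pool.Agent.Lib_helper27.H

open Fml V

section

variable {K Ω : Type} [LinearOrder Ω] [LinearOrder K] [WellFoundedLT K] [WellFoundedLT Ω]

/-- The partial order of conditions. -/
abbrev Cnd (B : Base K Ω) : Type := {r : Raw K Ω // Valid B r}

variable {B : Base K Ω} (hB : Setup B)

/-- the name of `ω` -/
noncomputable abbrev wn (B : Base K Ω) : Name (Cnd B) := oall (Cnd B) ℕ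

/-- the name of `ω₁` -/
noncomputable abbrev Wn (B : Base K Ω) : Name (Cnd B) := oall (Cnd B) Ω

include hB

theorem pres' (pf : Ω → Cnd B) (nf : Ω → ℕ) : ∃ β α, β < α ∧ nf β = nf α ∧
    ∃ q : Cnd B, q ≤ pf α ∧ q ≤ pf β ∧ (α, β) ∈ q.1.a := by
  obtain ⟨β, α, h1, h2, q, h3, h4, h5, h6⟩ := pres hB.cnt hB.unc hB.hyp (fun α => (pf α).1)
    (fun α => (pf α).2) nf
  exact ⟨β, α, h1, h2, ⟨q, h3⟩, h4, h5, h6⟩

theorem cnd_ccc (A : Set (Cnd B)) (hA : ∀ a ∈ A, ∀ b ∈ A, Cpt a b → a = b) : A.Countable := by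
  by_contra hcon
  have h1 : Cardinal.aleph 1 ≤ Cardinal.mk A := by
    rw [← Cardinal.le_aleph0_iff_set_countable, not_le] at hcon
    have h2 : (Cardinal.aleph 1 : Cardinal.{0}) = Order.succ Cardinal.aleph0 := by simp
    rw [h2]
    exact Order.succ_le_of_lt hcon
  obtain ⟨g⟩ := (Cardinal.le_def _ _).1 (hB.card.trans h1)
  obtain ⟨β, α, hβα, _, q, hq1, hq2, _⟩ := pres' hB (fun x => (g x).1) (fun _ => 0)
  have h3 := hA _ (g α).2 _ (g β).2 ⟨q, hq1, hq2⟩
  have h4 := g.injective (Subtype.ext h3)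
  exact hβα.ne h4.symm

theorem add_col (p : Cnd B) (ζ : K) (x : Ω) : ∃ q, q ≤ p ∧ ∃ γ, (ζ, x, γ) ∈ q.1.c := by
  classical
  by_cases hex : ∃ γ, (ζ, x, γ) ∈ p.1.c
  · exact ⟨p, le_rfl, hex⟩
  · obtain ⟨γ, hγ, hγ'⟩ := (hB.inf x).exists_notMem_finset (p.1.c.image fun t => t.2.2)
    have hγ'' : ∀ ζ' x', (ζ', x', γ) ∉ p.1.c := fun ζ' x' h =>
      hγ' (Finset.mem_image.2 ⟨_, h, rfl⟩)
    have hpv := valid_iff.1 p.2
    have hle : (⟨p.1.a, insert (ζ, x, γ) p.1.c⟩ : Raw K Ω) ≤ p.1 :=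
      ⟨subset_rfl, Finset.subset_insert _ _, fun _ _ _ h h' => (h' h).elim⟩
    refine ⟨⟨⟨p.1.a, insert (ζ, x, γ) p.1.c⟩, ?_⟩, hle, γ, Finset.mem_insert_self _ _⟩
    rw [valid_iff]
    refine ⟨⟨hpv.1.1, ?_, ?_⟩, ?_⟩
    · intro ζ' x' γ' h
      rcases Finset.mem_insert.1 h with h | h
      · simp only [Prod.mk.injEq] at h
        rw [h.2.1, h.2.2]
        exact hγ
      · exact hpv.1.2.1 _ _ _ h
    · intro ζ' x' γ' γ'' h h'
      rcases Finset.mem_insert.1 h with h | h <;> rcases Finset.mem_insert.1 h' with h' | h'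
      · simp only [Prod.mk.injEq] at h h'
        rw [h.2.2, h'.2.2]
      · simp only [Prod.mk.injEq] at h
        rw [h.1, h.2.1] at h'
        exact (hex ⟨_, h'⟩).elim
      · simp only [Prod.mk.injEq] at h'
        rw [h'.1, h'.2.1] at h
        exact (hex ⟨_, h⟩).elim
      · exact hpv.1.2.2 _ _ _ _ h h'
    · intro ζ' x' y' γ' hxy h h'
      rcases Finset.mem_insert.1 h with h | h <;> rcases Finset.mem_insert.1 h' with h' | h'
      · simp only [Prod.mk.injEq] at h h'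
        rw [h.2.1, h'.2.1] at hxy
        exact (lt_irrefl _ hxy).elim
      · simp only [Prod.mk.injEq] at h
        rw [h.2.2] at h'
        exact (hγ'' _ _ h').elim
      · simp only [Prod.mk.injEq] at h'
        rw [h'.2.2] at h
        exact (hγ'' _ _ h).elim
      · exact (hpv.2 _ _ _ _ hxy h h').mono (res_mono hle _)

theorem add_lad (p : Cnd B) {α δ : Ω} (hα : B.lad α) (hδ : δ < α) :
    ∃ q, q ≤ p ∧ ∃ β, δ < β ∧ (α, β) ∈ q.1.a := by
  classical
  have hpv := valid_iff.1 p.2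
  let S : Finset Ω := insert δ ((p.1.a.filter fun t => t.1 = α).image fun t => t.2)
  have hS : S.Nonempty := ⟨δ, Finset.mem_insert_self _ _⟩
  have hSα : ∀ x ∈ S, x < α := by
    intro x hx
    rcases Finset.mem_insert.1 hx with rfl | hx
    · exact hδ
    · obtain ⟨⟨a, b⟩, h1, rfl⟩ := Finset.mem_image.1 hx
      obtain ⟨h3, h2⟩ := Finset.mem_filter.1 h1
      simp only at h2
      rw [← h2]
      exact (hpv.1.1 _ _ h3).2.1
  obtain ⟨β, hβ1, hβ2, hβ3⟩ := hB.alt α hα (S.max' hS) (hSα _ (S.max'_mem hS))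
  have hle : (⟨insert (α, β) p.1.a, p.1.c⟩ : Raw K Ω) ≤ p.1 := by
    refine ⟨Finset.subset_insert _ _, subset_rfl, ?_⟩
    intro x z z' h1 h2 h3
    rcases Finset.mem_insert.1 h1 with h1 | h1
    · simp only [Prod.mk.injEq] at h1
      obtain ⟨rfl, rfl⟩ := h1
      refine lt_of_le_of_lt (S.le_max' z' ?_) hβ1
      exact Finset.mem_insert_of_mem (Finset.mem_image.2 ⟨_, Finset.mem_filter.2 ⟨h3, rfl⟩, rfl⟩)
    · exact (h2 h1).elim
  refine ⟨⟨⟨insert (α, β) p.1.a, p.1.c⟩, ?_⟩, hle, β,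
    (S.le_max' δ (Finset.mem_insert_self _ _)).trans_lt hβ1, Finset.mem_insert_self _ _⟩
  rw [valid_iff]
  refine ⟨⟨?_, hpv.1.2.1, hpv.1.2.2⟩, ?_⟩
  · intro x z h
    rcases Finset.mem_insert.1 h with h | h
    · simp only [Prod.mk.injEq] at h
      obtain ⟨rfl, rfl⟩ := h
      exact ⟨hα, hβ2, hβ3⟩
    · exact hpv.1.1 _ _ h
  · intro ζ' x' y' γ' hxy h h'
    exact (hpv.2 _ _ _ _ hxy h h').mono (res_mono hle _)

/-- names of elements of `ω` for values of functions -/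
theorem decide_nat {q : Cnd B} {f : Name (Cnd B)} {a : Name (Cnd B)}
    (hf : Fc q (isFunc f a (wn B))) (x : Name (Cnd B)) (hx : fmem x a q) :
    ∃ r, r ≤ q ∧ ∃ n : ℕ, Fc r (app f x (onm (Cnd B) n)) := by
  obtain ⟨r, hr, y, hy, hy'⟩ := (func_total hf hx).exists
  obtain ⟨s, hs, n, hn⟩ := (fmem_oall.1 hy).exists
  exact ⟨s, hs.trans hr, n, app_congr' (feq_refl _ _) hn (Forces.mono nf_basic hs hy')⟩

theorem forces_hartogs (p : Cnd B) : Fc p (isHartogs (wn B) (Wn B)) := by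
  classical
  refine ⟨oall_ord p, ?_, ?_⟩
  · intro q hq hex
    obtain ⟨q1, hq1, f, hf⟩ := (forces_ex.1 hex).exists
    have h1 : ∀ α : Ω, ∃ r, r ≤ q1 ∧ ∃ n : ℕ, Fc r (app f (onm (Cnd B) α) (onm (Cnd B) n)) :=
      fun α => decide_nat hB hf.1 _ (onm_mem_oall α q1)
    choose pf hpf nf hnf using h1
    obtain ⟨β, α, hβα, hn, r, hr1, hr2, _⟩ := pres' hB pf nf
    have h2 := inj_single (Forces.mono nf_basic (hr1.trans (hpf α)) hf)
      (Forces.mono nf_basic hr1 (hnf α)) (by rw [← hn]; exact Forces.mono nf_basic hr2 (hnf β))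
    exact hβα.ne (onm_inj h2).symm
  · refine (forces_ball nf_basic).2 fun c q hq hc => ?_
    refine forces_ex.2 ?_
    refine (fmem_oall.1 hc).imp ?_
    rintro r hr ⟨x, he⟩
    obtain ⟨g, hg⟩ := (Set.countable_iff_exists_injOn).1 (hB.cnt x)
    let f : Name (Cnd B) := mkFn {y : Ω // y < x} (fun y => onm (Cnd B) y.1)
      (fun y => onm (Cnd B) (g y.1)) fun _ _ => True
    have hD : Down (P := Cnd B) (fun (_ : {y : Ω // y < x}) _ => True) := down_true
    have h1 : Fc r (isFunc f (onm (Cnd B) x) (wn B)) := by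
      refine fc_isFunc hD ?_ ?_ ?_
      · intro y s _ _
        exact ⟨onm_mem y.2 s, onm_mem_oall _ s⟩
      · intro z s _ hz
        refine (fmem_onm.1 hz).imp ?_
        rintro t _ ⟨y, hy, he⟩
        exact ⟨⟨y, hy⟩, trivial, he⟩
      · intro y y' s _ _ _ h
        have := onm_inj h
        rw [this]
        exact feq_refl _ _
    have h2 : Fc r (isInj f (onm (Cnd B) x) (wn B)) := by
      refine fc_isInj hD h1 ?_
      intro y y' s _ _ _ h
      have := hg y.2 y'.2 (onm_inj h)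
      rw [this]
      exact feq_refl _ _
    refine ⟨f, ?_⟩
    exact (fc_congr (Fml.Rel.isInj (fun x => feq_refl x r) (feq_refl _ r) (feq_symm he)
      (feq_refl _ r)) le_rfl).1 h2

omit hB in
/-- the name of the generic graph -/
noncomputable def En (B : Base K Ω) : Name (Cnd B) :=
  mkQ (Ω × Ω) (fun t => mkPair (onm (Cnd B) t.1) (onm (Cnd B) t.2)) fun t r => t ∈ r.1.a

omit hB in
theorem down_en : Down (P := Cnd B) (fun (t : Ω × Ω) r => t ∈ r.1.a) := fun _ _ _ hq h => hq.1 h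

omit hB in
theorem fc_adj {p : Cnd B} {x y : Name (Cnd B)} : Fc p (adj (En B) x y) ↔
    Loc p fun r => ∃ α β, (α, β) ∈ r.1.a ∧ ((feq x (onm (Cnd B) α) r ∧ feq y (onm (Cnd B) β) r) ∨
      (feq x (onm (Cnd B) β) r ∧ feq y (onm (Cnd B) α) r)) := by
  constructor
  · intro h
    refine (forces_bex.1 h).bind ?_
    rintro q hq ⟨e, he, he'⟩
    refine ((fmem_mkQ down_en).1 he).bind ?_
    rintro r hr ⟨⟨α, β⟩, ht, h1⟩
    have h2 := feq_trans (feq_symm (feq_mono hr (fc_upair_iff.1 he'))) h1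
    refine (upair_inj h2).imp ?_
    rintro s hs h3
    exact ⟨α, β, hs.1 ht, h3⟩
  · intro h
    refine forces_bex.2 (h.imp ?_)
    rintro r hr ⟨α, β, ht, h1⟩
    refine ⟨mkPair (onm (Cnd B) α) (onm (Cnd B) β), fmem_mkQ_of
      (x := fun t : Ω × Ω => mkPair (onm (Cnd B) t.1) (onm (Cnd B) t.2)) down_en (i := (α, β)) ht,
      fc_upair_iff.2 ?_⟩
    rcases h1 with h1 | h1
    · exact feq_symm (feq_pair_congr h1.1 h1.2)
    · refine feq_trans ?_ (feq_symm (feq_pair_congr h1.1 h1.2))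
      refine feq_ext fun z q hq => ?_
      rw [fmem_mkPair, fmem_mkPair, Fc, Fc, forces_or, forces_or]
      constructor <;> exact fun h => h.imp fun _ _ h => h.symm

omit hB in
theorem en_graph (p : Cnd B) : Fc p (isGraph (Wn B) (En B)) := by
  refine (forces_ball nf_basic).2 fun e q hq he => ?_
  refine forces_bex.2 ?_
  refine ((fmem_mkQ down_en).1 he).imp ?_
  rintro r hr ⟨⟨α, β⟩, ht, h1⟩
  refine ⟨onm (Cnd B) α, onm_mem_oall α r, forces_bex.2 (Loc.pure fun s hs =>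
    ⟨onm (Cnd B) β, onm_mem_oall β s, ?_, fc_upair_iff.2 (feq_mono hs h1)⟩)⟩
  intro s' _ h2
  have h3 := onm_inj h2
  exact (((valid_iff.1 r.2).1.1 _ _ ht).2.1).ne h3.symm

theorem en_chi (p : Cnd B) : Fc p (neg (ex fun c => and (isFunc c (Wn B) (wn B))
    (isProper (En B) c))) := by
  intro q hq hex
  obtain ⟨q1, hq1, f, hf, hpr⟩ := (forces_ex.1 hex).exists
  have h1 : ∀ α : Ω, ∃ r, r ≤ q1 ∧ ∃ n : ℕ, Fc r (app f (onm (Cnd B) α) (onm (Cnd B) n)) :=
    fun α => decide_nat hB hf _ (onm_mem_oall α q1)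
  choose pf hpf nf hnf using h1
  obtain ⟨β, α, hβα, hn, r, hr1, hr2, hr3⟩ := pres' hB pf nf
  refine (forces_imp nf_basic).1 (hpr (onm (Cnd B) α) (onm (Cnd B) β) (onm (Cnd B) (nf α))) r
    (hr1.trans (hpf α)) ⟨Forces.mono nf_basic hr1 (hnf α), ?_⟩ r le_rfl ?_
  · rw [← hn]
    exact Forces.mono nf_basic hr2 (hnf β)
  · exact fc_adj.2 (Loc.pure fun s hs => ⟨α, β, hs.1 hr3, Or.inl ⟨feq_refl _ _, feq_refl _ _⟩⟩)

end

end Pool.Agent.Lib_helper27.H
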