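import Pool.Agent.Lib_helper27.H.Pres

/-!
# Existence of the parameters
-/

set_option linter.unusedSectionVars false

namespace Pool.Agent.Lib_helper27.H

open Cardinal

/-- limit points -/
def IsLim {Ω : Type} [LinearOrder Ω] (x : Ω) : Prop := (∃ y, y < x) ∧ ∀ y < x, ∃ z, y < z ∧ z < x

/-- Everything that is needed about the parameters. -/
structure Setup {K Ω : Type} [LinearOrder K] [LinearOrder Ω] [WellFoundedLT K] [WellFoundedLT Ω]
    (B : Base K Ω) : Prop where
  cnt : ∀ θ : Ω, (Set.Iio θ).Countable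
  unc : ¬ (Set.univ : Set Ω).Countable
  card : #Ω ≤ aleph 1
  hyp : Hyp B
  lim : ∀ x, B.lad x → IsLim x
  inf : ∀ x, {γ | B.col x γ}.Infinite
  reg : ∀ x γ, IsLim x → B.col x γ → γ < x
  alt : ∀ x, B.lad x → ∀ β < x, ∃ γ, β < γ ∧ γ < x ∧ B.cls γ ≠ B.cls x
  book : ∀ f : Ω → Ω → Set (Raw K Ω), (∀ x y, (f x y).Countable) → ∀ ζ₀, ∃ ζ, ζ₀ ≤ ζ ∧ B.nm ζ = f
  bdd : ∀ S : Ω → Ω → Set K, (∀ x y, (S x y).Countable) → ∃ ζ, ∀ x y, ∀ k ∈ S x y, k < ζ

section ulam

variable {K Ω : Type} [LinearOrder Ω] [LinearOrder K] [WellFoundedLT K] [WellFoundedLT Ω]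
  (hc : ∀ θ : Ω, (Set.Iio θ).Countable) (hu : ¬ (Set.univ : Set Ω).Countable)

include hc hu

theorem club_lim : Club fun (_ : Set K) (θ : Ω) => ∀ x < θ, ∃ y, x < y ∧ y < θ := by
  have : Club fun (A : Set K) (θ : Ω) => ∀ x : Ω, In A θ x → ∃ y, x < y ∧ y < θ := by
    refine Club.diag (I := Ω) fun x => ?_
    obtain ⟨y, hy⟩ := exists_bound hc hu (Set.countable_singleton x)
    exact (Club.const Set.countable_empty y).mono fun A θ _ h => ⟨y, hy x rfl, h.2⟩
  exact this.mono fun A θ _ h x hx => h x (in_Ω.2 hx)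

theorem exists_ulam (o : Ω) : ∃ cls : Ω → Ω, (∀ x, ¬ IsLim x → cls x = o) ∧
    (∀ x, cls x ≠ o → cls x < x) ∧
    ∀ θ, ∃ i, θ ≤ i ∧ i ≠ o ∧ Stat (fun (_ : Set K) (α : Ω) => cls α = i) := by
  classical
  have hf : ∀ θ : Ω, ∃ f : Ω → ℕ, Set.InjOn f (Set.Iio θ) := by
    intro θ
    obtain ⟨f, hf⟩ := (Set.countable_iff_exists_injOn).1 (hc θ)
    exact ⟨f, hf⟩
  choose f hf using hf
  let S : ℕ → Ω → Set K → Ω → Prop := fun n i _ α => IsLim α ∧ i < α ∧ f α i = n
  have h1 : ∀ i, ∃ n, Stat (S n i) := by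
    intro i
    by_contra hcon
    push Not at hcon
    have h2 : ∀ n, ∃ C : Set K → Ω → Prop, Club C ∧ ∀ A θ, A.Countable → C A θ → ¬ S n i A θ := by
      intro n
      have := hcon n
      unfold Stat at this
      push Not at this
      exact this
    choose C hC hCS using h2
    obtain ⟨A, θ, hA, ⟨h3, h4⟩, h5⟩ := Club.nonempty hc hu
      (((Club.forall_nat hC).and (Club.const (K := K) Set.countable_empty i)).and (club_lim hc hu))
    exact hCS (f θ i) A θ hA (h3 _) ⟨⟨⟨i, h4.2⟩, h5⟩, h4.2, rfl⟩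
  choose n hn using h1
  have h2 : ∃ m, ∀ θ, ∃ i, θ ≤ i ∧ n i = m := by
    by_contra hcon
    push Not at hcon
    choose g hg using hcon
    obtain ⟨θ, hθ⟩ := exists_bound hc hu (Set.countable_range g)
    exact hg (n θ) θ (hθ _ ⟨_, rfl⟩).le rfl
  obtain ⟨m, hm⟩ := h2
  have h3 : ∀ x, ∃ c, (¬ IsLim x → c = o) ∧ (c ≠ o → c < x) ∧
      ∀ i, IsLim x → i < x → f x i = m → c = i := by
    intro x
    by_cases h : IsLim x ∧ ∃ i, i < x ∧ f x i = m
    · obtain ⟨h4, i, h5, h6⟩ := h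
      exact ⟨i, fun h => (h h4).elim, fun _ => h5, fun i' _ h7 h8 => hf x h5 h7 (h6.trans h8.symm)⟩
    · exact ⟨o, fun _ => rfl, fun h => (h rfl).elim, fun i h4 h5 h6 => (h ⟨h4, i, h5, h6⟩).elim⟩
  choose cls hcls1 hcls2 hcls3 using h3
  refine ⟨cls, hcls1, hcls2, ?_⟩
  intro θ
  obtain ⟨θ', hθ'⟩ := exists_bound hc hu (Set.countable_singleton o)
  obtain ⟨i, hi, him⟩ := hm (max θ θ')
  refine ⟨i, (le_max_left _ _).trans hi, (lt_of_lt_of_le (hθ' o rfl)
    ((le_max_right _ _).trans hi)).ne', ?_⟩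
  intro C hC
  obtain ⟨A, α, hA, hCA, h3, h4, h5⟩ := hn i C hC
  exact ⟨A, α, hA, hCA, hcls3 α i h3 h4 (h5.trans him)⟩

end ulam

/-- a well-order of type `ω₁` -/
abbrev Lam : Type := (aleph 1 : Cardinal.{0}).ord.ToType

/-- a well-order of type `ω₁` in which limits are visible -/
abbrev Om : Type := Lam ×ₗ ℕ

/-- a well-order of type the initial ordinal of `2 ^ ℵ₁` -/
abbrev KK : Type := ((2 : Cardinal.{0}) ^ (aleph 1 : Cardinal.{0})).ord.ToType

theorem mk_Lam : #Lam = aleph 1 := by simp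

theorem mk_KK : #KK = 2 ^ (aleph 1 : Cardinal.{0}) := by simp

theorem mk_Om : #Om = aleph 1 := by
  have : #Om = #(Lam × ℕ) := mk_congr toLex.symm
  rw [this, mk_prod, mk_Lam]
  simp

theorem om_cnt (θ : Om) : (Set.Iio θ).Countable := by
  obtain ⟨⟨l, n⟩, rfl⟩ := toLex.surjective θ
  have h1 : (Set.Iio l).Countable := by
    rw [← le_aleph0_iff_set_countable]
    have := mk_Iio_lt (α := Lam) l (by simp)
    rw [mk_Lam] at this
    have h2 : (aleph 1 : Cardinal.{0}) = Order.succ ℵ₀ := by simp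
    exact Order.lt_succ_iff.1 (this.trans_eq h2)
  have h2 : ((Set.Iic l) ×ˢ (Set.univ : Set ℕ)).Countable := by
    refine Set.Countable.prod ?_ Set.countable_univ
    rw [← Set.Iio_insert]
    exact h1.insert l
  refine (h2.image toLex).mono ?_
  intro x hx
  obtain ⟨⟨l', n'⟩, rfl⟩ := toLex.surjective x
  refine ⟨(l', n'), ⟨?_, trivial⟩, rfl⟩
  rw [Set.mem_Iio, Prod.Lex.toLex_lt_toLex] at hx
  rcases hx with h | h
  · exact h.le
  · exact h.1.le

theorem om_unc : ¬ (Set.univ : Set Om).Countable := by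
  rw [← le_aleph0_iff_set_countable, mk_univ, mk_Om]
  simp

theorem om_lim {x : Om} (h : IsLim x) : (ofLex x).2 = 0 := by
  obtain ⟨⟨l, n⟩, rfl⟩ := toLex.surjective x
  by_contra hn
  obtain ⟨m, rfl⟩ := Nat.exists_eq_succ_of_ne_zero hn
  obtain ⟨z, h1, h2⟩ := h.2 (toLex (l, m)) (by
    rw [Prod.Lex.toLex_lt_toLex]
    exact Or.inr ⟨rfl, Nat.lt_succ_self m⟩)
  obtain ⟨⟨l', n'⟩, rfl⟩ := toLex.surjective z
  rw [Prod.Lex.toLex_lt_toLex] at h1 h2
  simp only at h1 h2
  rcases h1 with h1 | ⟨h1, h1'⟩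
  · rcases h2 with h2 | ⟨h2, _⟩
    · exact lt_asymm h1 h2
    · exact h1.ne h2.symm
  · rcases h2 with h2 | ⟨_, h2⟩
    · exact h2.ne h1.symm
    · omega

theorem lt_lim {x y : Om} (h : IsLim x) : y < x ↔ (ofLex y).1 < (ofLex x).1 := by
  have := om_lim h
  obtain ⟨⟨l, n⟩, rfl⟩ := toLex.surjective x
  obtain ⟨⟨l', n'⟩, rfl⟩ := toLex.surjective y
  simp only [ofLex_toLex] at this
  subst this
  rw [Prod.Lex.toLex_lt_toLex]
  simp

/-- class of a colour -/
def kap (x : Om) : Om := toLex ((ofLex x).1, (Nat.unpair (ofLex x).2).1)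

theorem kap_mem (i : Om) (k : ℕ) : kap (toLex ((ofLex i).1, Nat.pair (ofLex i).2 k)) = i := by
  simp [kap]

theorem kap_inj (i : Om) : Function.Injective fun k : ℕ =>
    (toLex ((ofLex i).1, Nat.pair (ofLex i).2 k) : Om) := by
  intro k k' h
  simpa using h

theorem kap_cnt (i : Om) : {γ | kap γ = i}.Countable := by
  refine (Set.countable_range fun n : ℕ => (toLex ((ofLex i).1, n) : Om)).mono ?_
  rintro γ rfl
  exact ⟨(ofLex γ).2, by simp [kap]⟩

theorem exists_nm : ∃ nm : KK → Om → Om → Set (Raw KK Om), ∀ f : Om → Om → Set (Raw KK Om),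
    (∀ x y, (f x y).Countable) → ∀ ζ₀, ∃ ζ, ζ₀ ≤ ζ ∧ nm ζ = f := by
  have hinf : ℵ₀ ≤ #KK := by
    rw [mk_KK]
    exact (aleph0_le_aleph 1).trans (cantor _).le
  have hOmK : #Om ≤ #KK := by
    rw [mk_KK, mk_Om]
    exact (cantor _).le
  have hR : #(Raw KK Om) ≤ #KK := by
    have hi : Function.Injective (fun r : Raw KK Om => (r.a, r.c)) := by
      rintro ⟨a, c⟩ ⟨a', c'⟩ h
      simp only [Prod.mk.injEq] at h
      rw [h.1, h.2]
    refine (mk_le_of_injective hi).trans ?_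
    have hOi : Infinite Om := by
      rw [infinite_iff, mk_Om]
      exact aleph0_le_aleph 1
    have hKi : Infinite KK := infinite_iff.2 hinf
    rw [mk_prod, lift_id, lift_id, mk_finset_of_infinite, mk_finset_of_infinite, mk_prod, mk_prod,
      mk_prod]
    simp only [lift_id]
    have h1 : #Om * #Om ≤ #KK := (mul_le_mul' hOmK hOmK).trans (mul_eq_self hinf).le
    exact (mul_le_mul' h1 ((mul_le_mul' le_rfl h1).trans (mul_eq_self hinf).le)).trans
      (mul_eq_self hinf).le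
  have hO : #(Option (Raw KK Om)) ≤ #KK := by
    rw [mk_option]
    exact (add_le_add hR (one_le_aleph0.trans hinf)).trans (add_eq_self hinf).le
  have hCN : #(Om → Om → ℕ → Option (Raw KK Om)) ≤ #KK := by
    have h1 : #(Om → Om → ℕ → Option (Raw KK Om)) =
        ((#(Option (Raw KK Om)) ^ ℵ₀) ^ #Om) ^ #Om := by
      simp [mk_pi]
    rw [h1, ← power_mul, ← power_mul, mk_Om, mul_eq_self (aleph0_le_aleph 1),
      aleph0_mul_aleph]
    refine (power_le_power_right hO).trans ?_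
    rw [mk_KK, ← power_mul, mul_eq_self (aleph0_le_aleph 1)]
  have hprod : #(KK × (Om → Om → ℕ → Option (Raw KK Om))) ≤ #KK := by
    rw [mk_prod, lift_id, lift_id]
    exact (mul_le_mul' le_rfl hCN).trans (mul_eq_self hinf).le
  obtain ⟨e⟩ : Nonempty ((KK × (Om → Om → ℕ → Option (Raw KK Om))) ↪ KK) := by
    rwa [← Cardinal.le_def]
  have hne : Nonempty KK := by
    rw [← mk_ne_zero_iff]
    intro h
    rw [h] at hinf
    exact absurd hinf (not_le.2 aleph0_pos)
  have hne' : Nonempty (KK × (Om → Om → ℕ → Option (Raw KK Om))) :=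
    ⟨⟨Classical.choice hne, fun _ _ _ => none⟩⟩
  let g : KK → (KK × (Om → Om → ℕ → Option (Raw KK Om))) :=
    Function.invFun e
  have hg : ∀ z, g (e z) = z := Function.leftInverse_invFun e.injective
  refine ⟨fun ζ x y => {t | ∃ n, (g ζ).2 x y n = some t}, ?_⟩
  intro f hf ζ₀
  have h1 : ∀ x y, ∃ h : ℕ → Option (Raw KK Om), f x y = {t | ∃ n, h n = some t} := by
    intro x y
    rcases (f x y).eq_empty_or_nonempty with he | hne
    · exact ⟨fun _ => none, by simp [he]⟩
    · obtain ⟨h, hh⟩ := (hf x y).exists_eq_range hne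
      refine ⟨fun n => some (h n), ?_⟩
      rw [hh]
      ext t
      simp [Set.mem_range]
  choose h hh using h1
  by_contra hcon
  push Not at hcon
  have h2 : ∀ k : KK, e (k, h) < ζ₀ := by
    intro k
    by_contra hk
    push Not at hk
    refine hcon _ hk ?_
    funext x y
    rw [hg, hh]
  have h3 : #KK ≤ #(Set.Iio ζ₀) := by
    refine mk_le_of_injective (f := fun k : KK => (⟨e (k, h), h2 k⟩ : Set.Iio ζ₀)) ?_
    intro k k' hkk
    simpa using hkk
  have h4 : #(Set.Iio ζ₀) < #KK := mk_Iio_lt ζ₀ (by simp)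
  exact absurd h3 (not_le.2 h4)

theorem kk_bdd (S : Om → Om → Set KK) (hS : ∀ x y, (S x y).Countable) :
    ∃ ζ, ∀ x y, ∀ k ∈ S x y, k < ζ := by
  have h1 : ¬ IsCofinal (⋃ z : Om × Om, S z.1 z.2) := by
    intro h
    have h2 := Order.cof_le h
    have h3 : #(⋃ z : Om × Om, S z.1 z.2) ≤ aleph 1 := by
      refine (mk_iUnion_le_sum_mk).trans ?_
      refine (sum_le_sum _ (fun _ => ℵ₀) fun z => ?_).trans ?_
      · exact le_aleph0_iff_set_countable.2 (hS z.1 z.2)
      · rw [sum_const, mk_prod]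
        simp only [lift_id]
        rw [mk_Om, mul_eq_self (aleph0_le_aleph 1)]
        simp
    have h4 : (aleph 1 : Cardinal.{0}) < (2 ^ (aleph 1 : Cardinal.{0}) : Cardinal.{0}).ord.cof :=
      lt_cof_ord_power (aleph0_le_aleph 1) (by simp)
    rw [← Ordinal.cof_toType] at h4
    exact absurd (h2.trans h3) (not_le.2 h4)
  rw [not_isCofinal_iff] at h1
  obtain ⟨ζ, hζ⟩ := h1
  exact ⟨ζ, fun x y k hk => hζ k (Set.mem_iUnion.2 ⟨(x, y), hk⟩)⟩

theorem exists_setup : ∃ B : Base KK Om, Setup B := by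
  obtain ⟨nm, hnm⟩ := exists_nm
  have hne : Nonempty Om := by
    rw [← mk_ne_zero_iff, mk_Om]
    exact (aleph_pos 1).ne'
  obtain ⟨o⟩ : Nonempty Om := hne
  obtain ⟨cls, h1, h2, h3⟩ := exists_ulam (K := KK) om_cnt om_unc ((wellFounded_lt (α := Om)).min Set.univ ⟨o, trivial⟩)
  set b : Om := (wellFounded_lt (α := Om)).min Set.univ ⟨o, trivial⟩ with hb
  have hbmin : ∀ x, ¬ x < b := fun x hx =>
    (wellFounded_lt (α := Om)).not_lt_min Set.univ (x := x) trivial hx
  have hcls : ∀ x, IsLim x → cls x < x := by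
    intro x hx
    by_cases h : cls x = b
    · rw [h]
      obtain ⟨y, hy⟩ := hx.1
      exact (not_lt.1 (hbmin y)).trans_lt hy
    · exact h2 x h
  refine ⟨⟨cls, fun x γ => kap γ = cls x ∧ (IsLim x → γ < x), fun x => cls x ≠ b, nm⟩, ?_⟩
  exact {
    cnt := om_cnt
    unc := om_unc
    card := mk_Om.le
    hyp := {
      col_cls := fun h h' => h.1.symm.trans h'.1
      col_cnt := fun x => (kap_cnt (cls x)).mono fun γ h => h.1
      lad_unb := by
        intro θ
        obtain ⟨i, hi, hib, hs⟩ := h3 θ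
        exact ⟨i, hi, hs, fun α h => by
          change cls α ≠ b
          rw [show cls α = i from h]
          exact hib⟩ }
    lim := fun x hx => by
      by_contra hcon
      exact hx (h1 x hcon)
    inf := by
      intro x
      refine (Set.infinite_range_of_injective (kap_inj (cls x))).mono ?_
      rintro _ ⟨k, rfl⟩
      refine ⟨kap_mem _ _, fun hx => ?_⟩
      have h := (lt_lim hx).1 (hcls x hx)
      exact (lt_lim hx).2 (by simpa using h)
    reg := fun x γ hx h => h.2 hx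
    alt := by
      intro x hx β hβ
      have hlim : IsLim x := by
        by_contra hcon
        exact hx (h1 x hcon)
      refine ⟨toLex ((ofLex β).1, (ofLex β).2 + 1), ?_, ?_, ?_⟩
      · obtain ⟨⟨l, n⟩, rfl⟩ := toLex.surjective β
        rw [Prod.Lex.toLex_lt_toLex]
        exact Or.inr ⟨rfl, Nat.lt_succ_self _⟩
      · have h := (lt_lim hlim).1 hβ
        exact (lt_lim hlim).2 (by simpa using h)
      · simp only
        rw [h1]
        · exact fun h => hx h.symm
        · intro hc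
          have := om_lim hc
          simp at this
    book := hnm
    bdd := kk_bdd }

end Pool.Agent.Lib_helper27.H
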