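import Pool.Agent.Lib_helper27.H.Gen

/-!
# The generic graph is a Hajnal–Máté graph
-/

set_option linter.unusedSectionVars false

namespace Pool.Agent.Lib_helper27.H

open Fml V

section

variable {K Ω : Type} [LinearOrder Ω] [LinearOrder K] [WellFoundedLT K] [WellFoundedLT Ω]

theorem exists_cnt (S : Finset Ω) (n : ℕ) (hn : n < S.card) :
    ∃ x ∈ S, (S.filter (· < x)).card = n := by
  classical
  induction hS : S.card generalizing S with
  | zero => omega
  | succ k ih =>
    have hne : S.Nonempty := Finset.card_pos.1 (by omega)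
    by_cases hk : n = k
    · refine ⟨S.max' hne, S.max'_mem hne, ?_⟩
      have : S.filter (· < S.max' hne) = S.erase (S.max' hne) := by
        ext y
        simp only [Finset.mem_filter, Finset.mem_erase]
        constructor
        · exact fun h => ⟨h.2.ne, h.1⟩
        · exact fun h => ⟨h.2, lt_of_le_of_ne (S.le_max' y h.2) h.1⟩
      rw [this, Finset.card_erase_of_mem (S.max'_mem hne)]
      omega
    · have hc : (S.erase (S.max' hne)).card = k := by
        rw [Finset.card_erase_of_mem (S.max'_mem hne)]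
        omega
      obtain ⟨x, hx, hx'⟩ := ih (S.erase (S.max' hne)) (by omega) hc
      refine ⟨x, Finset.mem_of_mem_erase hx, ?_⟩
      rw [← hx']
      congr 1
      ext y
      simp only [Finset.mem_filter, Finset.mem_erase]
      constructor
      · rintro ⟨h1, h2⟩
        refine ⟨⟨?_, h1⟩, h2⟩
        rintro rfl
        exact absurd (S.le_max' x (Finset.mem_of_mem_erase hx)) (not_le.2 h2)
      · exact fun h => ⟨h.1.2, h.2⟩

variable {B : Base K Ω}

open Classical in
/-- the number of elements of the ladder of `α` below `β` -/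
noncomputable def cntL (r : Raw K Ω) (α β : Ω) : ℕ :=
  ((r.a.filter fun t => t.1 = α).image fun t => t.2).filter (· < β) |>.card

theorem mem_lad {r : Raw K Ω} {α β : Ω} [DecidableEq Ω] :
    β ∈ ((r.a.filter fun t => t.1 = α).image fun t => t.2) ↔ (α, β) ∈ r.a := by
  simp

theorem cntL_eq {q r : Raw K Ω} (h : q ≤ r) {α β : Ω} (hβ : (α, β) ∈ r.a) :
    cntL q α β = cntL r α β := by
  classical
  unfold cntL
  congr 1
  ext z
  simp only [Finset.mem_filter]
  rw [mem_lad, mem_lad]
  refine and_congr_left fun hz => ⟨fun h1 => ?_, fun h1 => h.1 h1⟩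
  by_contra hcon
  exact lt_asymm hz (h.2.2 α z β h1 hcon hβ)

theorem cntL_lt {r : Raw K Ω} {α β β' : Ω} (h : (α, β) ∈ r.a) (hβ : β < β') :
    cntL r α β < cntL r α β' := by
  classical
  refine Finset.card_lt_card ?_
  rw [Finset.ssubset_iff_of_subset]
  · refine ⟨β, ?_, ?_⟩
    · rw [Finset.mem_filter, mem_lad]
      exact ⟨h, hβ⟩
    · rw [Finset.mem_filter]
      exact fun h => lt_irrefl _ h.2
  · intro z hz
    rw [Finset.mem_filter] at hz ⊢
    exact ⟨hz.1, hz.2.trans hβ⟩

variable (hB : Setup B)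

include hB

theorem exists_level (α : Ω) (hα : B.lad α) (n : ℕ) (p : Cnd B) :
    ∃ q, q ≤ p ∧ ∃ β, (α, β) ∈ q.1.a ∧ cntL q.1 α β = n := by
  classical
  have h1 : ∀ n : ℕ, ∃ q, q ≤ p ∧ n < (((q.1.a.filter fun t => t.1 = α).image fun t => t.2)).card := by
    intro n
    induction n with
    | zero =>
      obtain ⟨δ, hδ⟩ := (hB.lim α hα).1
      obtain ⟨q, hq, β, _, hβ⟩ := add_lad hB p hα hδ
      refine ⟨q, hq, Finset.card_pos.2 ⟨β, mem_lad.2 hβ⟩⟩
    | succ n ih =>
      obtain ⟨q, hq, hn⟩ := ih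
      have hne : (((q.1.a.filter fun t => t.1 = α).image fun t => t.2)).Nonempty :=
        Finset.card_pos.1 (by omega)
      have hm := Finset.max'_mem _ hne
      have hlt := ((valid_iff.1 q.2).1.1 _ _ (mem_lad.1 hm)).2.1
      obtain ⟨q', hq', β, hβ, hβ'⟩ := add_lad hB q hα hlt
      refine ⟨q', hq'.trans hq, ?_⟩
      have h2 : insert β ((q.1.a.filter fun t => t.1 = α).image fun t => t.2) ⊆
          ((q'.1.a.filter fun t => t.1 = α).image fun t => t.2) := by
        intro x hx
        rcases Finset.mem_insert.1 hx with rfl | hx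
        · exact mem_lad.2 hβ'
        · exact mem_lad.2 (hq'.1 (mem_lad.1 hx))
      have h3 := Finset.card_le_card h2
      rw [Finset.card_insert_of_notMem] at h3
      · omega
      · intro hcon
        exact absurd (Finset.le_max' _ _ hcon) (not_le.2 hβ)
  obtain ⟨q, hq, hn⟩ := h1 n
  obtain ⟨β, hβ, hβ'⟩ := exists_cnt _ n hn
  exact ⟨q, hq, β, mem_lad.1 hβ, hβ'⟩

omit hB in
theorem low_iff {r : Cnd B} {α : Ω} {a N : Name (Cnd B)} (ha : feq a (onm (Cnd B) α) r)
    (hN : Fc r (isLowNbr (En B) a N)) {b : Name (Cnd B)} {s : Cnd B} (hs : s ≤ r) :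
    fmem b N s ↔ Loc s fun t => ∃ β, (α, β) ∈ t.1.a ∧ feq b (onm (Cnd B) β) t := by
  have h1 : fmem b N s ↔ fmem b a s ∧ Fc s (adj (En B) b a) :=
    (forces_iff nf_basic).1 (hN b) s hs
  rw [h1]
  constructor
  · rintro ⟨h2, h3⟩
    refine (fc_adj.1 h3).bind ?_
    rintro t ht ⟨α', β', h4, h5⟩
    have hat : feq a (onm (Cnd B) α) t := feq_mono (ht.trans hs) ha
    have h6 := (fmem_onm.1 (fmem_congr_right hat (fmem_mono ht h2)))
    refine h6.imp ?_
    rintro w hw ⟨y, hy, hby⟩
    rcases h5 with ⟨h5, h7⟩ | ⟨h5, h7⟩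
    · have e1 := onm_inj (feq_trans (feq_symm (feq_mono hw h5)) hby)
      have e2 := onm_inj (feq_trans (feq_symm h7) hat)
      subst e1 e2
      exact (lt_asymm ((valid_iff.1 t.2).1.1 _ _ h4).2.1 hy).elim
    · have e2 := onm_inj (feq_trans (feq_symm h7) hat)
      subst e2
      exact ⟨β', hw.1 h4, feq_mono hw h5⟩
  · intro h
    constructor
    · refine fmem_dense (h.imp ?_)
      rintro t ht ⟨β, hβ, hb⟩
      exact fmem_congr_left (feq_symm hb) (fmem_congr_right (feq_symm (feq_mono (ht.trans hs) ha))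
        (onm_mem ((valid_iff.1 t.2).1.1 _ _ hβ).2.1 t))
    · refine fc_adj.2 (h.imp ?_)
      rintro t ht ⟨β, hβ, hb⟩
      exact ⟨α, β, hβ, Or.inr ⟨hb, feq_mono (ht.trans hs) ha⟩⟩

theorem en_low (p : Cnd B) : Fc p (ball (Wn B) fun a => all fun N => imp (isLowNbr (En B) a N)
    (Fml.or (isFin (wn B) N) (and (isTypeOmega (wn B) N) (isCofinal a N)))) := by
  classical
  refine (forces_ball nf_basic).2 fun a q hq ha => ?_
  intro N
  refine (forces_imp nf_basic).2 fun r hr hN => ?_
  refine Forces.dense nf_basic ?_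
  refine ((fmem_oall.1 ha).mono hr).imp ?_
  rintro s hs ⟨α, he⟩
  have hN' := Forces.mono nf_basic hs hN
  have hlow : ∀ (b : Name (Cnd B)) (t : Cnd B), t ≤ s → (fmem b N t ↔ Loc t fun u => ∃ β,
      (α, β) ∈ u.1.a ∧ feq b (onm (Cnd B) β) u) := fun b t ht => low_iff he hN' ht
  refine forces_or.2 (Loc.pure fun t ht => ?_)
  by_cases hα : B.lad α
  · right
    let Q : Ω × ℕ → Cnd B → Prop := fun i r => (α, i.1) ∈ r.1.a ∧ cntL r.1 α i.1 = i.2
    have hQ : Down Q := by
      rintro ⟨β, n⟩ r r' hr' ⟨h1, h2⟩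
      exact ⟨hr'.1 h1, (cntL_eq hr' h1).trans h2⟩
    let d : Ω × ℕ → Name (Cnd B) := fun i => onm (Cnd B) i.2
    let v : Ω × ℕ → Name (Cnd B) := fun i => onm (Cnd B) i.1
    have hf : Fc t (isFunc (mkFn (Ω × ℕ) d v Q) (wn B) N) := by
      refine fc_isFunc hQ ?_ ?_ ?_
      · rintro ⟨β, n⟩ r hr ⟨h1, h2⟩
        refine ⟨onm_mem_oall n r, (hlow _ r (hr.trans ht)).2 ?_⟩
        exact Loc.pure fun u hu => ⟨β, hu.1 h1, feq_refl _ _⟩
      · intro x r hr hx
        refine (fmem_oall.1 hx).bind ?_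
        rintro u hu ⟨n, hn⟩ w hw
        obtain ⟨w', hw', β, h1, h2⟩ := exists_level hB α hα n w
        exact ⟨w', hw', ⟨β, n⟩, ⟨h1, h2⟩, feq_mono (hw'.trans hw) hn⟩
      · rintro ⟨β, n⟩ ⟨β', n'⟩ r hr ⟨h1, h2⟩ ⟨h3, h4⟩ h5
        have h6 : n = n' := onm_inj h5
        subst h6
        have h2' : cntL r.1 α β = n := h2
        have h4' : cntL r.1 α β' = n := h4
        have h7 : β = β' := by
          rcases lt_trichotomy β β' with h | h | h
          · have : cntL r.1 α β < cntL r.1 α β' := cntL_lt h1 h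
            omega
          · exact h
          · have : cntL r.1 α β' < cntL r.1 α β := cntL_lt h3 h
            omega
        rw [h7]
        exact feq_refl _ _
    have hi : Fc t (isInj (mkFn (Ω × ℕ) d v Q) (wn B) N) := by
      refine fc_isInj hQ hf ?_
      rintro ⟨β, n⟩ ⟨β', n'⟩ r hr ⟨h1, h2⟩ ⟨h3, h4⟩ h5
      have h6 : β = β' := onm_inj h5
      subst h6
      have h7 : n = n' := h2.symm.trans h4
      rw [h7]
      exact feq_refl _ _
    have hb : Fc t (isBij (mkFn (Ω × ℕ) d v Q) (wn B) N) := by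
      refine fc_isBij hQ hi ?_
      intro y r hr hy
      refine ((hlow _ r (hr.trans ht)).1 hy).imp ?_
      rintro u hu ⟨β, h1, h2⟩
      exact ⟨(β, cntL u.1 α β), ⟨h1, rfl⟩, onm_mem_oall _ u, h2⟩
    refine ⟨forces_ex.2 (Loc.pure fun u hu => ⟨mkFn (Ω × ℕ) d v Q, Forces.mono nf_basic hu hb, ?_⟩),
      ?_⟩
    · intro m n x y
      refine (forces_imp nf_basic).2 fun u1 hu1 h => ?_
      refine fmem_dense ?_
      refine ((fc_app hQ).1 h.2.1).bind ?_
      rintro u2 hu2 ⟨⟨β, k⟩, hQ1, e1, e2⟩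
      refine ((fc_app hQ).1 (Forces.mono nf_basic hu2 h.2.2)).imp ?_
      rintro u3 hu3 ⟨⟨β', k'⟩, hQ2, e3, e4⟩
      have hQ1' := hQ _ _ _ hu3 hQ1
      have hmn : fmem m n u3 := fmem_mono (hu3.trans hu2) h.1
      have h8 : fmem (onm (Cnd B) k) (onm (Cnd B) k') u3 :=
        fmem_congr_left (feq_mono hu3 e1) (fmem_congr_right e3 hmn)
      rw [onm_mem_iff] at h8
      have h9 : β < β' := by
        by_contra hcon
        push Not at hcon
        rcases hcon.lt_or_eq with h10 | h10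
        · have := cntL_lt hQ2.1 h10
          have h11 := hQ1'.2
          have h12 := hQ2.2
          simp only at h11 h12
          omega
        · subst h10
          have h11 := hQ1'.2
          have h12 := hQ2.2
          simp only at h11 h12
          omega
      exact fmem_congr_left (feq_symm (feq_mono hu3 e2)) (fmem_congr_right (feq_symm e4)
        (onm_mem h9 u3))
    · refine (forces_ball nf_basic).2 fun c u hu hc => ?_
      refine forces_bex.2 ?_
      refine (fmem_onm.1 (fmem_congr_right (feq_mono (hu.trans ht) he) hc)).bind ?_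
      rintro u1 hu1 ⟨δ, hδ, hcδ⟩ u2 hu2
      obtain ⟨u3, hu3, β, hβ, hβ'⟩ := add_lad hB u2 hα hδ
      have hle : u3 ≤ u1 := hu3.trans hu2
      refine ⟨u3, hu3, onm (Cnd B) β, ?_, ?_⟩
      · exact (hlow _ u3 (hle.trans (hu1.trans (hu.trans ht)))).2
          (Loc.pure fun w hw => ⟨β, hw.1 hβ', feq_refl _ _⟩)
      · refine forces_or.2 (Loc.pure fun w hw => Or.inl ?_)
        exact fmem_congr_left (feq_symm (feq_mono (hw.trans hle) hcδ)) (onm_mem hβ w)
  · left
    refine forces_bex.2 (Loc.pure fun u hu => ⟨onm (Cnd B) 0, onm_mem_oall 0 u, ?_⟩)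
    have hno : ∀ (b : Name (Cnd B)) (w : Cnd B), w ≤ s → ¬ fmem b N w := by
      intro b w hw hb
      obtain ⟨w', _, β, hβ, _⟩ := ((hlow b w hw).1 hb).exists
      exact hα ((valid_iff.1 w'.2).1.1 _ _ hβ).1
    have hno' : ∀ (b : Name (Cnd B)) (w : Cnd B), ¬ fmem b (onm (Cnd B) (0 : ℕ)) w := by
      intro b w hb
      obtain ⟨w', _, k, hk, _⟩ := (fmem_onm.1 hb).exists
      omega
    let Q : PEmpty → Cnd B → Prop := fun _ _ => True
    have hQ : Down Q := fun i => i.elim
    have hD : Fc u (isFunc (mkFn PEmpty (fun i => i.elim) (fun i => i.elim) Q)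
        (onm (Cnd B) (0 : ℕ)) N) := fc_isFunc hQ (fun i => i.elim)
      (fun x q _ hx => (hno' x q hx).elim) (fun i => i.elim)
    refine forces_ex.2 (Loc.pure fun w hw => ⟨_, Forces.mono nf_basic hw
      (fc_isBij hQ (fc_isInj hQ hD fun i => i.elim) fun y q hq' hy => ?_)⟩)
    exact (hno y q (hq'.trans (hu.trans ht)) hy).elim

theorem en_hm (p : Cnd B) : Fc p (isHM (wn B) (Wn B) (En B)) :=
  ⟨en_graph p, en_low hB p, en_chi hB p⟩

end

end Pool.Agent.Lib_helper27.H
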