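import Pool.Agent.Lib_helper27.H.Poset

/-!
# The preservation lemma
-/

set_option linter.unusedSectionVars false

namespace Pool.Agent.Lib_helper27.H

section

variable {K Ω : Type} [LinearOrder Ω] [LinearOrder K] [WellFoundedLT K] [WellFoundedLT Ω]

/-- `(A, θ)` is in `C` and has many smaller pieces in `Q ζ` for the `ζ ∈ A` satisfying `L`. -/
def Step (C : Set K → Ω → Prop) (Q : K → Set K → Ω → Prop) (L : K → Prop) (A : Set K) (θ : Ω) :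
    Prop :=
  C A θ ∧ ∀ ζ ∈ A, L ζ → ∀ d : Finset K, ↑d ⊆ A → ∀ e : Finset Ω, (∀ x ∈ e, x < θ) →
    ∃ A' θ', Q ζ A' θ' ∧ ↑d ⊆ A' ∧ A' ⊆ A ∧ (∀ x ∈ e, x < θ') ∧ θ' < θ

/-- the hierarchy of pieces -/
noncomputable def CC (C : Set K → Ω → Prop) : K → Set K → Ω → Prop :=
  (wellFounded_lt (α := K)).fix fun ν ih A θ =>
    C A θ ∧ ∀ ζ ∈ A, ∀ h : ζ < ν, ∀ d : Finset K, ↑d ⊆ A → ∀ e : Finset Ω, (∀ x ∈ e, x < θ) →
    ∃ A' θ', ih ζ h A' θ' ∧ ↑d ⊆ A' ∧ A' ⊆ A ∧ (∀ x ∈ e, x < θ') ∧ θ' < θ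

theorem cc_iff {C : Set K → Ω → Prop} {ν : K} {A : Set K} {θ : Ω} :
    CC C ν A θ ↔ Step C (CC C) (· < ν) A θ := by
  rw [CC, WellFounded.fix_eq]
  rfl

section club

variable (hc : ∀ θ : Ω, (Set.Iio θ).Countable) (hu : ¬ (Set.univ : Set Ω).Countable)

include hc hu

theorem club_step {C : Set K → Ω → Prop} (hC : Club C) {Q : K → Set K → Ω → Prop} {L : K → Prop}
    (h : ∀ ζ, L ζ → Club (Q ζ)) : Club (Step C Q L) := by
  have h1 : ∀ i : K × Finset K × Finset Ω, L i.1 → ∃ A' θ', A'.Countable ∧ Q i.1 A' θ' ∧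
      ↑i.2.1 ⊆ A' ∧ ∀ x ∈ i.2.2, x < θ' := by
    intro i hi
    obtain ⟨θ₀, hθ₀⟩ := exists_bound hc hu i.2.2.countable_toSet
    obtain ⟨A, θ, h1, h2, h3, h4⟩ := Club.nonempty hc hu
      ((h i.1 hi).and (Club.const i.2.1.countable_toSet θ₀))
    exact ⟨A, θ, h1, h2, h3, fun x hx => (hθ₀ x hx).trans h4⟩
  have h2 : ∀ i : K × Finset K × Finset Ω, Club fun A θ => L i.1 → ∃ A' θ', Q i.1 A' θ' ∧
      ↑i.2.1 ⊆ A' ∧ A' ⊆ A ∧ (∀ x ∈ i.2.2, x < θ') ∧ θ' < θ := by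
    intro i
    by_cases hi : L i.1
    · obtain ⟨A', θ', h1, h2, h3, h4⟩ := h1 i hi
      exact (Club.const h1 θ').mono fun A θ _ h _ => ⟨A', θ', h2, h3, h.1, h4, h.2⟩
    · exact hC.mono fun _ _ _ _ h => (hi h).elim
  refine (hC.and (Club.diag h2)).mono ?_
  rintro A θ _ ⟨h3, h4⟩
  refine ⟨h3, ?_⟩
  intro ζ hζ hL d hd e he
  refine h4 (ζ, d, e) ?_ hL
  simp only [in_prod, in_K, in_finset, in_Ω]
  exact ⟨hζ, fun k hk => hd hk, he⟩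

theorem club_cc {C : Set K → Ω → Prop} (hC : Club C) (ν : K) : Club (CC C ν) := by
  induction ν using WellFoundedLT.induction with
  | ind ν ih =>
    refine (club_step hc hu (L := (· < ν)) hC ih).mono ?_
    intro A θ _ h
    exact cc_iff.2 h

end club

variable {B : Base K Ω}

/-- goodness at a piece -/
def Good (B : Base K Ω) (A : Set K) (θ : Ω) (p : Raw K Ω) : Prop :=
  ∀ ζ ∈ A, ∀ y γ, (ζ, y, γ) ∈ p.c → θ < y → Dec B ζ (res p ζ) y θ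

/-- the special point of the piece does not occur -/
def NoSpec (A : Set K) (θ : Ω) (p : Raw K Ω) : Prop := ∀ ζ ∈ A, ∀ γ, (ζ, θ, γ) ∉ p.c

theorem clean_step {C : Set K → Ω → Prop} {L : K → Prop} {A : Set K} {θ α : Ω} {p : Raw K Ω}
    (hs : Step C (CC C) L A θ) (hp : Valid B p) (hg : Good B A θ p) (hgα : GoodAll B {α} p)
    (hL : ∀ ζ ∈ A, ∀ γ, (ζ, θ, γ) ∈ p.c → L ζ) : NoSpec A θ p ∨
    ∃ ζ, L ζ ∧ ∃ A' θ' p', CC C ζ A' θ' ∧ A' ⊆ A ∧ θ' ≤ θ ∧ Valid B p' ∧ p' ≤ p ∧ Good B A' θ' p' ∧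
      GoodAll B {α} p' ∧ ∀ ζ' ∈ A', ∀ γ, (ζ', θ', γ) ∈ p'.c → ζ' < ζ := by
  classical
  rcases (p.c.filter fun t => t.1 ∈ A ∧ t.2.1 = θ).eq_empty_or_nonempty with he | hne
  · left
    intro ζ hζ γ h
    have : (ζ, θ, γ) ∈ p.c.filter fun t => t.1 ∈ A ∧ t.2.1 = θ := Finset.mem_filter.2 ⟨h, hζ, rfl⟩
    rw [he] at this
    simp at this
  · right
    obtain ⟨⟨ζ₀, x₀, γ₀⟩, ht₀, hmax⟩ := Finset.exists_max_image _ (fun t => t.1) hne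
    rw [Finset.mem_filter] at ht₀
    obtain ⟨ht₀, hζA, hx₀⟩ := ht₀
    simp only at hζA hx₀
    subst hx₀
    have hmax' : ∀ ζ ∈ A, ∀ γ, (ζ, x₀, γ) ∈ p.c → ζ ≤ ζ₀ := fun ζ hζ γ h =>
      hmax (ζ, x₀, γ) (Finset.mem_filter.2 ⟨h, hζ, rfl⟩)
    have hLζ : L ζ₀ := hL ζ₀ hζA γ₀ ht₀
    obtain ⟨A', θ', hQ, hd, hA', he, hθ'⟩ := hs.2 ζ₀ hζA hLζ ((p.c.image fun t => t.1).filter (· ∈ A))
      (by intro k hk; simpa using (Finset.mem_filter.1 hk).2)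
      ((p.c.image fun t => t.2.1).filter (· < x₀)) (by intro x hx; exact (Finset.mem_filter.1 hx).2)
    have he' : ∀ ζ y γ, (ζ, y, γ) ∈ p.c → y < x₀ → y < θ' := fun ζ y γ h hy =>
      he y (Finset.mem_filter.2 ⟨Finset.mem_image.2 ⟨_, h, rfl⟩, hy⟩)
    obtain ⟨q1, h1, h2, h3⟩ := dec_many ζ₀ {(x₀, θ')} (res p ζ₀) (valid_res hp ζ₀)
    have h3' : Dec B ζ₀ q1 x₀ θ' := h3 (x₀, θ') (Finset.mem_singleton_self _) hθ'
    obtain ⟨q2, h4, h5, h6⟩ := mg_below {θ', α} ζ₀ q1 h1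
    have hle : q2 ≤ res p ζ₀ := h5.trans h2
    have hal := amal_le_left hle
    have har := amal_le_right hle
    refine ⟨ζ₀, hLζ, A', θ', amal q2 p, hQ, hA', hθ'.le, amal_valid h4 hp hle, har, ?_, ?_, ?_⟩
    · intro ζ hζ y γ ht hy
      rcases mem_amal_c.1 ht with ht | ht
      · exact (h6 θ' (by simp) ζ y γ ht hy).mono (res_mono hal _) le_rfl
      · rcases lt_trichotomy y x₀ with hlt | heq | hgt
        · exact (lt_asymm hy (he' ζ y γ ht hlt)).elim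
        · subst heq
          rcases (hmax' ζ (hA' hζ) γ ht).lt_or_eq with hlt | heq
          · have : (ζ, y, γ) ∈ q2.c := hle.2.1 (mem_res.2 ⟨ht, hlt⟩)
            exact (h6 θ' (by simp) ζ y γ this hy).mono (res_mono hal _) le_rfl
          · subst heq
            refine h3'.mono ?_ le_rfl
            exact (res_mono hal _).trans ((res_le_of_le le_rfl h4.2).trans h5)
        · exact (hg ζ (hA' hζ) y γ ht hgt).mono (res_mono har _) hθ'.le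
    · intro β hβ ζ y γ ht hy
      rw [Finset.mem_singleton] at hβ
      subst hβ
      rcases mem_amal_c.1 ht with ht | ht
      · exact (h6 β (by simp) ζ y γ ht hy).mono (res_mono hal _) le_rfl
      · exact (hgα β (by simp) ζ y γ ht hy).mono (res_mono har _) le_rfl
    · intro ζ' _ γ ht
      rcases mem_amal_c.1 ht with ht | ht
      · exact h4.2 _ ht
      · exact (lt_irrefl _ (he' _ _ _ ht hθ')).elim

theorem clean {C : Set K → Ω → Prop} {α : Ω} (ν : K) : ∀ (A : Set K) (θ : Ω) (p : Raw K Ω),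
    CC C ν A θ → Valid B p → Good B A θ p → GoodAll B {α} p →
    (∀ ζ ∈ A, ∀ γ, (ζ, θ, γ) ∈ p.c → ζ < ν) →
    ∃ A' θ' p', C A' θ' ∧ A' ⊆ A ∧ θ' ≤ θ ∧ Valid B p' ∧ p' ≤ p ∧ Good B A' θ' p' ∧
      GoodAll B {α} p' ∧ NoSpec A' θ' p' := by
  induction ν using WellFoundedLT.induction with
  | ind ν ih =>
    intro A θ p hcc hp hg hgα hL
    rcases clean_step (cc_iff.1 hcc) hp hg hgα hL with h | ⟨ζ, hζ, A', θ', p', h1, h2, h3, h4, h5,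
      h6, h7, h8⟩
    · exact ⟨A, θ, p, (cc_iff.1 hcc).1, subset_rfl, le_rfl, hp, le_rfl, hg, hgα, h⟩
    · obtain ⟨A'', θ'', p'', a1, a2, a3, a4, a5, a6, a7, a8⟩ := ih ζ hζ A' θ' p' h1 h4 h6 h7 h8
      exact ⟨A'', θ'', p'', a1, a2.trans h2, a3.trans h3, a4, a5.trans h5, a6, a7, a8⟩

theorem clean_top {C : Set K → Ω → Prop} {α : Ω} {A : Set K} {θ : Ω} {p : Raw K Ω}
    (hs : Step C (CC C) (fun _ => True) A θ) (hp : Valid B p) (hg : Good B A θ p)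
    (hgα : GoodAll B {α} p) :
    ∃ A' θ' p', C A' θ' ∧ A' ⊆ A ∧ θ' ≤ θ ∧ Valid B p' ∧ p' ≤ p ∧ Good B A' θ' p' ∧
      GoodAll B {α} p' ∧ NoSpec A' θ' p' := by
  rcases clean_step hs hp hg hgα (fun _ _ _ _ => trivial) with h | ⟨ζ, hζ, A', θ', p', h1, h2, h3, h4,
    h5, h6, h7, h8⟩
  · exact ⟨A, θ, p, hs.1, subset_rfl, le_rfl, hp, le_rfl, hg, hgα, h⟩
  · obtain ⟨A'', θ'', p'', a1, a2, a3, a4, a5, a6, a7, a8⟩ := clean ζ A' θ' p' h1 h4 h6 h7 h8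
    exact ⟨A'', θ'', p'', a1, a2.trans h2, a3.trans h3, a4, a5.trans h5, a6, a7, a8⟩

/-- The hypotheses on the parameters. -/
structure Hyp (B : Base K Ω) : Prop where
  col_cls : ∀ {x y γ}, B.col x γ → B.col y γ → B.cls x = B.cls y
  col_cnt : ∀ x, {γ | B.col x γ}.Countable
  lad_unb : ∀ θ, ∃ i, θ ≤ i ∧ Stat (fun (_ : Set K) (α : Ω) => B.cls α = i) ∧ ∀ α, B.cls α = i → B.lad α

/-- Finite data of a condition over a piece. -/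
structure Data (K Ω : Type) where
  /-- value of the name for a colour -/
  n : ℕ
  /-- class -/
  j : Ω
  /-- trace -/
  ρ : Raw K Ω
  /-- stages -/
  u : Finset K
  /-- bound for the neighbourhoods -/
  V : Finset Ω
  /-- classes -/
  F : Finset Ω

noncomputable instance : Small K Ω (Data K Ω) :=
  Small.ofInj (D' := ℕ × Ω × Raw K Ω × Finset K × Finset Ω × Finset Ω)
    (fun δ => (δ.n, δ.j, δ.ρ, δ.u, δ.V, δ.F)) (by
      rintro ⟨a, b, c, d, e, f⟩ ⟨a', b', c', d', e', f'⟩ h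
      simp only [Prod.mk.injEq] at h
      obtain ⟨rfl, rfl, rfl, rfl, rfl, rfl⟩ := h
      rfl)

theorem in_data {A : Set K} {θ : Ω} {δ : Data K Ω} : In A θ δ ↔
    δ.j < θ ∧ (In A θ δ.ρ.a ∧ In A θ δ.ρ.c) ∧ ↑δ.u ⊆ A ∧ (∀ x ∈ δ.V, x < θ) ∧ ∀ x ∈ δ.F, x < θ := by
  have : In A θ δ ↔ In A θ ((δ.n, δ.j, δ.ρ, δ.u, δ.V, δ.F) :
    ℕ × Ω × Raw K Ω × Finset K × Finset Ω × Finset Ω) := Iff.rfl
  rw [this]
  simp only [in_prod, in_ℕ, in_Ω, in_finset, in_K, in_raw]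
  constructor
  · rintro ⟨_, h1, h2, h3, h4, h5⟩
    exact ⟨h1, h2, h3, h4, h5⟩
  · rintro ⟨h1, h2, h3, h4, h5⟩
    exact ⟨trivial, h1, h2, h3, h4, h5⟩

/-- `q ≤ pf β` has the data `δ` over the piece `(A, β)`. -/
structure SP (B : Base K Ω) (pf : Ω → Raw K Ω) (nf : Ω → ℕ) (δ : Data K Ω) (A : Set K) (β : Ω)
    (q : Raw K Ω) : Prop where
  cls : B.cls β = δ.j
  n : nf β = δ.n
  valid : Valid B q
  le : q ≤ pf β
  a1 : ∀ x z, (x, z) ∈ q.a → x < β → (x, z) ∈ δ.ρ.a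
  a2 : δ.ρ.a ⊆ q.a
  c1 : ∀ ζ x γ, (ζ, x, γ) ∈ q.c → ζ ∈ A → x < β → (ζ, x, γ) ∈ δ.ρ.c
  c2 : δ.ρ.c ⊆ q.c
  u : ∀ ζ x γ, (ζ, x, γ) ∈ q.c → ζ ∈ A → ζ ∈ δ.u
  F : ∀ ζ x γ, (ζ, x, γ) ∈ q.c → B.cls x < β → B.cls x ∈ δ.F
  V : ∀ ζ x γ, (ζ, x, γ) ∈ q.c → ζ ∈ A → β < x → ∀ y < β, y ∉ δ.V → NA B ζ (res q ζ) y x

/-- Parameters for the reflection. -/
structure Rf (K Ω : Type) where
  /-- value of the name for a colour -/
  n : ℕ
  /-- trace -/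
  U : Raw K Ω
  /-- bound for the neighbourhoods -/
  W : Finset Ω
  /-- stages -/
  u : Finset K
  /-- classes -/
  e : Finset Ω

noncomputable instance : Small K Ω (Rf K Ω) :=
  Small.ofInj (D' := ℕ × Raw K Ω × Finset Ω × Finset K × Finset Ω)
    (fun δ => (δ.n, δ.U, δ.W, δ.u, δ.e)) (by
      rintro ⟨a, b, c, d, e⟩ ⟨a', b', c', d', e'⟩ h
      simp only [Prod.mk.injEq] at h
      obtain ⟨rfl, rfl, rfl, rfl, rfl⟩ := h
      rfl)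

theorem in_rf {A : Set K} {θ : Ω} {δ : Rf K Ω} : In A θ δ ↔
    (In A θ δ.U.a ∧ In A θ δ.U.c) ∧ (∀ x ∈ δ.W, x < θ) ∧ ↑δ.u ⊆ A ∧ ∀ x ∈ δ.e, x < θ := by
  have : In A θ δ ↔ In A θ ((δ.n, δ.U, δ.W, δ.u, δ.e) :
    ℕ × Raw K Ω × Finset Ω × Finset K × Finset Ω) := Iff.rfl
  rw [this]
  simp only [in_prod, in_ℕ, in_Ω, in_finset, in_K, in_raw]
  constructor
  · rintro ⟨_, h2, h3, h4, h5⟩
    exact ⟨h2, h3, h4, h5⟩
  · rintro ⟨h2, h3, h4, h5⟩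
    exact ⟨trivial, h2, h3, h4, h5⟩

/-- the data `δ` is compatible with the parameters `r` -/
structure Comp (r : Rf K Ω) (δ : Data K Ω) : Prop where
  n : δ.n = r.n
  e : δ.j ∉ r.e
  a1 : r.U.a ⊆ δ.ρ.a
  a2 : ∀ x z z', (x, z) ∈ r.U.a → (x, z') ∈ δ.ρ.a → (x, z') ∈ r.U.a
  c1 : r.U.c ⊆ δ.ρ.c
  c2 : ∀ ζ x γ, (ζ, x, γ) ∈ δ.ρ.c → ζ ∈ r.u → x ∈ r.W → (ζ, x, γ) ∈ r.U.c

/-- `δ` occurs at many pieces -/
def StatD (B : Base K Ω) (pf : Ω → Raw K Ω) (nf : Ω → ℕ) (δ : Data K Ω) : Prop :=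
  Stat fun A β => ∃ q, SP B pf nf δ A β q

end

end Pool.Agent.Lib_helper27.H
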