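import Pool.Agent.Lib_helper27.H.Club

/-!
# The finite conditions

A condition is a pair `(a, c)`: `a` is a finite set of pairs `(x, z)`, which say that `z` belongs to
the ladder of `x`, and `c` is a finite set of triples `(ζ, x, γ)`, which say that the colour of `x`
at stage `ζ` is `γ`.
-/

set_option linter.unusedSectionVars false

namespace Pool.Agent.Lib_helper27.H

/-- Raw conditions. -/
@[ext]
structure Raw (K Ω : Type) where
  /-- ladders -/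
  a : Finset (Ω × Ω)
  /-- colourings -/
  c : Finset (K × Ω × Ω)

section

variable {K Ω : Type} [LinearOrder Ω] [LinearOrder K]

noncomputable instance : Small K Ω (Raw K Ω) :=
  Small.ofInj (D' := Finset (Ω × Ω) × Finset (K × Ω × Ω)) (fun r => (r.a, r.c)) (by
    rintro ⟨a, c⟩ ⟨a', c'⟩ h
    simp only [Prod.mk.injEq] at h
    rw [h.1, h.2])

omit [LinearOrder K] in
theorem in_raw {A : Set K} {θ : Ω} {r : Raw K Ω} : In A θ r ↔ In A θ r.a ∧ In A θ r.c := by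
  have : In A θ r ↔ In A θ ((r.a, r.c) : Finset (Ω × Ω) × Finset (K × Ω × Ω)) := Iff.rfl
  rw [this, in_prod]

instance : Preorder (Raw K Ω) where
  le q p := p.a ⊆ q.a ∧ p.c ⊆ q.c ∧ ∀ x z z', (x, z) ∈ q.a → (x, z) ∉ p.a → (x, z') ∈ p.a → z' < z
  le_refl p := ⟨subset_rfl, subset_rfl, fun _ _ _ h h' => (h' h).elim⟩
  le_trans r q p h h' := by
    refine ⟨h'.1.trans h.1, h'.2.1.trans h.2.1, ?_⟩
    intro x z z' h1 h2 h3
    by_cases hq : (x, z) ∈ q.a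
    · exact h'.2.2 x z z' hq h2 h3
    · exact h.2.2 x z z' h1 hq (h'.1 h3)

theorem le_def {q p : Raw K Ω} : q ≤ p ↔ p.a ⊆ q.a ∧ p.c ⊆ q.c ∧
    ∀ x z z', (x, z) ∈ q.a → (x, z) ∉ p.a → (x, z') ∈ p.a → z' < z := Iff.rfl

/-- restriction to the stages below `ζ` -/
def res (r : Raw K Ω) (ζ : K) : Raw K Ω := ⟨r.a, r.c.filter fun t => t.1 < ζ⟩

theorem mem_res {r : Raw K Ω} {ζ ζ' : K} {x γ : Ω} :
    (ζ', x, γ) ∈ (res r ζ).c ↔ (ζ', x, γ) ∈ r.c ∧ ζ' < ζ := by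
  simp [res]

theorem res_mono {q p : Raw K Ω} (h : q ≤ p) (ζ : K) : res q ζ ≤ res p ζ :=
  ⟨h.1, Finset.filter_subset_filter _ h.2.1, h.2.2⟩

theorem le_res (p : Raw K Ω) (ζ : K) : p ≤ res p ζ :=
  ⟨subset_rfl, Finset.filter_subset _ _, fun _ _ _ h h' => (h' h).elim⟩

theorem res_res_le {p : Raw K Ω} {ζ ζ' : K} (h : ζ ≤ ζ') : res p ζ' ≤ res p ζ :=
  ⟨subset_rfl, fun _ ht => Finset.mem_filter.2 ⟨(Finset.mem_filter.1 ht).1,
    (Finset.mem_filter.1 ht).2.trans_le h⟩, fun _ _ _ h h' => (h' h).elim⟩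

/-- all stages are below `ζ` -/
def Below (ζ : K) (r : Raw K Ω) : Prop := ∀ t ∈ r.c, t.1 < ζ

theorem below_res (r : Raw K Ω) (ζ : K) : Below ζ (res r ζ) := fun _ ht => (Finset.mem_filter.1 ht).2

theorem res_le_of_le {q s : Raw K Ω} {ζ : K} (h : q ≤ s) (hs : Below ζ s) : res q ζ ≤ s :=
  ⟨h.1, fun t ht => Finset.mem_filter.2 ⟨h.2.1 ht, hs t ht⟩, h.2.2⟩

/-- The parameters of the construction. -/
structure Base (K Ω : Type) where
  /-- the class of a point -/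
  cls : Ω → Ω
  /-- `col x γ`: `γ` is allowed as a colour of `x` -/
  col : Ω → Ω → Prop
  /-- the points which get a ladder -/
  lad : Ω → Prop
  /-- the names of graphs -/
  nm : K → Ω → Ω → Set (Raw K Ω)

variable (B : Base K Ω)

/-- elementary requirements -/
def AV (r : Raw K Ω) : Prop :=
  (∀ x z, (x, z) ∈ r.a → B.lad x ∧ z < x ∧ B.cls z ≠ B.cls x) ∧
  (∀ ζ x γ, (ζ, x, γ) ∈ r.c → B.col x γ) ∧
  (∀ ζ x γ γ', (ζ, x, γ) ∈ r.c → (ζ, x, γ') ∈ r.c → γ = γ')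

/-- the name at stage `ζ` is locally finite; `Q` is the set of conditions of stages below `ζ` -/
def LF' (ζ : K) (Q : Raw K Ω → Prop) : Prop :=
  ∀ p, Q p → ∀ y θ, θ < y → ∃ q, Q q ∧ q ≤ p ∧ ∃ W : Finset Ω, ∀ x < θ, x ∉ W →
    ∀ q', Q q' → q' ≤ q → ∀ t ∈ B.nm ζ x y, ¬ q' ≤ t

/-- the requirement of stage `ζ`; `Q` is the set of conditions of stages below `ζ` -/
def CV' (ζ : K) (Q : Raw K Ω → Prop) (r : Raw K Ω) : Prop :=
  ∀ x y γ, x < y → (ζ, x, γ) ∈ r.c → (ζ, y, γ) ∈ r.c → LF' B ζ Q →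
    ∀ q, Q q → q ≤ res r ζ → ∀ t ∈ B.nm ζ x y, ¬ q ≤ t

variable [WellFoundedLT K]

/-- the requirement of stage `ζ` -/
noncomputable def CV : K → Raw K Ω → Prop :=
  (wellFounded_lt (α := K)).fix fun ζ ih r =>
    CV' B ζ (fun q => AV B q ∧ Below ζ q ∧ ∀ ζ' (h : ζ' < ζ), ih ζ' h q) r

/-- valid conditions -/
def Valid (r : Raw K Ω) : Prop := AV B r ∧ ∀ ζ, CV B ζ r

/-- valid conditions of stages below `ζ` -/
def PB (ζ : K) (r : Raw K Ω) : Prop := Valid B r ∧ Below ζ r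

theorem cv_eq (ζ : K) : CV B ζ = CV' B ζ (PB B ζ) := by
  have h1 : CV B ζ = CV' B ζ (fun q => AV B q ∧ Below ζ q ∧ ∀ ζ' (_ : ζ' < ζ), CV B ζ' q) := by
    funext r
    rw [CV, WellFounded.fix_eq]
  rw [h1]
  congr 1
  funext q
  refine propext ⟨fun h => ⟨⟨h.1, fun ζ' => ?_⟩, h.2.1⟩, fun h => ⟨h.1.1, h.2, fun ζ' _ => h.1.2 ζ'⟩⟩
  by_cases h' : ζ' < ζ
  · exact h.2.2 ζ' h'
  · rw [CV, WellFounded.fix_eq]
    intro x y γ _ hx
    exact (h' (h.2.1 _ hx)).elim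

/-- the name at stage `ζ` is locally finite -/
def LF (ζ : K) : Prop := LF' B ζ (PB B ζ)

/-- `s` forces that `x < y` are not adjacent in the graph of stage `ζ` -/
def NA (ζ : K) (s : Raw K Ω) (x y : Ω) : Prop :=
  LF B ζ → ∀ q, PB B ζ q → q ≤ s → ∀ t ∈ B.nm ζ x y, ¬ q ≤ t

variable {B}

theorem NA.mono {ζ : K} {s s' : Raw K Ω} {x y : Ω} (h : NA B ζ s x y) (hs : s' ≤ s) :
    NA B ζ s' x y := fun h1 q h2 h3 => h h1 q h2 (h3.trans hs)

theorem valid_iff {r : Raw K Ω} : Valid B r ↔ AV B r ∧ ∀ ζ x y γ, x < y → (ζ, x, γ) ∈ r.c →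
    (ζ, y, γ) ∈ r.c → NA B ζ (res r ζ) x y := by
  refine and_congr_right fun _ => forall_congr' fun ζ => ?_
  rw [cv_eq]
  rfl

/-- `s` decides the set of points below `θ` adjacent to `y` in the graph of stage `ζ`, up to a
finite set. -/
def Dec (B : Base K Ω) (ζ : K) (s : Raw K Ω) (y θ : Ω) : Prop :=
  ∃ W : Finset Ω, ∀ x < θ, x ∉ W → NA B ζ s x y

theorem Dec.mono {ζ : K} {s s' : Raw K Ω} {y θ θ' : Ω} (h : Dec B ζ s y θ) (hs : s' ≤ s)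
    (hθ : θ' ≤ θ) : Dec B ζ s' y θ' := by
  obtain ⟨W, hW⟩ := h
  exact ⟨W, fun x hx hxW => (hW x (hx.trans_le hθ) hxW).mono hs⟩

theorem PB.mono {ζ ζ' : K} {r : Raw K Ω} (h : PB B ζ r) (hζ : ζ ≤ ζ') : PB B ζ' r :=
  ⟨h.1, fun t ht => (h.2 t ht).trans_le hζ⟩

/-- validity from smaller requirement -/
theorem valid_res {r : Raw K Ω} (h : Valid B r) (ζ : K) : PB B ζ (res r ζ) := by
  refine ⟨?_, below_res r ζ⟩
  rw [valid_iff] at h ⊢
  refine ⟨⟨h.1.1, fun ζ' x γ hx => h.1.2.1 ζ' x γ (mem_res.1 hx).1,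
    fun ζ' x γ γ' hx hx' => h.1.2.2 ζ' x γ γ' (mem_res.1 hx).1 (mem_res.1 hx').1⟩, ?_⟩
  intro ζ' x y γ hxy hx hy
  rw [mem_res] at hx hy
  refine (h.2 ζ' x y γ hxy hx.1 hy.1).mono ?_
  refine ⟨subset_rfl, ?_, fun _ _ _ h h' => (h' h).elim⟩
  intro t ht
  simp only [res, Finset.mem_filter] at ht ⊢
  exact ⟨⟨ht.1, ht.2.trans hx.2⟩, ht.2⟩

/-- amalgamation of conditions -/
noncomputable def amal (q p : Raw K Ω) : Raw K Ω := by
  classical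
  exact ⟨q.a ∪ p.a, q.c ∪ p.c⟩

theorem mem_amal_a {q p : Raw K Ω} {t : Ω × Ω} : t ∈ (amal q p).a ↔ t ∈ q.a ∨ t ∈ p.a := by
  simp [amal]

theorem mem_amal_c {q p : Raw K Ω} {t : K × Ω × Ω} : t ∈ (amal q p).c ↔ t ∈ q.c ∨ t ∈ p.c := by
  simp [amal]

theorem amal_le_left {q p : Raw K Ω} {ζ : K} (h : q ≤ res p ζ) : amal q p ≤ q := by
  refine ⟨fun t ht => mem_amal_a.2 (Or.inl ht), fun t ht => mem_amal_c.2 (Or.inl ht), ?_⟩
  intro x z z' h1 h2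
  rcases mem_amal_a.1 h1 with h1 | h1
  · exact (h2 h1).elim
  · exact (h2 (h.1 h1)).elim

theorem amal_le_right {q p : Raw K Ω} {ζ : K} (h : q ≤ res p ζ) : amal q p ≤ p := by
  refine ⟨fun t ht => mem_amal_a.2 (Or.inr ht), fun t ht => mem_amal_c.2 (Or.inr ht), ?_⟩
  intro x z z' h1 h2 h3
  rcases mem_amal_a.1 h1 with h1 | h1
  · exact h.2.2 x z z' h1 h2 h3
  · exact (h2 h1).elim

theorem amal_valid {q p : Raw K Ω} {ζ : K} (hq : PB B ζ q) (hp : Valid B p) (h : q ≤ res p ζ) :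
    Valid B (amal q p) := by
  have hq' := valid_iff.1 hq.1
  have hp' := valid_iff.1 hp
  have key : ∀ ζ' x γ, (ζ', x, γ) ∈ (amal q p).c →
      (ζ' < ζ ∧ (ζ', x, γ) ∈ q.c) ∨ (¬ ζ' < ζ ∧ (ζ', x, γ) ∈ p.c) := by
    intro ζ' x γ ht
    rcases mem_amal_c.1 ht with ht | ht
    · exact Or.inl ⟨hq.2 _ ht, ht⟩
    · by_cases hζ : ζ' < ζ
      · exact Or.inl ⟨hζ, h.2.1 (mem_res.2 ⟨ht, hζ⟩)⟩
      · exact Or.inr ⟨hζ, ht⟩
  rw [valid_iff]
  refine ⟨⟨?_, ?_, ?_⟩, ?_⟩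
  · intro x z hz
    rcases mem_amal_a.1 hz with hz | hz
    · exact hq'.1.1 x z hz
    · exact hp'.1.1 x z hz
  · intro ζ' x γ hz
    rcases mem_amal_c.1 hz with hz | hz
    · exact hq'.1.2.1 _ x γ hz
    · exact hp'.1.2.1 _ x γ hz
  · intro ζ' x γ γ' h1 h2
    rcases key _ _ _ h1 with ⟨a1, b1⟩ | ⟨a1, b1⟩ <;> rcases key _ _ _ h2 with ⟨a2, b2⟩ | ⟨a2, b2⟩
    · exact hq'.1.2.2 _ _ _ _ b1 b2
    · exact (a2 a1).elim
    · exact (a1 a2).elim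
    · exact hp'.1.2.2 _ _ _ _ b1 b2
  · intro ζ' x y γ hxy h1 h2
    rcases key _ _ _ h1 with ⟨a1, b1⟩ | ⟨a1, b1⟩ <;> rcases key _ _ _ h2 with ⟨a2, b2⟩ | ⟨a2, b2⟩
    · exact (hq'.2 _ _ _ _ hxy b1 b2).mono (res_mono (amal_le_left h) _)
    · exact (a2 a1).elim
    · exact (a1 a2).elim
    · exact (hp'.2 _ _ _ _ hxy b1 b2).mono (res_mono (amal_le_right h) _)

/-- decide finitely many neighbourhoods -/
theorem dec_many (ζ : K) (S : Finset (Ω × Ω)) : ∀ q, PB B ζ q →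
    ∃ q', PB B ζ q' ∧ q' ≤ q ∧ ∀ t ∈ S, t.2 < t.1 → Dec B ζ q' t.1 t.2 := by
  classical
  by_cases hLF : LF B ζ
  · induction S using Finset.induction_on with
    | empty => exact fun q hq => ⟨q, hq, le_rfl, by simp⟩
    | insert t S _ ih =>
      intro q hq
      obtain ⟨q1, h1, h2, h3⟩ := ih q hq
      by_cases ht : t.2 < t.1
      · obtain ⟨q2, h4, h5, W, hW⟩ := hLF q1 h1 t.1 t.2 ht
        refine ⟨q2, h4, h5.trans h2, ?_⟩
        intro t' ht' hlt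
        rcases Finset.mem_insert.1 ht' with rfl | ht'
        · exact ⟨W, fun x hx hxW _ => hW x hx hxW⟩
        · exact (h3 t' ht' hlt).mono h5 le_rfl
      · refine ⟨q1, h1, h2, ?_⟩
        intro t' ht' hlt
        rcases Finset.mem_insert.1 ht' with rfl | ht'
        · exact (ht hlt).elim
        · exact h3 t' ht' hlt
  · intro q hq
    exact ⟨q, hq, le_rfl, fun t _ _ => ⟨∅, fun x _ _ h => (hLF h).elim⟩⟩

/-- `p` decides the neighbourhoods below the points of `Θ` -/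
def GoodAll (B : Base K Ω) (Θ : Finset Ω) (p : Raw K Ω) : Prop :=
  ∀ θ ∈ Θ, ∀ ζ y γ, (ζ, y, γ) ∈ p.c → θ < y → Dec B ζ (res p ζ) y θ

theorem mg_step (Θ : Finset Ω) {p : Raw K Ω} (hp : Valid B p)
    (ih : ∀ t ∈ p.c, ∀ q, PB B t.1 q → ∃ q', PB B t.1 q' ∧ q' ≤ q ∧ GoodAll B Θ q') :
    ∃ p', Valid B p' ∧ p' ≤ p ∧ GoodAll B Θ p' ∧ ∀ t ∈ p'.c, ∃ t' ∈ p.c, t.1 ≤ t'.1 := by
  classical
  rcases p.c.eq_empty_or_nonempty with he | hne
  · refine ⟨p, hp, le_rfl, ?_, ?_⟩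
    · intro θ _ ζ y γ ht
      rw [he] at ht
      simp at ht
    · exact fun t ht => ⟨t, ht, le_rfl⟩
  · obtain ⟨t₀, ht₀, hmax⟩ := p.c.exists_max_image (fun t => t.1) hne
    obtain ⟨q1, h1, h2, h3⟩ := dec_many t₀.1 ((p.c.image fun t => t.2.1) ×ˢ Θ) (res p t₀.1)
      (valid_res hp t₀.1)
    obtain ⟨q2, h4, h5, h6⟩ := ih t₀ ht₀ q1 h1
    have hle : q2 ≤ res p t₀.1 := h5.trans h2
    refine ⟨amal q2 p, amal_valid h4 hp hle, amal_le_right hle, ?_, ?_⟩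
    · intro θ hθ ζ y γ ht hy
      rcases mem_amal_c.1 ht with ht | ht
      · refine (h6 θ hθ ζ y γ ht hy).mono (res_mono (amal_le_left hle) _) le_rfl
      · rcases (hmax _ ht).lt_or_eq with hlt | heq
        · have : (ζ, y, γ) ∈ q2.c := hle.2.1 (mem_res.2 ⟨ht, hlt⟩)
          exact (h6 θ hθ ζ y γ this hy).mono (res_mono (amal_le_left hle) _) le_rfl
        · simp only at heq
          subst heq
          have := h3 (y, θ) (Finset.mem_product.2 ⟨Finset.mem_image.2 ⟨_, ht, rfl⟩, hθ⟩) hy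
          refine this.mono ?_ le_rfl
          exact (res_mono (amal_le_left hle) _).trans
            ((res_le_of_le le_rfl h4.2).trans h5)
    · intro t ht
      rcases mem_amal_c.1 ht with ht | ht
      · exact ⟨t₀, ht₀, (h4.2 t ht).le⟩
      · exact ⟨t, ht, le_rfl⟩

theorem mg_below (Θ : Finset Ω) (ζ : K) : ∀ q, PB B ζ q →
    ∃ q', PB B ζ q' ∧ q' ≤ q ∧ GoodAll B Θ q' := by
  induction ζ using WellFoundedLT.induction with
  | ind ζ ih =>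
    intro q hq
    obtain ⟨q', h1, h2, h3, h4⟩ := mg_step Θ hq.1 fun t ht => ih t.1 (hq.2 t ht)
    refine ⟨q', ⟨h1, fun t ht => ?_⟩, h2, h3⟩
    obtain ⟨t', ht', hle⟩ := h4 t ht
    exact hle.trans_lt (hq.2 t' ht')

theorem mg_top (Θ : Finset Ω) {p : Raw K Ω} (hp : Valid B p) :
    ∃ p', Valid B p' ∧ p' ≤ p ∧ GoodAll B Θ p' := by
  obtain ⟨p', h1, h2, h3, _⟩ := mg_step Θ hp fun t _ => mg_below Θ t.1
  exact ⟨p', h1, h2, h3⟩

end

end Pool.Agent.Lib_helper27.H
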