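import Pool.Agent.Lib_helper27.H.Main

/-!
# The preservation lemma: proof
-/

set_option linter.unusedSectionVars false

namespace Pool.Agent.Lib_helper27.H

section

variable {K Ω : Type} [LinearOrder Ω] [LinearOrder K] [WellFoundedLT K] [WellFoundedLT Ω]

theorem collect {D : Type} (s : Finset D) (θ : Ω) (P : D → Ω → Prop)
    (h : ∀ t ∈ s, ∃ W : Finset Ω, ∀ x < θ, x ∉ W → P t x) :
    ∃ W : Finset Ω, (∀ x ∈ W, x < θ) ∧ ∀ t ∈ s, ∀ x < θ, x ∉ W → P t x := by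
  classical
  induction s using Finset.induction_on with
  | empty => exact ⟨∅, by simp, by simp⟩
  | insert a s _ ih =>
    obtain ⟨W, h1, h2⟩ := ih fun t ht => h t (Finset.mem_insert_of_mem ht)
    obtain ⟨W', hW'⟩ := h a (Finset.mem_insert_self a s)
    refine ⟨W ∪ W'.filter (· < θ), ?_, ?_⟩
    · intro x hx
      rcases Finset.mem_union.1 hx with hx | hx
      · exact h1 x hx
      · exact (Finset.mem_filter.1 hx).2
    · intro t ht x hx hxW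
      rw [Finset.mem_union, Finset.mem_filter] at hxW
      push Not at hxW
      rcases Finset.mem_insert.1 ht with rfl | ht
      · exact hW' x hx fun hc => absurd hx (not_lt.2 (hxW.2 hc))
      · exact h2 t ht x hx hxW.1

variable (hc : ∀ θ : Ω, (Set.Iio θ).Countable) (hu : ¬ (Set.univ : Set Ω).Countable)

include hc hu

theorem club_in {D : Type} [Small K Ω D] (d : D) : Club fun (A : Set K) (θ : Ω) => In A θ d := by
  obtain ⟨θ₀, hθ₀⟩ := exists_bound hc hu (Small.s₂ K d : Finset Ω).countable_toSet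
  exact (Club.const (Small.s₁ Ω d : Finset K).countable_toSet θ₀).mono fun A θ _ h =>
    ⟨h.1, fun x hx => (hθ₀ x hx).trans h.2⟩

theorem club_skolem {D D' : Type} [Small K Ω D] [Small K Ω D'] (R : D → D' → Prop) :
    Club fun (A : Set K) (θ : Ω) => ∀ d, In A θ d → (∃ d', R d d') → ∃ d', R d d' ∧ In A θ d' := by
  refine Club.diag (I := D) fun d => ?_
  by_cases h : ∃ d', R d d'
  · obtain ⟨d', hd'⟩ := h
    exact (club_in hc hu d').mono fun A θ _ h _ => ⟨d', hd', h⟩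
  · exact (club_in hc hu (0 : ℕ)).mono fun _ _ _ _ h' => (h h').elim

variable {B : Base K Ω}

theorem club_main (h : Hyp B) (pf : Ω → Raw K Ω) (nf : Ω → ℕ) : Club fun (A : Set K) θ =>
    (∀ r : Rf K Ω, In A θ r → (∃ δ, Comp r δ ∧ StatD B pf nf δ) →
      ∃ δ, (Comp r δ ∧ StatD B pf nf δ) ∧ In A θ δ) ∧
    (∀ δ : Data K Ω, In A θ δ → ¬ StatD B pf nf δ → ¬ ∃ q, SP B pf nf δ A θ q) ∧
    (∀ δ : Data K Ω × Finset K × Finset Ω, In A θ δ →
      (∃ z : Ω × Raw K Ω, StatD B pf nf δ.1 ∧ ∃ A' : Set K, ↑δ.2.1 ⊆ A' ∧ (∀ x ∈ δ.2.2, x < z.1) ∧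
        SP B pf nf δ.1 A' z.1 z.2) →
      ∃ z : Ω × Raw K Ω, (StatD B pf nf δ.1 ∧ ∃ A' : Set K, ↑δ.2.1 ⊆ A' ∧ (∀ x ∈ δ.2.2, x < z.1) ∧
        SP B pf nf δ.1 A' z.1 z.2) ∧ In A θ z) ∧
    (∀ x : Ω, In A θ x → ∀ γ, B.col x γ → γ < θ) := by
  refine (club_skolem hc hu _).and (Club.and ?_ ((club_skolem hc hu _).and ?_))
  · refine Club.diag (I := Data K Ω) fun δ => ?_
    by_cases hδ : StatD B pf nf δ
    · exact (club_in hc hu (0 : ℕ)).mono fun _ _ _ _ h => (h hδ).elim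
    · unfold StatD Stat at hδ
      push Not at hδ
      obtain ⟨C, hC, hn⟩ := hδ
      refine hC.mono ?_
      rintro A θ hA hAθ - ⟨q, hq⟩
      exact hn A θ hA hAθ q hq
  · refine Club.diag (I := Ω) fun x => ?_
    obtain ⟨θ₀, hθ₀⟩ := exists_bound hc hu (h.col_cnt x)
    exact (Club.const Set.countable_empty θ₀).mono fun A θ _ h γ hγ => (hθ₀ γ hγ).trans h.2

/-- The preservation lemma. -/
theorem pres (h : Hyp B) (pf : Ω → Raw K Ω) (hpf : ∀ α, Valid B (pf α)) (nf : Ω → ℕ) :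
    ∃ β α, β < α ∧ nf β = nf α ∧ ∃ q, Valid B q ∧ q ≤ pf α ∧ q ≤ pf β ∧ (α, β) ∈ q.a := by
  classical
  have hC := club_main hc hu h pf nf
  obtain ⟨A₁, θ₁, hA₁, hs⟩ := Club.nonempty hc hu
    (club_step hc hu (L := fun _ => True) hC fun ζ _ => club_cc hc hu hC ζ)
  obtain ⟨i, hi, hst, hlad⟩ := h.lad_unb θ₁
  obtain ⟨A₂, α, hA₂, ⟨hC₂, hsub, hmx⟩, hcls⟩ := hst _ (hC.and (Club.const hA₁ (max θ₁ i)))
  have hθ₁α : θ₁ < α := (le_max_left _ _).trans_lt hmx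
  have hiα : i < α := (le_max_right _ _).trans_lt hmx
  obtain ⟨p₀, hp₀, hp₀', hg⟩ := mg_top {θ₁, α} (hpf α)
  obtain ⟨A₃, θ₃, p, hC₃, hA₃, hθ₃, hp, hpp, hg₃, hgα, hns⟩ := clean_top (α := α) hs hp₀
    (fun ζ _ y γ ht hy => hg θ₁ (by simp) ζ y γ ht hy)
    (fun β hβ => hg β (by rw [Finset.mem_singleton] at hβ; simp [hβ]))
  have hpv := valid_iff.1 hp
  obtain ⟨V, hVα, hV⟩ := collect p.c α (fun t x => α < t.2.1 → NA B t.1 (res p t.1) x t.2.1) (by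
    rintro ⟨ζ, y, γ⟩ ht
    by_cases hy : α < y
    · obtain ⟨W, hW⟩ := hgα α (by simp) ζ y γ ht hy
      exact ⟨W, fun x hx hxW _ => hW x hx hxW⟩
    · exact ⟨∅, fun x _ _ hy' => (hy hy').elim⟩)
  obtain ⟨W, hWα, hW⟩ := collect p.c θ₃
    (fun t x => t.1 ∈ A₃ → θ₃ < t.2.1 → NA B t.1 (res p t.1) x t.2.1) (by
    rintro ⟨ζ, y, γ⟩ ht
    by_cases hy : ζ ∈ A₃ ∧ θ₃ < y
    · obtain ⟨W, hW⟩ := hg₃ ζ hy.1 y γ ht hy.2
      exact ⟨W, fun x hx hxW _ _ => hW x hx hxW⟩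
    · exact ⟨∅, fun x _ _ h1 h2 => (hy ⟨h1, h2⟩).elim⟩)
  -- the data of `p` over the large piece
  let δ : Data K Ω := ⟨nf α, i, ⟨p.a.filter (·.1 < α), p.c.filter fun t => t.1 ∈ A₂ ∧ t.2.1 < α⟩,
    (p.c.image fun t => t.1).filter (· ∈ A₂), V, (p.c.image fun t => B.cls t.2.1).filter (· < α)⟩
  have hSP : SP B pf nf δ A₂ α p := {
    cls := hcls
    n := rfl
    valid := hp
    le := hpp.trans hp₀'
    a1 := fun x z hz hx => Finset.mem_filter.2 ⟨hz, hx⟩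
    a2 := Finset.filter_subset _ _
    c1 := fun ζ x γ ht hζ hx => Finset.mem_filter.2 ⟨ht, hζ, hx⟩
    c2 := Finset.filter_subset _ _
    u := fun ζ x γ ht hζ => Finset.mem_filter.2 ⟨Finset.mem_image.2 ⟨_, ht, rfl⟩, hζ⟩
    F := fun ζ x γ ht hx => Finset.mem_filter.2 ⟨Finset.mem_image.2 ⟨_, ht, rfl⟩, hx⟩
    V := fun ζ x γ ht _ hx y hy hyV => hV _ ht y hy hyV hx }
  have hin : In A₂ α δ := by
    rw [in_data]
    refine ⟨hiα, ⟨?_, ?_⟩, ?_, hVα, ?_⟩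
    · rw [in_finset]
      rintro ⟨x, z⟩ ht
      obtain ⟨ht, hx⟩ := Finset.mem_filter.1 ht
      simp only [in_prod, in_Ω]
      exact ⟨hx, (hpv.1.1 x z ht).2.1.trans hx⟩
    · rw [in_finset]
      rintro ⟨ζ, x, γ⟩ ht
      obtain ⟨ht, hζ, hx⟩ := Finset.mem_filter.1 ht
      simp only [in_prod, in_Ω, in_K]
      exact ⟨hζ, hx, hC₂.2.2.2 x (in_Ω.2 hx) γ (hpv.1.2.1 _ _ _ ht)⟩
    · intro ζ hζ
      simpa using (Finset.mem_filter.1 hζ).2
    · intro x hx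
      exact (Finset.mem_filter.1 hx).2
  have hstat : StatD B pf nf δ := by
    by_contra hcon
    exact hC₂.2.1 δ hin hcon ⟨p, hSP⟩
  -- reflection
  let r : Rf K Ω := ⟨nf α, ⟨p.a.filter (·.1 < θ₃), p.c.filter fun t => t.1 ∈ A₃ ∧ t.2.1 < θ₃⟩,
    W, (p.c.image fun t => t.1).filter (· ∈ A₃), (p.c.image fun t => B.cls t.2.1).filter (· < θ₃)⟩
  have hθ₃i : θ₃ ≤ i := hθ₃.trans hi
  have hcomp : Comp r δ := {
    n := rfl
    e := fun hcon => absurd (Finset.mem_filter.1 hcon).2 (not_lt.2 hθ₃i)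
    a1 := by
      intro t ht
      obtain ⟨ht, hx⟩ := Finset.mem_filter.1 ht
      exact Finset.mem_filter.2 ⟨ht, hx.trans_le (hθ₃i.trans hiα.le)⟩
    a2 := by
      intro x z z' hz hz'
      exact Finset.mem_filter.2 ⟨(Finset.mem_filter.1 hz').1, (Finset.mem_filter.1 hz).2⟩
    c1 := by
      intro t ht
      obtain ⟨ht, hζ, hx⟩ := Finset.mem_filter.1 ht
      exact Finset.mem_filter.2 ⟨ht, hsub (hA₃ hζ), hx.trans_le (hθ₃i.trans hiα.le)⟩
    c2 := by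
      intro ζ x γ ht hζ hx
      exact Finset.mem_filter.2 ⟨(Finset.mem_filter.1 ht).1, (Finset.mem_filter.1 hζ).2, hWα x hx⟩ }
  have hinr : In A₃ θ₃ r := by
    rw [in_rf]
    refine ⟨⟨?_, ?_⟩, hWα, ?_, ?_⟩
    · rw [in_finset]
      rintro ⟨x, z⟩ ht
      obtain ⟨ht, hx⟩ := Finset.mem_filter.1 ht
      simp only [in_prod, in_Ω]
      exact ⟨hx, (hpv.1.1 x z ht).2.1.trans hx⟩
    · rw [in_finset]
      rintro ⟨ζ, x, γ⟩ ht
      obtain ⟨ht, hζ, hx⟩ := Finset.mem_filter.1 ht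
      simp only [in_prod, in_Ω, in_K]
      exact ⟨hζ, hx, hC₃.2.2.2 x (in_Ω.2 hx) γ (hpv.1.2.1 _ _ _ ht)⟩
    · intro ζ hζ
      simpa using (Finset.mem_filter.1 hζ).2
    · intro x hx
      exact (Finset.mem_filter.1 hx).2
  obtain ⟨δ', ⟨hcomp', hstat'⟩, hin'⟩ := hC₃.1 r hinr ⟨δ, hcomp, hstat⟩
  have hin'' := in_data.1 hin'
  obtain ⟨hj, ⟨hρa, hρc⟩, hu', hV', hF'⟩ := hin''
  rw [in_finset] at hρa hρc
  have hρa' : ∀ x z, (x, z) ∈ δ'.ρ.a → x < θ₃ := fun x z ht => by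
    have := hρa _ ht
    simp only [in_prod, in_Ω] at this
    exact this.1
  have hρc' : ∀ ζ x γ, (ζ, x, γ) ∈ δ'.ρ.c → x < θ₃ := fun ζ x γ ht => by
    have := hρc _ ht
    simp only [in_prod, in_Ω] at this
    exact this.2.1
  -- the second condition
  let d : Finset K := (p.c.image fun t => t.1).filter (· ∈ A₂)
  let e : Finset Ω := insert i (V ∪ ((p.a.image fun t => t.1).filter (· < α) ∪
    ((p.a.image fun t => t.2).filter (· < α) ∪ (p.c.image fun t => t.2.1).filter (· < α))))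
  have heα : ∀ x ∈ e, x < α := by
    intro x hx
    simp only [e, Finset.mem_insert, Finset.mem_union, Finset.mem_filter] at hx
    rcases hx with rfl | hx | hx | hx | hx
    · exact hiα
    · exact hVα x hx
    · exact hx.2
    · exact hx.2
    · exact hx.2
  have hθ₃α : θ₃ < α := hθ₃.trans_lt hθ₁α
  have hde : In A₂ α (δ', d, e) := by
    simp only [in_prod]
    refine ⟨?_, ?_, ?_⟩
    · exact hin'.mono (hA₃.trans hsub) hθ₃α.le
    · rw [in_finset]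
      intro ζ hζ
      exact in_K.2 (Finset.mem_filter.1 hζ).2
    · rw [in_finset]
      intro x hx
      exact in_Ω.2 (heα x hx)
  have hex : ∃ z : Ω × Raw K Ω, StatD B pf nf δ' ∧ ∃ A' : Set K, ↑d ⊆ A' ∧ (∀ x ∈ e, x < z.1) ∧
      SP B pf nf δ' A' z.1 z.2 := by
    obtain ⟨A', β, _, hin, q, hq⟩ := hstat' (fun A θ => In A θ d ∧ In A θ e)
      ((club_in hc hu d).and (club_in hc hu e))
    rw [in_finset, in_finset] at hin
    exact ⟨(β, q), hstat', A', fun k hk => in_K.1 (hin.1 k hk), fun x hx => in_Ω.1 (hin.2 x hx), hq⟩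
  obtain ⟨⟨β, q⟩, ⟨_, A', hdA', heβ, hq⟩, hinq⟩ := hC₂.2.2.1 (δ', d, e) hde hex
  rw [in_prod, in_Ω, in_raw, in_finset, in_finset] at hinq
  obtain ⟨hβα, hqa, hqc⟩ := hinq
  simp only at hβα hqa hqc heβ hq
  have hqv := valid_iff.1 hq.valid
  -- basic facts
  have fp1 : ∀ ζ x γ, (ζ, x, γ) ∈ p.c → ζ ∈ A₂ → ζ ∈ A' := fun ζ x γ ht hζ =>
    hdA' (Finset.mem_filter.2 ⟨Finset.mem_image.2 ⟨_, ht, rfl⟩, hζ⟩)
  have fp2 : ∀ ζ x γ, (ζ, x, γ) ∈ p.c → x < α → x < β := fun ζ x γ ht hx => by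
    refine heβ x ?_
    simp only [e, Finset.mem_insert, Finset.mem_union, Finset.mem_filter, Finset.mem_image]
    exact Or.inr (Or.inr (Or.inr (Or.inr ⟨⟨_, ht, rfl⟩, hx⟩)))
  have fp3 : ∀ x z, (x, z) ∈ p.a → x < α → x < β := fun x z ht hx => by
    refine heβ x ?_
    simp only [e, Finset.mem_insert, Finset.mem_union, Finset.mem_filter, Finset.mem_image]
    exact Or.inr (Or.inr (Or.inl ⟨⟨_, ht, rfl⟩, hx⟩))
  have fp4 : ∀ x z, (x, z) ∈ p.a → z < α → z < β := fun x z ht hx => by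
    refine heβ z ?_
    simp only [e, Finset.mem_insert, Finset.mem_union, Finset.mem_filter, Finset.mem_image]
    exact Or.inr (Or.inr (Or.inr (Or.inl ⟨⟨_, ht, rfl⟩, hx⟩)))
  have fi : i < β := heβ i (by simp [e])
  have fV : ∀ x ∈ V, x < β := fun x hx => heβ x (by simp [e, hx])
  have fq1 : ∀ ζ x γ, (ζ, x, γ) ∈ q.c → ζ ∈ A₂ := fun ζ x γ ht => by
    have := hqc _ ht
    simp only [in_prod, in_K] at this
    exact this.1
  have fq2 : ∀ ζ x γ, (ζ, x, γ) ∈ q.c → x < α := fun ζ x γ ht => by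
    have := hqc _ ht
    simp only [in_prod, in_Ω] at this
    exact this.2.1
  have fq3 : ∀ x z, (x, z) ∈ q.a → x < α := fun x z ht => by
    have := hqa _ ht
    simp only [in_prod, in_Ω] at this
    exact this.1
  have common : ∀ ζ x γ y γ', (ζ, x, γ) ∈ q.c → (ζ, y, γ') ∈ p.c → ζ ∈ A' ∧ ζ ∈ A₃ := by
    intro ζ x γ y γ' h1 h2
    have h3 := fp1 _ _ _ h2 (fq1 _ _ _ h1)
    exact ⟨h3, hu' (hq.u ζ x γ h1 h3)⟩
  have toU : ∀ ζ y γ, (ζ, y, γ) ∈ p.c → ζ ∈ A₃ → y < θ₃ → (ζ, y, γ) ∈ q.c := by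
    intro ζ y γ h1 h2 h3
    exact hq.c2 (hcomp'.c1 (Finset.mem_filter.2 ⟨h1, h2, h3⟩))
  have cross : ∀ ζ x y γ, (ζ, x, γ) ∈ q.c → (ζ, y, γ) ∈ p.c → (ζ, x, γ) ∈ p.c ∨ (ζ, y, γ) ∈ q.c ∨
      (x < y ∧ NA B ζ (res p ζ) x y) ∨ (y < x ∧ NA B ζ (res q ζ) y x) := by
    intro ζ x y γ hx hy
    obtain ⟨h1, h2⟩ := common _ _ _ _ _ hx hy
    by_cases hxβ : x < β
    · have hρ := hq.c1 ζ x γ hx h1 hxβ
      have hx3 : x < θ₃ := hρc' _ _ _ hρ
      rcases lt_trichotomy y θ₃ with hlt | heq | hgt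
      · exact Or.inr (Or.inl (toU _ _ _ hy h2 hlt))
      · subst heq
        exact (hns ζ h2 γ hy).elim
      · by_cases hxW : x ∈ W
        · left
          have := hcomp'.c2 ζ x γ hρ (Finset.mem_filter.2 ⟨Finset.mem_image.2 ⟨_, hy, rfl⟩, h2⟩) hxW
          exact (Finset.mem_filter.1 this).1
        · exact Or.inr (Or.inr (Or.inl ⟨hx3.trans hgt, hW _ hy x hx3 hxW h2 hgt⟩))
    · push Not at hxβ
      have hxα := fq2 _ _ _ hx
      rcases lt_trichotomy y α with hlt | heq | hgt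
      · have hyβ := fp2 _ _ _ hy hlt
        rcases hxβ.lt_or_eq with hβx | hβx
        · by_cases hyV : y ∈ δ'.V
          · exact Or.inr (Or.inl (toU _ _ _ hy h2 (hV' y hyV)))
          · exact Or.inr (Or.inr (Or.inr ⟨hyβ.trans hβx, hq.V ζ x γ hx h1 hβx y hyβ hyV⟩))
        · exfalso
          have e1 : B.cls x = B.cls y := h.col_cls (hqv.1.2.1 _ _ _ hx) (hpv.1.2.1 _ _ _ hy)
          rw [← hβx, hq.cls] at e1
          refine hcomp'.e (Finset.mem_filter.2 ⟨Finset.mem_image.2 ⟨_, hy, e1.symm⟩, ?_⟩)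
          exact hj
      · exfalso
        have e1 : B.cls x = B.cls y := h.col_cls (hqv.1.2.1 _ _ _ hx) (hpv.1.2.1 _ _ _ hy)
        rw [heq, hcls] at e1
        have := hF' _ (hq.F ζ x γ hx (by rw [e1]; exact fi))
        rw [e1] at this
        exact absurd this (not_lt.2 hθ₃i)
      · refine Or.inr (Or.inr (Or.inl ⟨hxα.trans hgt, hV _ hy x hxα (fun hcon => ?_) hgt⟩))
        exact absurd (fV x hcon) (not_lt.2 hxβ)
  have funct : ∀ ζ x γ γ', (ζ, x, γ) ∈ q.c → (ζ, x, γ') ∈ p.c → γ = γ' := by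
    intro ζ x γ γ' hx hy
    obtain ⟨h1, h2⟩ := common _ _ _ _ _ hx hy
    have hxβ := fp2 _ _ _ hy (fq2 _ _ _ hx)
    have hρ := hq.c1 ζ x γ hx h1 hxβ
    exact hqv.1.2.2 _ _ _ _ hx (toU _ _ _ hy h2 (hρc' _ _ _ hρ))
  -- the amalgam
  let R : Raw K Ω := ⟨insert (α, β) (q.a ∪ p.a), q.c ∪ p.c⟩
  have hRa : ∀ t, t ∈ R.a ↔ t = (α, β) ∨ t ∈ q.a ∨ t ∈ p.a := fun t => by simp [R]
  have hRc : ∀ t, t ∈ R.c ↔ t ∈ q.c ∨ t ∈ p.c := fun t => by simp [R]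
  have hRp : R ≤ p := by
    refine ⟨fun t ht => (hRa t).2 (Or.inr (Or.inr ht)), fun t ht => (hRc t).2 (Or.inr ht), ?_⟩
    intro x z z' h1 h2 h3
    rcases (hRa _).1 h1 with h1 | h1 | h1
    · obtain ⟨rfl, rfl⟩ := Prod.mk.inj h1
      exact fp4 _ _ h3 (hpv.1.1 _ _ h3).2.1
    · exfalso
      have hxβ := fp3 _ _ h3 (fq3 _ _ h1)
      have hρ := hq.a1 x z h1 hxβ
      have hU : (x, z') ∈ r.U.a := Finset.mem_filter.2 ⟨h3, hρa' _ _ hρ⟩
      exact h2 (Finset.mem_filter.1 (hcomp'.a2 x z' z hU hρ)).1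
    · exact (h2 h1).elim
  have hRq : R ≤ q := by
    refine ⟨fun t ht => (hRa t).2 (Or.inr (Or.inl ht)), fun t ht => (hRc t).2 (Or.inl ht), ?_⟩
    intro x z z' h1 h2 h3
    exfalso
    rcases (hRa _).1 h1 with h1 | h1 | h1
    · obtain ⟨rfl, rfl⟩ := Prod.mk.inj h1
      exact lt_irrefl _ (fq3 _ _ h3)
    · exact h2 h1
    · have hxβ := fp3 _ _ h1 (fq3 _ _ h3)
      have hρ := hq.a1 x z' h3 hxβ
      have hU : (x, z) ∈ r.U.a := Finset.mem_filter.2 ⟨h1, hρa' _ _ hρ⟩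
      exact h2 (hq.a2 (hcomp'.a1 hU))
  have hRv : Valid B R := by
    rw [valid_iff]
    refine ⟨⟨?_, ?_, ?_⟩, ?_⟩
    · intro x z hz
      rcases (hRa _).1 hz with h1 | h1 | h1
      · obtain ⟨rfl, rfl⟩ := Prod.mk.inj h1
        refine ⟨hlad x hcls, hβα, ?_⟩
        rw [hcls, hq.cls]
        exact (hj.trans_le hθ₃i).ne
      · exact hqv.1.1 x z h1
      · exact hpv.1.1 x z h1
    · intro ζ x γ ht
      rcases (hRc _).1 ht with h1 | h1
      · exact hqv.1.2.1 ζ x γ h1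
      · exact hpv.1.2.1 ζ x γ h1
    · intro ζ x γ γ' h1 h2
      rcases (hRc _).1 h1 with h1 | h1 <;> rcases (hRc _).1 h2 with h2 | h2
      · exact hqv.1.2.2 _ _ _ _ h1 h2
      · exact funct _ _ _ _ h1 h2
      · exact (funct _ _ _ _ h2 h1).symm
      · exact hpv.1.2.2 _ _ _ _ h1 h2
    · intro ζ x y γ hxy h1 h2
      have keyq : (ζ, x, γ) ∈ q.c → (ζ, y, γ) ∈ q.c → NA B ζ (res R ζ) x y := fun a b =>
        (hqv.2 _ _ _ _ hxy a b).mono (res_mono hRq _)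
      have keyp : (ζ, x, γ) ∈ p.c → (ζ, y, γ) ∈ p.c → NA B ζ (res R ζ) x y := fun a b =>
        (hpv.2 _ _ _ _ hxy a b).mono (res_mono hRp _)
      rcases (hRc _).1 h1 with h1 | h1 <;> rcases (hRc _).1 h2 with h2 | h2
      · exact keyq h1 h2
      · rcases cross _ _ _ _ h1 h2 with h3 | h3 | h3 | h3
        · exact keyp h3 h2
        · exact keyq h1 h3
        · exact h3.2.mono (res_mono hRp _)
        · exact (lt_asymm hxy h3.1).elim
      · rcases cross _ _ _ _ h2 h1 with h3 | h3 | h3 | h3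
        · exact keyp h1 h3
        · exact keyq h3 h2
        · exact (lt_asymm hxy h3.1).elim
        · exact h3.2.mono (res_mono hRq _)
      · exact keyp h1 h2
  refine ⟨β, α, hβα, ?_, R, hRv, hRp.trans (hpp.trans hp₀'), hRq.trans hq.le, (hRa _).2 (Or.inl rfl)⟩
  rw [hq.n, hcomp'.n]

end

end Pool.Agent.Lib_helper27.H
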