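import Pool.Agent.Lib_helper27.H.Ladder

/-!
# There is no regressive Hajnal–Máté graph
-/

set_option linter.unusedSectionVars false

namespace Pool.Agent.Lib_helper27.H

open Fml V

section

variable {K Ω : Type} [LinearOrder Ω] [LinearOrder K] [WellFoundedLT K] [WellFoundedLT Ω]
  {B : Base K Ω} (hB : Setup B)

include hB

/-- A stage at which the graph `E` is coloured. -/
theorem exists_stage {q₀ : Cnd B} {E : Name (Cnd B)} (h : Fc q₀ (isHM (wn B) (Wn B) E)) :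
    ∃ ζ, LF B ζ ∧ ∀ (s : Cnd B) (x y : Ω), s ≤ q₀ →
      Fc s (adj E (onm (Cnd B) x) (onm (Cnd B) y)) → ∃ v : Cnd B, v ≤ s ∧
        ∃ t ∈ B.nm ζ x y, res v.1 ζ ≤ t := by
  classical
  let D : Ω → Ω → Set (Cnd B) := fun x y =>
    {r | r ≤ q₀ ∧ Fc r (adj E (onm (Cnd B) x) (onm (Cnd B) y))}
  choose A hAD hA hmax using fun x y => exists_max_antichain (D x y)
  have hcnt : ∀ x y, (A x y).Countable := fun x y => cnd_ccc hB _ (hA x y)
  let f : Ω → Ω → Set (Raw K Ω) := fun x y => Subtype.val '' (A x y)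
  have hf : ∀ x y, (f x y).Countable := fun x y => (hcnt x y).image _
  let S : Ω → Ω → Set K := fun x y => ⋃ r ∈ A x y, {k : K | ∃ t ∈ r.1.c, t.1 = k}
  have hS : ∀ x y, (S x y).Countable := by
    intro x y
    refine (hcnt x y).biUnion fun r _ => ?_
    refine ((r.1.c.image fun t => t.1).countable_toSet).mono ?_
    rintro k ⟨t, ht, rfl⟩
    exact Finset.mem_coe.2 (Finset.mem_image.2 ⟨t, ht, rfl⟩)
  obtain ⟨ζ₀, hζ₀⟩ := hB.bdd S hS
  have hζ₀' : ∀ x y, ∀ r ∈ A x y, ∀ t ∈ r.1.c, t.1 < ζ₀ := by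
    intro x y r hr t ht
    refine hζ₀ x y t.1 ?_
    simp only [S, Set.mem_iUnion]
    exact ⟨r, hr, t, ht, rfl⟩
  obtain ⟨ζ, hζ, hnm⟩ := hB.book f hf ζ₀
  have hbel : ∀ x y, ∀ r ∈ A x y, Below ζ r.1 := fun x y r hr t ht =>
    (hζ₀' x y r hr t ht).trans_le hζ
  refine ⟨ζ, ?_, ?_⟩
  · intro p hp y θ hθ
    by_cases hcomp : ∃ r : Cnd B, r ≤ q₀ ∧ r.1 ≤ p
    · obtain ⟨r, hr, hrp⟩ := hcomp
      obtain ⟨s, hs, W, hW⟩ := hm_decide (Forces.mono nf_basic hr h) hθ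
      refine ⟨res s.1 ζ, valid_res s.2 ζ, res_le_of_le ((show s.1 ≤ r.1 from hs).trans hrp) hp.2,
        W, ?_⟩
      intro x hx hxW q' hq' hle t ht hqt
      rw [hnm] at ht
      obtain ⟨t', ht', rfl⟩ := ht
      have hv := amal_valid hq' s.2 hle
      let v : Cnd B := ⟨amal q' s.1, hv⟩
      have hvs : v ≤ s := amal_le_right hle
      have hvt : v ≤ t' := (amal_le_left hle).trans hqt
      exact hW x hx hxW v hvs (Forces.mono nf_basic hvt (hAD x y ht').2)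
    · refine ⟨p, hp, le_rfl, ∅, ?_⟩
      intro x hx _ q' hq' hle t ht hqt
      rw [hnm] at ht
      obtain ⟨t', ht', rfl⟩ := ht
      exact hcomp ⟨⟨q', hq'.1⟩, hqt.trans (hAD x y ht').1, hle⟩
  · intro s x y hs hadj
    obtain ⟨t, ht, v, hv1, hv2⟩ := hmax x y s ⟨hs, hadj⟩
    refine ⟨v, hv1, t.1, ?_, ?_⟩
    · rw [hnm]
      exact ⟨t, ht, rfl⟩
    · exact res_le_of_le hv2 (hbel x y t ht)

/-- Every Hajnal–Máté graph has a regressive colouring. -/
theorem reg_coloring {q₀ : Cnd B} {E : Name (Cnd B)} (h : Fc q₀ (isHM (wn B) (Wn B) E)) :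
    Fc q₀ (ex fun c => and (isFunc c (Wn B) (Wn B))
      (and (isProper E c) (isRegressive (Wn B) c))) := by
  classical
  obtain ⟨ζ, hLF, hst⟩ := exists_stage hB h
  let Q : Ω × Ω → Cnd B → Prop := fun i r => (ζ, i.1, i.2) ∈ r.1.c
  have hQ : Down Q := fun i p q hq h => hq.2.1 h
  let d : Ω × Ω → Name (Cnd B) := fun i => onm (Cnd B) i.1
  let v : Ω × Ω → Name (Cnd B) := fun i => onm (Cnd B) i.2
  have hf : Fc q₀ (isFunc (mkFn (Ω × Ω) d v Q) (Wn B) (Wn B)) := by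
    refine fc_isFunc hQ ?_ ?_ ?_
    · intro i r _ _
      exact ⟨onm_mem_oall _ r, onm_mem_oall _ r⟩
    · intro x r _ hx
      refine (fmem_oall.1 hx).bind ?_
      rintro u hu ⟨x', hx'⟩ w hw
      obtain ⟨w', hw', γ, hγ⟩ := add_col hB w ζ x'
      exact ⟨w', hw', (x', γ), hγ, feq_mono (hw'.trans hw) hx'⟩
    · rintro ⟨x, γ⟩ ⟨x', γ'⟩ r _ h1 h2 h3
      have h4 : x = x' := onm_inj h3
      subst h4
      have h5 : γ = γ' := (valid_iff.1 r.2).1.2.2 _ _ _ _ h1 h2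
      rw [h5]
      exact feq_refl _ _
  have hpr : Fc q₀ (isProper E (mkFn (Ω × Ω) d v Q)) := by
    intro x y z
    refine (forces_imp nf_basic).2 fun q hq hh => ?_
    intro r hr hadj
    obtain ⟨r1, hr1, ⟨x', γ⟩, hQ1, e1, e2⟩ := (((fc_app hQ).1 hh.1).mono hr).exists
    obtain ⟨r2, hr2, ⟨y', γ'⟩, hQ2, e3, e4⟩ := (((fc_app hQ).1 hh.2).mono (hr1.trans hr)).exists
    have hγ : γ = γ' := onm_inj (feq_trans (feq_symm (feq_mono hr2 e2)) e4)
    subst hγ
    have hr2q : r2 ≤ q₀ := hr2.trans (hr1.trans (hr.trans hq))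
    have hadj' : Fc r2 (adj E (onm (Cnd B) x') (onm (Cnd B) y')) :=
      adj_congr (feq_mono hr2 e1) e3 (Forces.mono nf_basic (hr2.trans hr1) hadj)
    have key : ∀ x y : Ω, x < y → (ζ, x, γ) ∈ r2.1.c → (ζ, y, γ) ∈ r2.1.c →
        ¬ Fc r2 (adj E (onm (Cnd B) x) (onm (Cnd B) y)) := by
      intro x y hxy h1 h2 h3
      obtain ⟨v, hv, t, ht, hvt⟩ := hst r2 x y hr2q h3
      exact (valid_iff.1 r2.2).2 ζ x y γ hxy h1 h2 hLF _ (valid_res v.2 ζ)
        (res_mono hv ζ) t ht hvt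
    have hQ1' : (ζ, x', γ) ∈ r2.1.c := hr2.2.1 hQ1
    rcases lt_trichotomy x' y' with hlt | heq | hgt
    · exact key x' y' hlt hQ1' hQ2 hadj'
    · subst heq
      exact graph_ne (Forces.mono nf_basic hr2q h.1) hadj'
    · exact key y' x' hgt hQ2 hQ1' (adj_symm hadj')
  have hre : Fc q₀ (isRegressive (Wn B) (mkFn (Ω × Ω) d v Q)) := by
    refine (forces_ball nf_basic).2 fun a q hq ha => ?_
    refine (forces_imp nf_basic).2 fun r hr hlim => ?_
    intro z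
    refine (forces_imp nf_basic).2 fun s hs happ => ?_
    refine fmem_dense ?_
    refine ((fc_app hQ).1 happ).imp ?_
    rintro t ht ⟨⟨x, γ⟩, hQ1, e1, e2⟩
    have hlim' : Fc t (isLimit (onm (Cnd B) x)) := by
      have hrel : Fml.Rel (fun a b => feq a b t) (isLimit a) (isLimit (onm (Cnd B) x)) :=
        .and (.ex fun y => .mem (feq_refl _ t) e1)
          (Fml.Rel.ball (fun x => feq_refl x t) e1 fun y =>
            Fml.Rel.bex (fun x => feq_refl x t) e1 fun z => .mem (feq_refl _ t) (feq_refl _ t))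
      exact (fc_congr hrel le_rfl).1 (Forces.mono nf_basic (ht.trans hs) hlim)
    have h1 := lim_of_forces hlim'
    have h2 : γ < x := hB.reg x γ h1 ((valid_iff.1 t.2).1.2.1 _ _ _ hQ1)
    exact fmem_congr_left (feq_symm e2) (fmem_congr_right (feq_symm e1) (onm_mem h2 t))
  exact forces_ex.2 (Loc.pure fun s hs => ⟨_, Forces.mono nf_basic hs hf,
    Forces.mono nf_basic hs hpr, Forces.mono nf_basic hs hre⟩)

theorem no_reg (p : Cnd B) : Fc p (neg (ex fun E => isRegHM (wn B) (Wn B) E)) := by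
  intro q _ hex
  obtain ⟨r, _, E, h1, h2⟩ := (forces_ex.1 hex).exists
  exact h2 r le_rfl (reg_coloring hB h1)

theorem forces_main (p : Cnd B) : Fc p hmNoReg :=
  forces_ex.2 (Loc.pure fun _ _ => ⟨wn B, forces_ex.2 (Loc.pure fun r _ => ⟨Wn B, omega_isOmega r,
    forces_hartogs hB r, forces_ex.2 (Loc.pure fun s _ => ⟨En B, en_hm hB s⟩), no_reg hB r⟩)⟩)

end

end Pool.Agent.Lib_helper27.H
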